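import Pool.Agent.Y842.PG.Unif
import Pool.Agent.Y842.PH.Sqf
import Pool.Agent.Y842.EL.One

/-!
Library Y842.PG (helper842), part 13: the pair theorem for the Liouville and Moebius functions with
periodic weights, and its consequence for correlations of all orders with arbitrary further factors.
-/

set_option autoImplicit false

open Finset

namespace Pool.Agent.Y842.PG

open Pool.Agent.Y842.PH
open Pool.Agent.Helper602.MK (ee)
open Pool.Agent.Helper602.MK.N_J1c (c_norm_ee)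
open Pool.Agent.TH823.MRS (ExpoSmall FlipAll)

/-- values at `0` changed to `0` -/
noncomputable def z0 (g : ℕ → ℂ) (n : ℕ) : ℂ := if n = 0 then 0 else g n

lemma z0_le (g : ℕ → ℂ) (hg : ∀ n, 1 ≤ n → ‖g n‖ ≤ 1) (n : ℕ) : ‖z0 g n‖ ≤ 1 := by
  unfold z0
  split_ifs with h
  · simp
  · exact hg n (by omega)

lemma z0_mul (g : ℕ → ℂ) (hm : ∀ m n : ℕ, 1 ≤ m → 1 ≤ n → Nat.Coprime m n → g (m * n) = g m * g n)
    (m n : ℕ) (h : Nat.Coprime m n) : z0 g (m * n) = z0 g m * z0 g n := by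
  unfold z0
  by_cases h1 : m = 0
  · simp [h1]
  by_cases h2 : n = 0
  · simp [h2]
  rw [if_neg h1, if_neg h2, if_neg (Nat.mul_ne_zero h1 h2)]
  exact hm m n (by omega) (by omega) h

/-- functions changing sign at every prime -/
lemma flip_Flp (f : ℕ → ℤ) (hf : FlipAll f) (p : ℕ) (hp : p.Prime) : Flp (fun n => (f n : ℂ)) p :=
  ⟨-1, by simp, fun n hn => by
    show (f (p * n) : ℂ) = -1 * (f n : ℂ)
    rw [hf p n hp hn]
    push_cast
    ring⟩

/-- an upper bound for all phases at every scale -/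
theorem pair_bd (f : ℕ → ℂ) (hb : ∀ n, ‖f n‖ ≤ 1) (hE : ExpoSmall f) (hf : ∀ p : ℕ, p.Prime → Flp f p)
    (a c : ℕ) (hac : a ≠ c) (ε : ℝ) (hε : 0 < ε) :
    ∃ X₀ : ℕ, ∀ X : ℕ, X₀ ≤ X → ∀ g : ℕ → ℂ, (∀ n, 1 ≤ n → ‖g n‖ ≤ 1) →
      (∀ m n : ℕ, 1 ≤ m → 1 ≤ n → Nat.Coprime m n → g (m * n) = g m * g n) → ∀ y : ℕ → ℕ, (∀ N, y N ≤ N) →
        ∃ B : ℕ → ℝ, (∀ N (α : ℝ), ‖∑ n ∈ Icc 1 (y N), f (n + a) * g (n + c) * ee (α * n)‖ ≤ B N) ∧
          ∑ N ∈ Icc 1 X, B N / (N : ℝ) ^ 2 ≤ ε * Real.log X := by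
  obtain ⟨X₁, hX₁⟩ := pair_all f hb hE hf a c hac (ε / 2) (by positivity)
  obtain ⟨X₂, hX₂⟩ := Filter.eventually_atTop.1 ((Filter.tendsto_atTop.1
    (Real.tendsto_log_atTop.comp tendsto_natCast_atTop_atTop)) (4 / ε))
  refine ⟨X₁ + X₂, fun X hX g hg hm y hy => ?_⟩
  have hlog : 4 / ε ≤ Real.log X := hX₂ X (by omega)
  set F : ℕ → ℝ → ℝ := fun N α => ‖∑ n ∈ Icc 1 (y N), f (n + a) * g (n + c) * ee (α * n)‖ with hF
  have hbd : ∀ N, BddAbove (Set.range (F N)) := by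
    intro N
    refine ⟨(y N : ℝ), ?_⟩
    rintro _ ⟨α, rfl⟩
    refine (norm_sum_le _ _).trans ?_
    calc ∑ n ∈ Icc 1 (y N), ‖f (n + a) * g (n + c) * ee (α * n)‖ ≤ ∑ n ∈ Icc 1 (y N), (1 : ℝ) := by
          refine sum_le_sum fun n hn => ?_
          have h1 := (mem_Icc.1 hn).1
          rw [norm_mul, norm_mul, c_norm_ee, mul_one]
          exact mul_le_one₀ (hb _) (norm_nonneg _) (hg _ (by omega))
      _ = (y N : ℝ) := by simp
  have hex : ∀ N, ∃ α : ℝ, (⨆ β, F N β) - 1 < F N α := fun N => exists_lt_of_lt_ciSup (by linarith)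
  choose α hα using hex
  refine ⟨fun N => F N (α N) + 1, fun N β => ?_, ?_⟩
  · have h1 : F N β ≤ ⨆ β, F N β := le_ciSup (hbd N) β
    have h2 := hα N
    show F N β ≤ F N (α N) + 1
    linarith
  · have h1 := hX₁ X (by omega) (z0 g) (z0_le g hg) (z0_mul g hm) α y hy
    have h2 : ∀ N ∈ Icc 1 X, (F N (α N) + 1) / (N : ℝ) ^ 2 =
        ‖∑ n ∈ Icc 1 (y N), f (n + a) * z0 g (n + c) * ee (α N * n)‖ / (N : ℝ) ^ 2 + 1 / (N : ℝ) ^ 2 := by
      intro N _
      rw [add_div]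
      congr 2
      rw [hF]
      show ‖∑ n ∈ Icc 1 (y N), f (n + a) * g (n + c) * ee (α N * n)‖ = _
      congr 1
      refine sum_congr rfl fun n hn => ?_
      have h1 := (mem_Icc.1 hn).1
      have e : z0 g (n + c) = g (n + c) := by
        unfold z0
        rw [if_neg (by omega)]
      rw [e]
    rw [sum_congr rfl h2, sum_add_distrib]
    have h3 := sq_le X
    have h4 : 2 ≤ ε / 2 * Real.log X := by
      calc (2 : ℝ) = ε / 2 * (4 / ε) := by field_simp; norm_num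
        _ ≤ ε / 2 * Real.log X := mul_le_mul_of_nonneg_left hlog (by positivity)
    linarith

/-- periodic weights -/
lemma per_I (y q : ℕ) (hq : 1 ≤ q) (F c : ℕ → ℂ) (a : ℕ) (hc : ∀ n, ‖c n‖ ≤ 1) (hcq : ∀ n, c (n + q) = c n) (S : ℝ)
    (hS : ∀ α : ℝ, ‖∑ m ∈ Icc 1 y, F m * ee (α * m)‖ ≤ S) (α : ℝ) :
    ‖∑ m ∈ Icc 1 y, F m * c (m + a) * ee (α * m)‖ ≤ q * S := by
  have hcm : ∀ n, c (n + a) = c (n % q + a) := by
    intro n
    have h1 : ∀ k m : ℕ, c (m + q * k) = c m := by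
      intro k
      induction k with
      | zero => intro m; simp
      | succ k ih =>
        intro m
        rw [show m + q * (k + 1) = m + q * k + q by ring, hcq, ih]
    conv_lhs => rw [← Nat.mod_add_div n q]
    rw [show n % q + q * (n / q) + a = n % q + a + q * (n / q) by ring, h1]
  have hI : ∀ H : ℕ → ℂ, ∑ m ∈ range (y + 1), (if m = 0 then 0 else H m) = ∑ m ∈ Icc 1 y, H m := by
    intro H
    rw [sum_shift, sum_range_succ]
    have e1 : ∑ m ∈ range y, H m = ∑ m ∈ range y, (if m = 0 then 0 else H m) + (if y = 0 then 0 else H 0) := by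
      rcases Nat.eq_zero_or_pos y with hy | hy
      · simp [hy]
      · rw [if_neg (by omega), ← sum_erase_add _ _ (mem_range.2 hy), ← sum_erase_add (a := 0) _ _ (mem_range.2 hy),
          if_pos rfl, add_zero]
        congr 1
        refine sum_congr rfl fun m hm => ?_
        rw [if_neg (ne_of_mem_erase hm)]
    rw [e1]
    rcases Nat.eq_zero_or_pos y with hy | hy
    · simp [hy]
    · rw [if_neg (by omega), if_neg (by omega)]
      ring
  have h1 := per_w (y + 1) q hq (fun m => if m = 0 then 0 else F m) (fun m => c (m + a)) (fun n => hc _)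
    (fun n => hcm n) S (fun β => by
      have e1 : ∑ m ∈ range (y + 1), (if m = 0 then 0 else F m) * ee (β * m) = ∑ m ∈ Icc 1 y, F m * ee (β * m) := by
        rw [← hI]
        refine sum_congr rfl fun m _ => ?_
        split_ifs <;> simp
      show ‖∑ m ∈ range (y + 1), (if m = 0 then 0 else F m) * ee (β * m)‖ ≤ S
      rw [e1]
      exact hS β) α
  refine le_trans (le_of_eq ?_) h1
  congr 1
  rw [← hI]
  refine sum_congr rfl fun m _ => ?_
  show (if m = 0 then 0 else F m * c (m + a) * ee (α * m)) = (if m = 0 then 0 else F m) * c (m + a) * ee (α * m)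
  split_ifs <;> simp

/-- `f` is the product of a function and a periodic function of small period -/
def Tw (f₀ : ℕ → ℂ) (Q : ℕ) (f : ℕ → ℂ) : Prop :=
  ∃ (q : ℕ) (κ : ℕ → ℂ), 1 ≤ q ∧ q ≤ Q ∧ (∀ n, ‖κ n‖ ≤ 1) ∧ (∀ n, κ (n + q) = κ n) ∧ ∀ n, f n = f₀ n * κ n

theorem pair_tw (f₀ : ℕ → ℂ) (hb : ∀ n, ‖f₀ n‖ ≤ 1) (hE : ExpoSmall f₀) (hf : ∀ p : ℕ, p.Prime → Flp f₀ p)
    (a c : ℕ) (hac : a ≠ c) (Q : ℕ) (ε : ℝ) (hε : 0 < ε) :
    ∃ X₀ : ℕ, ∀ X : ℕ, X₀ ≤ X → ∀ f : ℕ → ℂ, Tw f₀ Q f → ∀ g : ℕ → ℂ, (∀ n, 1 ≤ n → ‖g n‖ ≤ 1) →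
      (∀ m n : ℕ, 1 ≤ m → 1 ≤ n → Nat.Coprime m n → g (m * n) = g m * g n) → ∀ y : ℕ → ℕ, (∀ N, y N ≤ N) →
        ∃ B : ℕ → ℝ, (∀ N (α : ℝ), ‖∑ n ∈ Icc 1 (y N), f (n + a) * g (n + c) * ee (α * n)‖ ≤ B N) ∧
          ∑ N ∈ Icc 1 X, B N / (N : ℝ) ^ 2 ≤ ε * Real.log X := by
  obtain ⟨X₀, hX₀⟩ := pair_bd f₀ hb hE hf a c hac (ε / (Q + 1)) (by positivity)
  refine ⟨X₀, fun X hX f hfT g hg hm y hy => ?_⟩
  obtain ⟨q, κ, hq1, hqQ, hκ1, hκq, hfκ⟩ := hfT
  obtain ⟨B, hB1, hB2⟩ := hX₀ X hX g hg hm y hy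
  refine ⟨fun N => q * B N, fun N α => ?_, ?_⟩
  · have h1 := per_I (y N) q hq1 (fun n => f₀ (n + a) * g (n + c)) κ a hκ1 hκq (B N) (hB1 N) α
    refine le_trans (le_of_eq ?_) h1
    congr 1
    refine sum_congr rfl fun n _ => ?_
    rw [hfκ]
    ring
  · have h1 : ∑ N ∈ Icc 1 X, (q : ℝ) * B N / (N : ℝ) ^ 2 = q * ∑ N ∈ Icc 1 X, B N / (N : ℝ) ^ 2 := by
      rw [mul_sum]
      refine sum_congr rfl fun N _ => ?_
      rw [mul_div_assoc]
    rw [h1]
    have h0 : (0 : ℝ) ≤ Real.log X := Real.log_natCast_nonneg X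
    have hqQ' : (q : ℝ) ≤ Q + 1 := by
      have : (q : ℝ) ≤ Q := by exact_mod_cast hqQ
      linarith
    calc (q : ℝ) * ∑ N ∈ Icc 1 X, B N / (N : ℝ) ^ 2 ≤ q * (ε / (Q + 1) * Real.log X) :=
          mul_le_mul_of_nonneg_left hB2 (Nat.cast_nonneg q)
      _ ≤ (Q + 1) * (ε / (Q + 1) * Real.log X) := mul_le_mul_of_nonneg_right hqQ' (by positivity)
      _ = ε * Real.log X := by field_simp

/-- **all orders**: arbitrary further factors, almost all shifts -/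
theorem pair_ord (f₀ : ℕ → ℂ) (hb : ∀ n, ‖f₀ n‖ ≤ 1) (hE : ExpoSmall f₀) (hf : ∀ p : ℕ, p.Prime → Flp f₀ p)
    (a c : ℕ) (hac : a ≠ c) (Q : ℕ) (ε : ℝ) (hε : 0 < ε) :
    ∃ X₀ : ℕ, ∀ X : ℕ, X₀ ≤ X → ∀ f : ℕ → ℂ, Tw f₀ Q f → ∀ g : ℕ → ℂ, (∀ n, 1 ≤ n → ‖g n‖ ≤ 1) →
      (∀ m n : ℕ, 1 ≤ m → 1 ≤ n → Nat.Coprime m n → g (m * n) = g m * g n) → ∀ G : ℕ → ℕ → ℂ,
        (∀ N n, ‖G N n‖ ≤ 1) → ∑ N ∈ Icc 1 X, (∑ s ∈ Icc 1 N, ‖∑ n ∈ Icc 1 N,
          G N n * (f (n + s + a) * g (n + s + c))‖) / (N : ℝ) ^ 3 ≤ ε * Real.log X := by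
  obtain ⟨X₁, hX₁⟩ := pair_tw f₀ hb hE hf a c hac Q (ε / 32) (by positivity)
  obtain ⟨X₂, hX₂⟩ := Filter.eventually_atTop.1 ((Filter.tendsto_atTop.1
    (Real.tendsto_log_atTop.comp tendsto_natCast_atTop_atTop)) (32 / ε))
  refine ⟨X₁ + X₂ + 2, fun X hX f hfT g hg hm G hG => ?_⟩
  have hlog : 32 / ε ≤ Real.log X := hX₂ X (by omega)
  have hlX := log_two_mul X (by omega)
  obtain ⟨B, hB1, hB2⟩ := hX₁ (2 * X) (by omega) f hfT g hg hm (fun N => N) (fun _ => le_refl _)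
  have hf1 : ∀ n, ‖f n‖ ≤ 1 := by
    intro n
    obtain ⟨q, κ, -, -, hκ1, -, hfκ⟩ := hfT
    rw [hfκ, norm_mul]
    exact mul_le_one₀ (hb n) (norm_nonneg _) (hκ1 n)
  have hB0 : ∀ N, 0 ≤ B N := fun N => (norm_nonneg _).trans (hB1 N 0)
  set F : ℕ → ℂ := fun m => if m = 0 then 0 else f (m + a) * g (m + c) with hF
  have h1 : ∀ N ∈ Icc 1 X, (∑ s ∈ Icc 1 N, ‖∑ n ∈ Icc 1 N, G N n * (f (n + s + a) * g (n + s + c))‖) / (N : ℝ) ^ 3 ≤
      8 * (B (2 * N) / ((2 * N : ℕ) : ℝ) ^ 2) := by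
    intro N hN
    have hN1 := (mem_Icc.1 hN).1
    have hN0 : (0 : ℝ) < N := by exact_mod_cast hN1
    have h2 := shifts (2 * N + 1) (N + 1) (N + 1) (by omega) (by omega) (by omega) F
      (fun n => if n = 0 then 0 else G N n) (B (2 * N)) (fun β => by
        have e1 : ∑ m ∈ range (2 * N + 1), F m * ee (β * m) =
            ∑ n ∈ Icc 1 (2 * N), f (n + a) * g (n + c) * ee (β * n) := by
          have e2 := sum_shift (fun m => F m * ee (β * m)) (2 * N)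
          rw [sum_range_succ]
          have e3 : F 0 = 0 := by rw [hF]; rfl
          have e4 : ∑ n ∈ Icc 1 (2 * N), F n * ee (β * n) =
              ∑ n ∈ Icc 1 (2 * N), f (n + a) * g (n + c) * ee (β * n) := by
            refine sum_congr rfl fun n hn => ?_
            have h3 := (mem_Icc.1 hn).1
            rw [hF]
            show (if n = 0 then 0 else f (n + a) * g (n + c)) * ee (β * n) = _
            rw [if_neg (by omega)]
          rw [← e4]
          rw [e3, zero_mul, sub_zero] at e2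
          exact e2.symm
        rw [e1]
        exact hB1 (2 * N) β)
    have h3 : ∑ s ∈ Icc 1 N, ‖∑ n ∈ Icc 1 N, G N n * (f (n + s + a) * g (n + s + c))‖ ≤
        ∑ s ∈ range (N + 1), ‖∑ n ∈ range (N + 1), (if n = 0 then 0 else G N n) * F (n + s)‖ := by
      have e0 : Icc 1 N ⊆ range (N + 1) := by
        intro s hs
        rw [mem_Icc] at hs
        rw [mem_range]
        omega
      refine le_trans (le_of_eq ?_) (sum_le_sum_of_subset_of_nonneg e0 fun _ _ _ => norm_nonneg _)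
      refine sum_congr rfl fun s hs => ?_
      have hs1 := (mem_Icc.1 hs).1
      congr 1
      have e1 := sum_shift (fun n => (if n = 0 then 0 else G N n) * F (n + s)) N
      rw [sum_range_succ]
      have e2 : (if (0 : ℕ) = 0 then (0 : ℂ) else G N 0) * F (0 + s) = 0 := by
        rw [if_pos rfl, zero_mul]
      rw [e2, sub_zero] at e1
      rw [← e1]
      refine sum_congr rfl fun n hn => ?_
      have hn1 := (mem_Icc.1 hn).1
      rw [if_neg (by omega), hF]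
      show _ = G N n * (if n + s = 0 then 0 else f (n + s + a) * g (n + s + c))
      rw [if_neg (by omega)]
    have h4 : Real.sqrt (∑ n ∈ range (N + 1), ‖(if n = 0 then 0 else G N n)‖ ^ 2) ≤ Real.sqrt ((N + 1 : ℕ) : ℝ) := by
      apply Real.sqrt_le_sqrt
      calc ∑ n ∈ range (N + 1), ‖(if n = 0 then 0 else G N n)‖ ^ 2 ≤ ∑ n ∈ range (N + 1), (1 : ℝ) := by
            refine sum_le_sum fun n _ => ?_
            apply pow_le_one₀ (norm_nonneg _)
            split_ifs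
            · simp
            · exact hG N n
        _ = ((N + 1 : ℕ) : ℝ) := by simp
    have h5 : Real.sqrt (∑ n ∈ range (N + 1), ‖(if n = 0 then 0 else G N n)‖ ^ 2) * Real.sqrt ((N + 1 : ℕ) : ℝ) ≤
        2 * N := by
      calc _ ≤ Real.sqrt ((N + 1 : ℕ) : ℝ) * Real.sqrt ((N + 1 : ℕ) : ℝ) :=
            mul_le_mul_of_nonneg_right h4 (Real.sqrt_nonneg _)
        _ = ((N + 1 : ℕ) : ℝ) := Real.mul_self_sqrt (Nat.cast_nonneg _)
        _ ≤ 2 * N := by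
            push_cast
            have : (1 : ℝ) ≤ N := by exact_mod_cast hN1
            linarith
    have h6 := (h3.trans h2).trans (mul_le_mul_of_nonneg_left h5 (hB0 (2 * N)))
    calc _ ≤ (B (2 * N) * (2 * N)) / (N : ℝ) ^ 3 := div_le_div_of_nonneg_right h6 (by positivity)
      _ = 8 * (B (2 * N) / ((2 * N : ℕ) : ℝ) ^ 2) := by
          push_cast
          field_simp
          ring
  have h2 : ∑ N ∈ Icc 1 X, 8 * (B (2 * N) / ((2 * N : ℕ) : ℝ) ^ 2) ≤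
      8 * ∑ M ∈ Icc 1 (2 * X), B M / (M : ℝ) ^ 2 := by
    rw [← mul_sum]
    apply mul_le_mul_of_nonneg_left _ (by norm_num)
    have e1 : ∑ N ∈ Icc 1 X, B (2 * N) / ((2 * N : ℕ) : ℝ) ^ 2 =
        ∑ M ∈ (Icc 1 X).image (fun N => 2 * N), B M / (M : ℝ) ^ 2 := by
      rw [sum_image]
      intro x _ y _ hxy
      have : 2 * x = 2 * y := hxy
      omega
    rw [e1]
    apply sum_le_sum_of_subset_of_nonneg
    · intro M hM
      rw [mem_image] at hM
      obtain ⟨N, hN, rfl⟩ := hM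
      rw [mem_Icc] at hN ⊢
      omega
    · intro M _ _
      exact div_nonneg (hB0 M) (by positivity)
  refine (sum_le_sum h1).trans (h2.trans ?_)
  have h3 := mul_le_mul_of_nonneg_left hlX (show (0 : ℝ) ≤ ε / 32 by positivity)
  have h0 : (0 : ℝ) ≤ Real.log X := Real.log_natCast_nonneg X
  have h4 : (0 : ℝ) ≤ ε * Real.log X := by positivity
  linarith

end Pool.Agent.Y842.PG
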