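import Pool.Agent.Y842.PG.Rat

/-!
Library Y842.PG (helper842), part 10: all phases, all partial sums, explicit thresholds.
-/

set_option autoImplicit false

open Finset

namespace Pool.Agent.Y842.PG

open Pool.Agent.Y842.PH
open Pool.Agent.Helper602.MK (ee)
open Pool.Agent.Helper602.MK.N_J1c (c_ee_add c_ee_int c_norm_ee)
open Pool.Agent.TH823.MRS (ExpoSmall)
open Pool.Agent.Y304.U (sE ind ind_nonneg ind_le sE_nonneg)

lemma sE_mono {E F : Set ℕ} (h : E ⊆ F) (X : ℕ) : sE E X ≤ sE F X := by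
  classical
  unfold sE
  refine sum_le_sum fun n _ => ?_
  apply div_le_div_of_nonneg_right _ (Nat.cast_nonneg n)
  unfold ind
  by_cases h1 : n ∈ E
  · rw [if_pos h1, if_pos (h h1)]
  · rw [if_neg h1]
    split_ifs <;> norm_num

lemma sE_union (E F : Set ℕ) (X : ℕ) : sE (E ∪ F) X ≤ sE E X + sE F X := by
  classical
  unfold sE
  rw [← sum_add_distrib]
  refine sum_le_sum fun n _ => ?_
  rw [← add_div]
  apply div_le_div_of_nonneg_right _ (Nat.cast_nonneg n)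
  have h1 := ind_nonneg E n
  have h2 := ind_nonneg F n
  by_cases hE : n ∈ E
  · have : ind E n = 1 := by unfold ind; rw [if_pos hE]
    rw [this]
    have := ind_le (E ∪ F) n
    linarith
  · by_cases hF : n ∈ F
    · have : ind F n = 1 := by unfold ind; rw [if_pos hF]
      rw [this]
      have := ind_le (E ∪ F) n
      linarith
    · have : ind (E ∪ F) n = 0 := by
        unfold ind
        rw [if_neg]
        rintro (h | h)
        · exact hE h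
        · exact hF h
      rw [this]
      linarith

lemma sE_cover {ι : Type} (s : Finset ι) (E : Set ℕ) (F : ι → Set ℕ) (h : ∀ n ∈ E, ∃ i ∈ s, n ∈ F i) (X : ℕ) :
    sE E X ≤ ∑ i ∈ s, sE (F i) X := by
  classical
  unfold sE
  rw [sum_comm]
  refine sum_le_sum fun n _ => ?_
  rw [← sum_div]
  apply div_le_div_of_nonneg_right _ (Nat.cast_nonneg n)
  by_cases hE : n ∈ E
  · obtain ⟨i, hi, hn⟩ := h n hE
    have h1 : ind (F i) n = 1 := by unfold ind; rw [if_pos hn]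
    refine (ind_le E n).trans ?_
    rw [← h1]
    exact single_le_sum (f := fun i => ind (F i) n) (fun i _ => ind_nonneg _ _) hi
  · have h1 : ind E n = 0 := by unfold ind; rw [if_neg hE]
    rw [h1]
    exact sum_nonneg fun i _ => ind_nonneg _ _

/-- sets with long intervals in a thin set -/
lemma thick (B : Set ℕ) (c : ℝ) (hc : 0 < c) (hc1 : c ≤ 1) (X : ℕ) :
    sE {N : ℕ | ∃ y : ℕ, c * N ≤ y ∧ y ≤ N ∧ ∀ m : ℕ, y ≤ m → (m : ℝ) ≤ y + c * N → m ∈ B} X ≤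
      4 / c * sE B (2 * X) := by
  classical
  set G : Set ℕ := {N : ℕ | ∃ y : ℕ, c * N ≤ y ∧ y ≤ N ∧ ∀ m : ℕ, y ≤ m → (m : ℝ) ≤ y + c * N → m ∈ B} with hG
  have h1 : ∀ N ∈ Icc 1 X, ind G N / N ≤
      ∑ m ∈ Icc 1 (2 * X), ind B m * ((if m ≤ 2 * N then 1 else 0) * (1 / (c * (N : ℝ) ^ 2))) := by
    intro N hN
    rw [mem_Icc] at hN
    have hN0 : (0 : ℝ) < N := by exact_mod_cast (by omega : 0 < N)
    by_cases hNG : N ∈ G
    · obtain ⟨y, hy1, hy2, hy3⟩ := hNG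
      have hy0 : 0 < y := by
        have : (0 : ℝ) < y := lt_of_lt_of_le (by positivity) hy1
        exact_mod_cast this
      have h2 : (Icc y (y + ⌊c * N⌋₊)) ⊆ (Icc 1 (2 * X)).filter (fun m => m ∈ B ∧ m ≤ 2 * N) := by
        intro m hm
        rw [mem_Icc] at hm
        have h3 : ((y + ⌊c * N⌋₊ : ℕ) : ℝ) ≤ y + c * N := by
          push_cast
          have := Nat.floor_le (show 0 ≤ c * (N : ℝ) by positivity)
          linarith
        have h4 : (m : ℝ) ≤ y + c * N := by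
          have : (m : ℝ) ≤ ((y + ⌊c * N⌋₊ : ℕ) : ℝ) := by exact_mod_cast hm.2
          linarith
        have h5 : m ≤ 2 * N := by
          have h6 : c * (N : ℝ) ≤ N := by nlinarith
          have h7 : (y : ℝ) ≤ N := by exact_mod_cast hy2
          have h8 : (m : ℝ) ≤ ((2 * N : ℕ) : ℝ) := by
            push_cast
            linarith
          exact_mod_cast h8
        rw [mem_filter, mem_Icc]
        exact ⟨⟨by omega, by omega⟩, hy3 m hm.1 h4, h5⟩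
      have h3 := card_le_card h2
      rw [Nat.card_Icc] at h3
      have h4 : c * N ≤ (((Icc 1 (2 * X)).filter (fun m => m ∈ B ∧ m ≤ 2 * N)).card : ℝ) := by
        have h5 := (Nat.lt_floor_add_one (c * (N : ℝ))).le
        have h6 : ⌊c * (N : ℝ)⌋₊ + 1 ≤ ((Icc 1 (2 * X)).filter (fun m => m ∈ B ∧ m ≤ 2 * N)).card := by omega
        have h7 : ((⌊c * (N : ℝ)⌋₊ : ℕ) : ℝ) + 1 ≤
            (((Icc 1 (2 * X)).filter (fun m => m ∈ B ∧ m ≤ 2 * N)).card : ℝ) := by exact_mod_cast h6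
        linarith
      have h5 : ∑ m ∈ Icc 1 (2 * X), ind B m * ((if m ≤ 2 * N then 1 else 0) * (1 / (c * (N : ℝ) ^ 2))) =
          (((Icc 1 (2 * X)).filter (fun m => m ∈ B ∧ m ≤ 2 * N)).card : ℝ) * (1 / (c * (N : ℝ) ^ 2)) := by
        rw [← nsmul_eq_mul, ← sum_const, sum_filter]
        refine sum_congr rfl fun m _ => ?_
        unfold ind
        by_cases hm1 : m ∈ B
        · by_cases hm2 : m ≤ 2 * N
          · rw [if_pos hm1, if_pos hm2, if_pos ⟨hm1, hm2⟩, one_mul, one_mul]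
          · have hm3 : ¬ (m ∈ B ∧ m ≤ 2 * N) := fun h => hm2 h.2
            rw [if_pos hm1, if_neg hm2, if_neg hm3, zero_mul, mul_zero]
        · have hm3 : ¬ (m ∈ B ∧ m ≤ 2 * N) := fun h => hm1 h.1
          rw [if_neg hm1, if_neg hm3, zero_mul]
      rw [h5]
      have h6 : ind G N = 1 := by
        unfold ind
        rw [if_pos ⟨y, hy1, hy2, hy3⟩]
      rw [h6]
      calc (1 : ℝ) / N = c * N * (1 / (c * (N : ℝ) ^ 2)) := by field_simp
        _ ≤ _ := mul_le_mul_of_nonneg_right h4 (by positivity)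
    · have h6 : ind G N = 0 := by
        unfold ind
        rw [if_neg hNG]
      rw [h6, zero_div]
      refine sum_nonneg fun m _ => mul_nonneg (ind_nonneg B m) ?_
      split_ifs <;> positivity
  have h2 : sE G X ≤ ∑ N ∈ Icc 1 X, ∑ m ∈ Icc 1 (2 * X), ind B m *
      ((if m ≤ 2 * N then 1 else 0) * (1 / (c * (N : ℝ) ^ 2))) := by
    unfold sE
    exact sum_le_sum h1
  refine h2.trans ?_
  rw [sum_comm]
  unfold sE
  rw [mul_sum]
  refine sum_le_sum fun m hm => ?_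
  rw [mem_Icc] at hm
  rw [← mul_sum]
  have hm0 : (0 : ℝ) < m := by exact_mod_cast (by omega : 0 < m)
  have h3 : ∑ N ∈ Icc 1 X, ((if m ≤ 2 * N then 1 else 0) * (1 / (c * (N : ℝ) ^ 2))) ≤ 4 / c * (1 / m) := by
    have h4 : ∑ N ∈ Icc 1 X, ((if m ≤ 2 * N then 1 else 0) * (1 / (c * (N : ℝ) ^ 2))) ≤
        ∑ N ∈ Ioo ((m - 1) / 2) (X + 1), 1 / c * ((N : ℝ) ^ 2)⁻¹ := by
      have h5 : ∑ N ∈ Icc 1 X, ((if m ≤ 2 * N then 1 else 0) * (1 / (c * (N : ℝ) ^ 2))) =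
          ∑ N ∈ (Icc 1 X).filter (fun N => m ≤ 2 * N), 1 / c * ((N : ℝ) ^ 2)⁻¹ := by
        rw [sum_filter]
        refine sum_congr rfl fun N _ => ?_
        split_ifs
        · rw [one_mul, one_div, one_div, mul_inv]
        · rw [zero_mul]
      rw [h5]
      apply sum_le_sum_of_subset_of_nonneg
      · intro N hN
        rw [mem_filter, mem_Icc] at hN
        rw [mem_Ioo]
        omega
      · intro N _ _
        positivity
    refine h4.trans ?_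
    rw [← mul_sum]
    have h6 := sum_Ioo_inv_sq_le (α := ℝ) ((m - 1) / 2) (X + 1)
    have h7 : (2 : ℝ) / ((((m - 1) / 2 : ℕ) : ℝ) + 1) ≤ 4 / m := by
      rw [div_le_div_iff₀ (by positivity) hm0]
      have h8 : m ≤ 2 * ((m - 1) / 2 + 1) := by omega
      have h9 : (m : ℝ) ≤ 2 * ((((m - 1) / 2 : ℕ) : ℝ) + 1) := by exact_mod_cast h8
      linarith
    calc 1 / c * ∑ N ∈ Ioo ((m - 1) / 2) (X + 1), ((N : ℝ) ^ 2)⁻¹ ≤ 1 / c * (4 / m) := by
          apply mul_le_mul_of_nonneg_left _ (by positivity)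
          exact h6.trans h7
      _ = 4 / c * (1 / m) := by ring
  calc ind B m * ∑ N ∈ Icc 1 X, ((if m ≤ 2 * N then 1 else 0) * (1 / (c * (N : ℝ) ^ 2))) ≤
      ind B m * (4 / c * (1 / m)) := mul_le_mul_of_nonneg_left h3 (ind_nonneg B m)
    _ = 4 / c * (ind B m / m) := by ring

lemma log_two_mul (X : ℕ) (hX : 2 ≤ X) : Real.log ((2 * X : ℕ) : ℝ) ≤ 2 * Real.log X := by
  have h4 : ((2 * X : ℕ) : ℝ) ≤ (X : ℝ) ^ 2 := by
    have : (2 : ℝ) ≤ X := by exact_mod_cast hX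
    push_cast
    nlinarith
  calc Real.log ((2 * X : ℕ) : ℝ) ≤ Real.log ((X : ℝ) ^ 2) :=
        Real.log_le_log (by exact_mod_cast (by omega : 0 < 2 * X)) h4
    _ = 2 * Real.log X := by
        rw [Real.log_pow]
        push_cast
        ring

section

variable {r : ℕ} (G : Fin r → ℕ → ℂ) (hG : ∀ t n, ‖G t n‖ ≤ 1) (hs : Fin r → ℕ)

include hG

/-- a large partial sum gives large sums nearby -/
lemma near (δ : ℝ) (hδ : 0 < δ) (hδ1 : δ ≤ 1) (α : ℝ) (N y : ℕ) (hyN : y ≤ N) (hN0 : 0 < N)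
    (hbig : δ * N < ‖Cg G hs y α‖) : δ / 2 * N ≤ y ∧ ∀ m : ℕ, y ≤ m → (m : ℝ) ≤ y + δ / 2 * N →
      δ / 4 * m < ‖Cg G hs m α‖ := by
  have hNr : (0 : ℝ) < N := by exact_mod_cast hN0
  have hy3 := Cg_le G hG hs y α
  have hδN : 0 < δ * N := by positivity
  refine ⟨by linarith, fun m hm1 hm2 => ?_⟩
  have h3 := Cg_sub G hG hs y m hm1 α
  have h4 := norm_sub_norm_le (Cg G hs y α) (Cg G hs m α)
  rw [norm_sub_rev] at h4
  have hyN' : (y : ℝ) ≤ N := by exact_mod_cast hyN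
  have h5 : (m : ℝ) ≤ 3 / 2 * N := by
    have : δ / 2 * N ≤ 1 / 2 * N := by
      apply mul_le_mul_of_nonneg_right _ hNr.le
      linarith
    linarith
  have h6 : δ / 4 * m ≤ δ / 4 * (3 / 2 * N) := mul_le_mul_of_nonneg_left h5 (by positivity)
  linarith

omit hG in
lemma Cg_zero (α : ℝ) : Cg G hs 0 α = 0 := by
  unfold Cg
  simp

omit hG in
lemma Cg_int (N : ℕ) (α : ℝ) (z : ℤ) : Cg G hs N (α + z) = Cg G hs N α := by
  unfold Cg
  refine sum_congr rfl fun n _ => ?_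
  rw [add_mul, c_ee_add]
  have : ee ((z : ℝ) * n) = 1 := by
    have := c_ee_int (z * n)
    push_cast at this
    exact this
  rw [this, mul_one]

omit hG in
/-- phases close to a rational -/
lemma close_rat (δ : ℝ) (hδ : 0 < δ) (α ω : ℝ) (hω : 0 ≤ ω) (N : ℕ) (γ : ℝ) (hγ : |α - γ| * N ≤ ω)
    (hbig : δ * N < ‖Cg G hs N α‖) : ∃ y ≤ N, δ / (1 + 7 * ω) * N < ‖Cg G hs y γ‖ := by
  by_contra hcon
  push Not at hcon
  have h10 : 0 < 1 + 7 * ω := by positivity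
  have h3 := psum (fun n => pr G hs 1 n * ee (γ * n)) (α - γ) N (δ / (1 + 7 * ω) * N) (fun y hy => hcon y hy)
  have h4 : ∑ n ∈ range N, pr G hs 1 n * ee (γ * n) * ee ((α - γ) * n) = Cg G hs N α := by
    unfold Cg
    refine sum_congr rfl fun n _ => ?_
    rw [mul_assoc, ← c_ee_add]
    congr 2
    ring
  rw [h4] at h3
  have h5 : δ / (1 + 7 * ω) * N * (1 + 7 * (|α - γ| * N)) ≤ δ * N := by
    calc δ / (1 + 7 * ω) * N * (1 + 7 * (|α - γ| * N)) ≤ δ / (1 + 7 * ω) * N * (1 + 7 * ω) := by gcongr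
      _ = δ * N := by field_simp
  linarith

end

/-- reduced fractions in `[0, 1)` -/
lemma red_frac (q : ℕ) (hq : 1 ≤ q) (A : ℤ) : ∃ (q' j : ℕ) (z : ℤ), 1 ≤ q' ∧ q' ≤ q ∧ j < q' ∧
    IsCoprime (j : ℤ) (q' : ℤ) ∧ (A : ℝ) / q = (j : ℝ) / q' + z := by
  set ρ : ℚ := (A : ℚ) / q with hρ
  have hq0 : (q : ℚ) ≠ 0 := by exact_mod_cast (by omega : q ≠ 0)
  have hden : ρ.den ≤ q := by
    have h0 : ρ = Rat.divInt A (q : ℤ) := by
      rw [hρ, Rat.divInt_eq_div]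
      push_cast
      rfl
    have h1 : (ρ.den : ℤ) ∣ (q : ℤ) := by
      rw [h0]
      exact Rat.den_dvd A (q : ℤ)
    exact Nat.le_of_dvd hq (by exact_mod_cast h1)
  have hdpos : (0 : ℤ) < ρ.den := by exact_mod_cast ρ.den_pos
  have e1 : 0 ≤ ρ.num % (ρ.den : ℤ) := Int.emod_nonneg _ hdpos.ne'
  have e2 : ρ.num % (ρ.den : ℤ) < ρ.den := Int.emod_lt_of_pos _ hdpos
  obtain ⟨j, hj⟩ := Int.eq_ofNat_of_zero_le e1
  have hcop : IsCoprime ρ.num (ρ.den : ℤ) := by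
    rw [Int.isCoprime_iff_gcd_eq_one]
    have := ρ.reduced
    unfold Nat.Coprime at this
    rw [Int.gcd, Int.natAbs_natCast]
    exact this
  have e3 := Int.emod_add_mul_ediv ρ.num (ρ.den : ℤ)
  refine ⟨ρ.den, j, ρ.num / (ρ.den : ℤ), ρ.den_pos, hden, by rw [hj] at e2; exact_mod_cast e2, ?_, ?_⟩
  · rw [← e3, hj] at hcop
    exact IsCoprime.of_add_mul_left_left hcop
  · have e4 : (A : ℝ) / q = (ρ : ℝ) := by
      rw [hρ]
      push_cast
      rfl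
    have e5 : (ρ : ℝ) = (ρ.num : ℝ) / ρ.den := by
      conv_lhs => rw [← Rat.num_div_den ρ]
      push_cast
      rfl
    have hd0 : (ρ.den : ℝ) ≠ 0 := by exact_mod_cast ρ.den_pos.ne'
    rw [e4, e5]
    have e6 : (ρ.num : ℝ) = (j : ℝ) + ρ.den * ((ρ.num / (ρ.den : ℤ) : ℤ) : ℝ) := by
      rw [hj] at e3
      exact_mod_cast e3.symm
    conv_lhs => rw [e6]
    field_simp

/-- **all phases**, uniformly in one of the functions -/
theorem all_phases (f : ℕ → ℂ) (hb : ∀ n, ‖f n‖ ≤ 1) (hE : ExpoSmall f) (hf : ∀ p : ℕ, p.Prime → Flp f p)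
    (a c : ℕ) (hac : a ≠ c) (δ : ℝ) (hδ : 0 < δ) (hδ1 : δ ≤ 1) (η : ℝ) (hη : 0 < η) :
    ∃ X₀ : ℕ, ∀ X : ℕ, X₀ ≤ X → ∀ g : ℕ → ℂ, (∀ n, ‖g n‖ ≤ 1) → (∀ p : ℕ, p.Prime → Flp g p) →
      sE {N : ℕ | ∃ α : ℝ, ∃ y ≤ N, δ * N < ‖Cg ![f, g] ![a, c] y α‖} X ≤ η * Real.log X := by
  have hbd : ∀ g : ℕ → ℂ, (∀ n, ‖g n‖ ≤ 1) → ∀ (t : Fin 2) (n : ℕ), ‖(![f, g] : Fin 2 → ℕ → ℂ) t n‖ ≤ 1 := by
    intro g hg t n
    fin_cases t
    · exact hb n
    · exact hg n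
  set δ₀ : ℝ := δ / 4 with hδ₀
  have hδ₀0 : 0 < δ₀ := by positivity
  have hδ₀1 : δ₀ ≤ 1 := by rw [hδ₀]; linarith
  obtain ⟨R, X₁, hX₁⟩ := minor (r := 2) (by norm_num) (a + c) ![a, c] (by
    intro t
    fin_cases t
    · show a ≤ a + c
      omega
    · show c ≤ a + c
      omega) δ₀ hδ₀0 hδ₀1 (η * δ / 32) (by positivity)
  set δ₁ : ℝ := δ₀ / (1 + 7 * R) with hδ₁
  have h10 : (0 : ℝ) < 1 + 7 * R := by positivity
  have hδ₁0 : 0 < δ₁ := by positivity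
  have hδ₁1 : δ₁ ≤ 1 := by
    rw [hδ₁, div_le_one h10]
    have : (0 : ℝ) ≤ R := Nat.cast_nonneg R
    linarith
  set η₂ : ℝ := η * δ / 32 / ((R + 1) ^ 2 * (8 / δ₁) * 2) with hη₂
  have hη₂0 : 0 < η₂ := by positivity
  have hrat : ∀ q j : ℕ, ∃ X₀ : ℕ, ∀ X : ℕ, X₀ ≤ X → ∀ g : ℕ → ℂ, (∀ n, ‖g n‖ ≤ 1) →
      (∀ p : ℕ, p.Prime → Flp g p) → 1 ≤ q → IsCoprime (j : ℤ) (q : ℤ) →
      sE {N : ℕ | δ₁ / 4 * N < ‖Cg ![f, g] ![a, c] N (j / q)‖} X ≤ η₂ * Real.log X := by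
    intro q j
    by_cases h : 1 ≤ q ∧ IsCoprime (j : ℤ) (q : ℤ)
    · obtain ⟨X₀, h1⟩ := rat_g f hb hE hf a c hac (j : ℤ) q h.1 h.2 (δ₁ / 4) (by positivity) (by linarith) η₂ hη₂0
      refine ⟨X₀, fun X hX g hg hgF _ _ => ?_⟩
      have := h1 X hX g hg hgF
      push_cast at this
      exact this
    · exact ⟨0, fun X _ g _ _ h1 h2 => (h ⟨h1, h2⟩).elim⟩
  choose X₂ hX₂ using hrat
  refine ⟨X₁ + ∑ q ∈ range (R + 1), ∑ j ∈ range (R + 1), X₂ q j + 2, fun X hX g hg hgF => ?_⟩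
  have hGb := hbd g hg
  have hX2 : 2 ≤ X := by omega
  have hlX := log_two_mul X hX2
  have hlX4 := log_two_mul (2 * X) (by omega)
  have hlog0 : 0 ≤ Real.log (X : ℝ) := Real.log_natCast_nonneg X
  set G : Fin 2 → ℕ → ℂ := ![f, g] with hGd
  set hs : Fin 2 → ℕ := ![a, c] with hhsd
  have hCF : CF G := by
    refine ⟨hGb, fun p hp t => ?_⟩
    rw [hGd]
    fin_cases t
    · exact hf p hp
    · exact hgF p hp
  set T : Set ℕ := {N : ℕ | ∃ α : ℝ, ∃ y ≤ N, δ * N < ‖Cg G hs y α‖} with hT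
  set B : Set ℕ := {m : ℕ | ∃ α : ℝ, δ₀ * m < ‖Cg G hs m α‖} with hB
  set Mj : Set ℕ := {m : ℕ | ∃ α : ℝ, ¬ GdM R m α ∧ δ₀ * m < ‖Cg G hs m α‖} with hMj
  -- partial sums
  have h1 : sE T X ≤ 4 / (δ / 2) * sE B (2 * X) := by
    refine (sE_mono ?_ X).trans (thick B (δ / 2) (by positivity) (by linarith) X)
    rintro N ⟨α, y, hyN, hbig⟩
    have hN0 : 0 < N := by
      rcases Nat.eq_zero_or_pos N with h0 | h0
      · exfalso
        have hy : y = 0 := by omega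
        rw [h0, hy, Cg_zero] at hbig
        simp at hbig
      · exact h0
    obtain ⟨h2, h3⟩ := near G hGb hs δ hδ hδ1 α N y hyN hN0 hbig
    exact ⟨y, h2, hyN, fun m hm1 hm2 => ⟨α, h3 m hm1 hm2⟩⟩
  -- minor and major arcs
  have h2 : sE B (2 * X) ≤ sE (Bad G hs GdM R δ₀) (2 * X) + sE Mj (2 * X) := by
    refine (sE_mono ?_ _).trans (sE_union _ _ _)
    rintro m ⟨α, hα⟩
    by_cases h : GdM R m α
    · exact Or.inl ⟨α, h, hα⟩
    · exact Or.inr ⟨α, h, hα⟩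
  have h3 := hX₁ (2 * X) (by omega) G hCF
  have h4 : sE Mj (2 * X) ≤ ∑ q ∈ range (R + 1), ∑ j ∈ range (R + 1),
      (if 1 ≤ q ∧ IsCoprime (j : ℤ) (q : ℤ) then
        4 / (δ₁ / 2) * sE {N : ℕ | δ₁ / 4 * N < ‖Cg G hs N (j / q)‖} (2 * (2 * X)) else 0) := by
    classical
    set Fj : ℕ × ℕ → Set ℕ := fun t => if 1 ≤ t.1 ∧ IsCoprime (t.2 : ℤ) (t.1 : ℤ) then
      {N : ℕ | ∃ y : ℕ, δ₁ / 2 * N ≤ y ∧ y ≤ N ∧ ∀ m : ℕ, y ≤ m → (m : ℝ) ≤ y + δ₁ / 2 * N →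
        m ∈ {N : ℕ | δ₁ / 4 * N < ‖Cg G hs N (t.2 / t.1)‖}} else ∅ with hFj
    have h5 := sE_cover (range (R + 1) ×ˢ range (R + 1)) Mj Fj (by
      rintro m ⟨α, hα1, hα2⟩
      have hm0 : 0 < m := by
        rcases Nat.eq_zero_or_pos m with h0 | h0
        · exfalso
          rw [h0, Cg_zero] at hα2
          simp at hα2
        · exact h0
      unfold GdM at hα1
      push Not at hα1
      obtain ⟨q, hq1, hqR, A, hA⟩ := hα1
      obtain ⟨q', j, z, hq'1, hq'q, hj, hcop, hAq⟩ := red_frac q hq1 A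
      obtain ⟨y, hyN, hy⟩ := close_rat G hs δ₀ hδ₀0 α R (Nat.cast_nonneg R) m (A / q) hA.le hα2
      rw [hAq, Cg_int] at hy
      refine ⟨(q', j), by
        rw [mem_product, mem_range, mem_range]
        constructor
        · show q' < R + 1
          omega
        · show j < R + 1
          omega, ?_⟩
      rw [hFj]
      show m ∈ (if 1 ≤ q' ∧ IsCoprime (j : ℤ) (q' : ℤ) then
        {N : ℕ | ∃ y : ℕ, δ₁ / 2 * N ≤ y ∧ y ≤ N ∧ ∀ m : ℕ, y ≤ m → (m : ℝ) ≤ y + δ₁ / 2 * N →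
          m ∈ {N : ℕ | δ₁ / 4 * N < ‖Cg G hs N (j / q')‖}} else ∅)
      rw [if_pos ⟨hq'1, hcop⟩]
      obtain ⟨h6, h7⟩ := near G hGb hs δ₁ hδ₁0 hδ₁1 (j / q') m y hyN hm0 hy
      exact ⟨y, h6, hyN, h7⟩) (2 * X)
    rw [sum_product] at h5
    refine h5.trans (sum_le_sum fun q _ => sum_le_sum fun j _ => ?_)
    rw [hFj]
    show sE (if 1 ≤ q ∧ IsCoprime (j : ℤ) (q : ℤ) then
        {N : ℕ | ∃ y : ℕ, δ₁ / 2 * N ≤ y ∧ y ≤ N ∧ ∀ m : ℕ, y ≤ m → (m : ℝ) ≤ y + δ₁ / 2 * N →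
          m ∈ {N : ℕ | δ₁ / 4 * N < ‖Cg G hs N (j / q)‖}} else ∅) (2 * X) ≤ _
    split_ifs with h6
    · exact thick _ (δ₁ / 2) (by positivity) (by linarith) (2 * X)
    · unfold sE ind
      simp
  have h5 : ∑ q ∈ range (R + 1), ∑ j ∈ range (R + 1),
      (if 1 ≤ q ∧ IsCoprime (j : ℤ) (q : ℤ) then
        4 / (δ₁ / 2) * sE {N : ℕ | δ₁ / 4 * N < ‖Cg G hs N (j / q)‖} (2 * (2 * X)) else 0) ≤
      η * δ / 32 * (2 * Real.log X) := by
    have e1 : ∀ q ∈ range (R + 1), ∀ j ∈ range (R + 1), (if 1 ≤ q ∧ IsCoprime (j : ℤ) (q : ℤ) then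
        4 / (δ₁ / 2) * sE {N : ℕ | δ₁ / 4 * N < ‖Cg G hs N (j / q)‖} (2 * (2 * X)) else 0) ≤
        4 / (δ₁ / 2) * (η₂ * (4 * Real.log X)) := by
      intro q hq j hj
      split_ifs with h6
      · apply mul_le_mul_of_nonneg_left _ (by positivity)
        have h7 : X₂ q j ≤ ∑ q ∈ range (R + 1), ∑ j ∈ range (R + 1), X₂ q j :=
          (single_le_sum (f := fun j => X₂ q j) (fun _ _ => Nat.zero_le _) hj).trans
            (single_le_sum (f := fun q => ∑ j ∈ range (R + 1), X₂ q j) (fun _ _ => Nat.zero_le _) hq)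
        refine (hX₂ q j (2 * (2 * X)) (by omega) g hg hgF h6.1 h6.2).trans ?_
        apply mul_le_mul_of_nonneg_left _ hη₂0.le
        linarith
      · positivity
    refine (sum_le_sum fun q hq => sum_le_sum fun j hj => e1 q hq j hj).trans (le_of_eq ?_)
    rw [sum_const, sum_const, card_range, nsmul_eq_mul, nsmul_eq_mul, hη₂]
    push_cast
    field_simp
    ring
  have h6 : sE B (2 * X) ≤ η * δ / 8 * Real.log X := by
    have e1 : η * δ / 32 * Real.log ((2 * X : ℕ) : ℝ) ≤ η * δ / 32 * (2 * Real.log X) :=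
      mul_le_mul_of_nonneg_left hlX (by positivity)
    have e2 : η * δ / 32 * (2 * Real.log X) + η * δ / 32 * (2 * Real.log X) = η * δ / 8 * Real.log X := by ring
    linarith [h4.trans h5]
  calc sE T X ≤ 4 / (δ / 2) * sE B (2 * X) := h1
    _ ≤ 4 / (δ / 2) * (η * δ / 8 * Real.log X) := mul_le_mul_of_nonneg_left h6 (by positivity)
    _ = η * Real.log X := by field_simp; ring

end Pool.Agent.Y842.PG
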