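import Pool.Agent.Y842.PG.Net

/-!
Library Y842.PG (helper842), part 5: bilinear sums for products of several shifted functions
(repeated use of the Cauchy-Schwarz inequality).
-/

set_option autoImplicit false

open Finset Filter Topology

namespace Pool.Agent.Y842.PG

open Pool.Agent.Y842.PH
open Pool.Agent.Helper602.MK (ee)
open Pool.Agent.Helper602.MK.N_J1c (c_ee_add c_ee_int c_norm_ee)
open Pool.Agent.TH112.BL (QD)

lemma shz (N : ℕ) (s : ℤ) (u : ℤ → ℂ) (B : ℝ) (hu : ∀ z, ‖u z‖ ≤ B) :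
    ‖∑ m ∈ range N, u (m + s) - ∑ m ∈ range N, u m‖ ≤ 2 * |(s : ℝ)| * B := by
  rcases Int.eq_nat_or_neg s with ⟨n, rfl | rfl⟩
  · have h1 := shf N n (fun x => u x) B (fun x => hu _)
    have h2 : |(((n : ℤ)) : ℝ)| = n := by
      rw [Int.cast_natCast, Nat.abs_cast]
    rw [h2]
    refine le_trans (le_of_eq ?_) h1
    congr 1
  · have h1 := shf N n (fun x => u (x - n)) B (fun x => hu _)
    have h2 : |((-(n : ℤ) : ℤ) : ℝ)| = n := by
      rw [Int.cast_neg, Int.cast_natCast, abs_neg, Nat.abs_cast]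
    rw [h2, norm_sub_rev]
    refine le_trans (le_of_eq ?_) h1
    congr 2
    refine sum_congr rfl fun m _ => ?_
    congr 1
    push_cast
    ring

/-- separation of the iterated differences of the frequencies -/
def Sp (N i : ℕ) : ℕ → Finset ℕ → (ℕ → ℝ) → Prop
  | 0, P, θ => ∀ p ∈ P, ‖∑ m ∈ range N, ee (θ p * m)‖ * 2 ^ i ≤ N
  | r + 1, P, θ => ∀ g : ℕ, 1 ≤ g → Sp N i r (P.filter (fun p => p + g ∈ P)) (fun p => θ p - θ (p + g))

/-- constants -/
noncomputable def cc (i : ℕ) : ℕ → ℝ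
  | 0 => 1
  | r + 1 => Real.sqrt (2 ^ i * (1 + 2 * cc i r)) + 1

lemma cc_nonneg (i r : ℕ) : 0 ≤ cc i r := by
  cases r with
  | zero => unfold cc; norm_num
  | succ r =>
    unfold cc
    have := Real.sqrt_nonneg (2 ^ i * (1 + 2 * cc i r))
    linarith

theorem bilr (N i : ℕ) : ∀ (r κ : ℕ) (P : Finset ℕ), P ⊆ Ioc (2 ^ i) (2 ^ (i + 1)) → ∀ θ : ℕ → ℝ,
    Sp N i r P θ → ∀ F : Fin r → ℤ → ℂ, (∀ t z, ‖F t z‖ ≤ 1) → ∀ k : Fin r → ℤ, (∀ t, |k t| ≤ κ) →
    2 ^ i * (4 * 2 ^ i * (2 ^ r * κ)) ≤ N →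
    ∑ p ∈ P, ‖∑ m ∈ range N, (∏ t, F t (m + p * k t)) * ee (θ p * m)‖ ≤ cc i r * N := by
  intro r
  induction r with
  | zero =>
    intro κ P hP θ hθ F hF k hk hN
    have hcard : P.card ≤ 2 ^ i := by
      refine (card_le_card hP).trans ?_
      rw [Nat.card_Ioc, pow_succ]
      omega
    have h1 : ∀ p ∈ P, ‖∑ m ∈ range N, (∏ t, F t (m + p * k t)) * ee (θ p * m)‖ ≤ N / 2 ^ i := by
      intro p hp
      rw [le_div_iff₀ (by positivity)]
      have := hθ p hp
      simp only [univ_eq_empty, prod_empty, one_mul]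
      exact this
    refine (sum_le_sum h1).trans ?_
    rw [sum_const, nsmul_eq_mul]
    unfold cc
    have h2 : (P.card : ℝ) ≤ 2 ^ i := by exact_mod_cast hcard
    calc (P.card : ℝ) * (N / 2 ^ i) ≤ 2 ^ i * (N / 2 ^ i) := mul_le_mul_of_nonneg_right h2 (by positivity)
      _ = 1 * N := by field_simp
  | succ r ih =>
    intro κ P hP θ hθ F hF k hk hN
    have hcard : P.card ≤ 2 ^ i := by
      refine (card_le_card hP).trans ?_
      rw [Nat.card_Ioc, pow_succ]
      omega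
    have hcardr : (P.card : ℝ) ≤ 2 ^ i := by exact_mod_cast hcard
    set k' : Fin r → ℤ := fun t => k t.succ - k 0 with hk'
    have hk'2 : ∀ t, |k' t| ≤ ((2 * κ : ℕ) : ℤ) := by
      intro t
      have h1 := hk t.succ
      have h2 := hk 0
      rw [hk']
      show |k t.succ - k 0| ≤ _
      have := abs_sub (k t.succ) (k 0)
      push_cast
      linarith
    set b : ℕ → ℕ → ℂ := fun p m => (∏ t : Fin r, F t.succ (m + p * k' t)) * ee (θ p * m) with hb
    have hb1 : ∀ p m, ‖b p m‖ ≤ 1 := by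
      intro p m
      rw [hb]
      show ‖(∏ t : Fin r, F t.succ (m + p * k' t)) * ee (θ p * m)‖ ≤ 1
      rw [norm_mul, c_norm_ee, mul_one]
      exact prod_norm_le _ _ (fun t => hF _ _)
    -- shifting
    have h1 : ∀ p ∈ P, ‖∑ m ∈ range N, (∏ t, F t (m + p * k t)) * ee (θ p * m)‖ ≤
        ‖∑ m ∈ range N, F 0 m * b p m‖ + 4 * 2 ^ i * κ := by
      intro p hp
      set u : ℤ → ℂ := fun z => F 0 z * ((∏ t : Fin r, F t.succ (z + p * k' t)) * ee (θ p * ((z - p * k 0 : ℤ) : ℝ)))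
        with hu
      have hu1 : ∀ z, ‖u z‖ ≤ 1 := by
        intro z
        rw [hu]
        show ‖F 0 z * ((∏ t : Fin r, F t.succ (z + p * k' t)) * ee (θ p * ((z - p * k 0 : ℤ) : ℝ)))‖ ≤ 1
        rw [norm_mul, norm_mul, c_norm_ee, mul_one]
        exact mul_le_one₀ (hF _ _) (norm_nonneg _) (prod_norm_le _ _ (fun t => hF _ _))
      have h2 := shz N (p * k 0) u 1 hu1
      have h3 : ∑ m ∈ range N, (∏ t, F t (m + p * k t)) * ee (θ p * m) = ∑ m ∈ range N, u (m + p * k 0) := by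
        refine sum_congr rfl fun m _ => ?_
        rw [hu, Fin.prod_univ_succ]
        show _ = F 0 (m + p * k 0) * ((∏ t : Fin r, F t.succ (m + p * k 0 + p * k' t)) *
          ee (θ p * (((m : ℤ) + p * k 0 - p * k 0 : ℤ) : ℝ)))
        have e1 : (((m : ℤ) + p * k 0 - p * k 0 : ℤ) : ℝ) = m := by
          push_cast
          ring
        rw [e1, mul_assoc]
        congr 2
        refine prod_congr rfl fun t _ => ?_
        congr 1
        rw [hk']
        show (m : ℤ) + p * k t.succ = m + p * k 0 + p * (k t.succ - k 0)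
        ring
      have h4 : ‖∑ m ∈ range N, u m‖ = ‖∑ m ∈ range N, F 0 m * b p m‖ := by
        have e1 : ∑ m ∈ range N, u m = ee (-(θ p * ((p * k 0 : ℤ) : ℝ))) * ∑ m ∈ range N, F 0 m * b p m := by
          rw [mul_sum]
          refine sum_congr rfl fun m _ => ?_
          rw [hu, hb]
          show F 0 m * ((∏ t : Fin r, F t.succ (m + p * k' t)) * ee (θ p * (((m : ℤ) - p * k 0 : ℤ) : ℝ))) =
            ee (-(θ p * ((p * k 0 : ℤ) : ℝ))) * (F 0 m * ((∏ t : Fin r, F t.succ (m + p * k' t)) * ee (θ p * m)))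
          have e2 : ee (θ p * (((m : ℤ) - p * k 0 : ℤ) : ℝ)) = ee (-(θ p * ((p * k 0 : ℤ) : ℝ))) * ee (θ p * m) := by
            rw [← c_ee_add]
            congr 1
            push_cast
            ring
          rw [e2]
          ring
        rw [e1, norm_mul, c_norm_ee, one_mul]
      rw [h3, ← h4]
      have h5 := norm_sub_norm_le (∑ m ∈ range N, u (m + p * k 0)) (∑ m ∈ range N, u m)
      have h6 : 2 * |((p * k 0 : ℤ) : ℝ)| * 1 ≤ 4 * 2 ^ i * κ := by
        have h7 := (mem_Ioc.1 (hP hp)).2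
        have h8 : (p : ℝ) ≤ 2 * 2 ^ i := by
          have : (p : ℝ) ≤ 2 ^ (i + 1) := by exact_mod_cast h7
          rw [pow_succ] at this
          linarith
        have h9 : |((k 0 : ℤ) : ℝ)| ≤ κ := by
          rw [← Int.cast_abs]
          exact_mod_cast hk 0
        push_cast
        rw [abs_mul, Nat.abs_cast, mul_one]
        calc 2 * ((p : ℝ) * |((k 0 : ℤ) : ℝ)|) ≤ 2 * ((2 * 2 ^ i) * κ) := by gcongr
          _ = 4 * 2 ^ i * κ := by ring
      linarith
    -- Cauchy-Schwarz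
    set V : ℝ := ∑ p ∈ P, ‖∑ m ∈ range N, F 0 m * b p m‖ with hV
    have hV2 : V ^ 2 ≤ N * (2 ^ i * N + 2 * (2 ^ i * (cc i r * N))) := by
      have h2 := cs N P (fun _ => 1) (fun _ _ => zero_le_one) (fun m => F 0 m) (fun m => hF 0 m) b
      simp only [one_mul] at h2
      refine h2.trans ?_
      apply mul_le_mul_of_nonneg_left _ (Nat.cast_nonneg N)
      set φ : ℕ → ℕ → ℝ := fun p p' => ‖∑ m ∈ range N, b p m * (starRingEnd ℂ) (b p' m)‖ with hφ
      have hsym : ∀ p p', φ p p' = φ p' p := by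
        intro p p'
        rw [hφ]
        show ‖∑ m ∈ range N, b p m * (starRingEnd ℂ) (b p' m)‖ = ‖∑ m ∈ range N, b p' m * (starRingEnd ℂ) (b p m)‖
        rw [← RCLike.norm_conj, map_sum]
        congr 1
        refine sum_congr rfl fun m _ => ?_
        simp only [map_mul, Complex.conj_conj]
        ring
      have hG : ∀ p ∈ P, ∀ p' ∈ P, p' ≤ p + 2 ^ i := by
        intro p hp p' hp'
        have h3 := mem_Ioc.1 (hP hp)
        have h4 := mem_Ioc.1 (hP hp')
        have h5 := pow_succ 2 i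
        omega
      show ∑ p ∈ P, ∑ p' ∈ P, φ p p' ≤ _
      rw [pairs P (2 ^ i) hG φ hsym]
      have h3 : ∑ p ∈ P, φ p p ≤ 2 ^ i * N := by
        have e3 : ∀ p ∈ P, φ p p ≤ N := by
          intro p _
          refine (norm_sum_le _ _).trans ?_
          refine (sum_le_sum (g := fun _ => (1 : ℝ)) fun m _ => ?_).trans (by simp)
          rw [norm_mul, RCLike.norm_conj]
          exact mul_le_one₀ (hb1 p m) (norm_nonneg _) (hb1 p m)
        have e4 := sum_le_sum e3
        rw [sum_const, nsmul_eq_mul] at e4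
        refine e4.trans ?_
        exact mul_le_mul_of_nonneg_right hcardr (Nat.cast_nonneg N)
      have h4 : ∀ g ∈ Icc 1 (2 ^ i), ∑ p ∈ P.filter (fun p => p + g ∈ P), φ p (p + g) ≤ cc i r * N := by
        intro g hg
        rw [mem_Icc] at hg
        have h5 := ih (2 * κ) (P.filter (fun p => p + g ∈ P)) ((filter_subset _ _).trans hP)
          (fun p => θ p - θ (p + g)) (hθ g hg.1)
          (fun t z => F t.succ z * (starRingEnd ℂ) (F t.succ (z + g * k' t))) (fun t z => by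
            rw [norm_mul, RCLike.norm_conj]
            exact mul_le_one₀ (hF _ _) (norm_nonneg _) (hF _ _)) k' hk'2 (by
            refine le_trans (le_of_eq ?_) hN
            rw [pow_succ 2 r]
            ring)
        refine le_trans (le_of_eq ?_) h5
        refine sum_congr rfl fun p _ => ?_
        rw [hφ, hb]
        show ‖∑ m ∈ range N, (∏ t : Fin r, F t.succ (m + p * k' t)) * ee (θ p * m) *
          (starRingEnd ℂ) ((∏ t : Fin r, F t.succ (m + ((p + g : ℕ) : ℤ) * k' t)) * ee (θ (p + g) * m))‖ = _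
        congr 1
        refine sum_congr rfl fun m _ => ?_
        rw [map_mul, conj_ee, map_prod, prod_mul_distrib]
        have e1 : ee ((θ p - θ (p + g)) * m) = ee (θ p * m) * ee (-(θ (p + g) * m)) := by
          rw [← c_ee_add]
          congr 1
          ring
        have e2 : ∏ t : Fin r, (starRingEnd ℂ) (F t.succ (m + ((p + g : ℕ) : ℤ) * k' t)) =
            ∏ t : Fin r, (starRingEnd ℂ) (F t.succ (m + p * k' t + g * k' t)) := by
          refine prod_congr rfl fun t _ => ?_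
          congr 2
          push_cast
          ring
        rw [e1, e2]
        ring
      have h5 := sum_le_sum h4
      rw [sum_const, Nat.card_Icc, nsmul_eq_mul] at h5
      have h6 : ((2 ^ i + 1 - 1 : ℕ) : ℝ) = 2 ^ i := by
        rw [Nat.add_sub_cancel]
        push_cast
        rfl
      rw [h6] at h5
      linarith
    have hc0 := cc_nonneg i r
    have hV3 : V ≤ Real.sqrt (2 ^ i * (1 + 2 * cc i r)) * N := by
      apply abs_le_of_sq_le_sq' _ (by positivity) |>.2
      rw [mul_pow, Real.sq_sqrt (by positivity)]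
      refine hV2.trans (le_of_eq ?_)
      ring
    have h2 := sum_le_sum h1
    rw [sum_add_distrib, sum_const, nsmul_eq_mul] at h2
    have h3 : (P.card : ℝ) * (4 * 2 ^ i * κ) ≤ N := by
      have h4 : (2 ^ i : ℕ) * (4 * 2 ^ i * κ) ≤ N := by
        refine le_trans ?_ hN
        apply Nat.mul_le_mul_left
        apply Nat.mul_le_mul_left
        exact Nat.le_mul_of_pos_left _ (by positivity)
      calc (P.card : ℝ) * (4 * 2 ^ i * κ) ≤ 2 ^ i * (4 * 2 ^ i * κ) :=
            mul_le_mul_of_nonneg_right hcardr (by positivity)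
        _ ≤ N := by exact_mod_cast h4
    unfold cc
    linarith

/-- the constants are small -/
lemma cc_lim (r : ℕ) : ∀ (B : ℕ) (ε : ℝ), 0 < ε → ∃ I : ℕ, ∀ i : ℕ, I ≤ i → ((i : ℝ) + 1) ^ B * cc i r ≤ ε * 2 ^ i := by
  have base : ∀ (B : ℕ) (ε : ℝ), 0 < ε → ∃ I : ℕ, ∀ i : ℕ, I ≤ i → ((i : ℝ) + 1) ^ B ≤ ε * 2 ^ i := by
    intro B ε hε
    have l1 := (tendsto_pow_const_div_const_pow_of_one_lt B (show (1 : ℝ) < 2 by norm_num)).const_mul (2 ^ B : ℝ)
    rw [mul_zero] at l1
    obtain ⟨I, hI⟩ := eventually_atTop.1 ((l1.eventually_lt_const hε).and (eventually_ge_atTop 1))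
    refine ⟨I, fun i hi => ?_⟩
    obtain ⟨h1, h2⟩ := hI i hi
    have h3 : (0 : ℝ) < 2 ^ i := by positivity
    have h4 : (1 : ℝ) ≤ i := by exact_mod_cast h2
    have h5 : ((i : ℝ) + 1) ^ B ≤ (2 * i) ^ B := pow_le_pow_left₀ (by positivity) (by linarith) B
    rw [mul_pow] at h5
    rw [← mul_div_assoc, div_lt_iff₀ h3] at h1
    linarith
  induction r with
  | zero =>
    intro B ε hε
    obtain ⟨I, hI⟩ := base B ε hε
    refine ⟨I, fun i hi => ?_⟩
    unfold cc
    rw [mul_one]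
    exact hI i hi
  | succ r ih =>
    intro B ε hε
    obtain ⟨I₁, h1⟩ := ih (2 * B) (ε ^ 2 / 16) (by positivity)
    obtain ⟨I₂, h2⟩ := base (2 * B) (ε ^ 2 / 8) (by positivity)
    obtain ⟨I₃, h3⟩ := base B (ε / 2) (by positivity)
    refine ⟨I₁ + I₂ + I₃, fun i hi => ?_⟩
    have a1 := h1 i (by omega)
    have a2 := h2 i (by omega)
    have a3 := h3 i (by omega)
    unfold cc
    have hc := cc_nonneg i r
    set s : ℝ := Real.sqrt (2 ^ i * (1 + 2 * cc i r)) with hs
    have h4 : ((i : ℝ) + 1) ^ B * s ≤ ε / 2 * 2 ^ i := by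
      apply abs_le_of_sq_le_sq' _ (by positivity) |>.2
      rw [mul_pow, hs, Real.sq_sqrt (by positivity), ← pow_mul, mul_comm B 2]
      have e1 : ((i : ℝ) + 1) ^ (2 * B) * (2 ^ i * (1 + 2 * cc i r)) =
          2 ^ i * (((i : ℝ) + 1) ^ (2 * B) + 2 * (((i : ℝ) + 1) ^ (2 * B) * cc i r)) := by ring
      have e2 : (ε / 2 * 2 ^ i) ^ 2 = 2 ^ i * (ε ^ 2 / 4 * 2 ^ i) := by ring
      rw [e1, e2]
      apply mul_le_mul_of_nonneg_left _ (by positivity)
      linarith
    linarith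

/-- the bilinear estimate with weights -/
theorem bilpr {r : ℕ} (G : Fin r → ℕ → ℂ) (hG : ∀ t n, ‖G t n‖ ≤ 1) (h : ℕ) (hs : Fin r → ℕ)
    (hhs : ∀ t, hs t ≤ h) (i N : ℕ) (P : Finset ℕ) (hP : P ⊆ QD i (i + 1)) (θ : ℕ → ℝ) (hθ : Sp N i r P θ)
    (hN : 2 ^ i * (4 * 2 ^ i * (2 ^ r * h)) ≤ N) (e : ℝ) (he : ((i : ℝ) + 1) * cc i r ≤ e * 2 ^ i) :
    ∑ p ∈ P, Real.log p / 2 ^ i * ‖∑ m ∈ range N, pr G hs p m * ee (θ p * m)‖ ≤ e * N := by
  have h1 := bilr N i r h P (by
    intro p hp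
    have := QD_mem (hP hp)
    rw [mem_Ioc]
    exact ⟨this.2.1, this.2.2⟩) θ hθ (fun t z => G t z.toNat) (fun t z => hG _ _) (fun t => (hs t : ℤ)) (by
      intro t
      rw [Nat.abs_cast]
      exact_mod_cast hhs t) hN
  have h2 : ∀ p : ℕ, ∑ m ∈ range N, (∏ t, G t ((m : ℤ) + p * (hs t : ℤ)).toNat) * ee (θ p * m) =
      ∑ m ∈ range N, pr G hs p m * ee (θ p * m) := by
    intro p
    refine sum_congr rfl fun m _ => ?_
    unfold pr
    congr 1
  simp only [h2] at h1
  have h3 : ∀ p ∈ P, Real.log p / 2 ^ i * ‖∑ m ∈ range N, pr G hs p m * ee (θ p * m)‖ ≤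
      ((i : ℝ) + 1) / 2 ^ i * ‖∑ m ∈ range N, pr G hs p m * ee (θ p * m)‖ := by
    intro p hp
    apply mul_le_mul_of_nonneg_right _ (norm_nonneg _)
    refine (w_le i p (hP hp)).trans ?_
    apply div_le_div_of_nonneg_right _ (by positivity)
    have := Real.log_two_lt_d9
    have h4 : (0 : ℝ) ≤ i := Nat.cast_nonneg i
    nlinarith
  refine (sum_le_sum h3).trans ?_
  rw [← mul_sum]
  calc ((i : ℝ) + 1) / 2 ^ i * ∑ p ∈ P, ‖∑ m ∈ range N, pr G hs p m * ee (θ p * m)‖ ≤
      ((i : ℝ) + 1) / 2 ^ i * (cc i r * N) := mul_le_mul_of_nonneg_left h1 (by positivity)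
    _ = (((i : ℝ) + 1) * cc i r) / 2 ^ i * N := by ring
    _ ≤ e * N := by
      apply mul_le_mul_of_nonneg_right _ (Nat.cast_nonneg N)
      rw [div_le_iff₀ (by positivity)]
      exact he

end Pool.Agent.Y842.PG
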