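import Pool.Agent.Y842.PG.Chain
import Pool.Agent.Y842.PH.Main
import Pool.Agent.Y304.U.Pw
import Pool.Agent.Y304.U.Avc

/-!
Library Y842.PG (helper842), part 7: from chains of scales to almost all scales, with explicit
thresholds (uniformly in the functions).
-/

set_option autoImplicit false

open Finset Filter Topology

namespace Pool.Agent.Y842.PG

open Pool.Agent.Y842.PH
open Pool.Agent.Helper602.MK (ee)
open Pool.Agent.TH112.BL (QD)
open Pool.Agent.Y958.U (QQ)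
open Pool.Agent.Y958.TC (sum_inv_large)
open Pool.Agent.Y304.U (sE ind ind_nonneg ind_le FF FF_nonneg FF_le FF_low low harm pw sE_nonneg)

/-- the averaging lemma, finite form -/
lemma avf : ∃ I₀ : ℕ, 1 ≤ I₀ ∧ ∀ i₀ i₁ : ℕ, I₀ ≤ i₀ → i₀ < i₁ → ∀ δ : ℝ, 0 < δ → ∀ M₀ : ℕ, ∃ X₀ : ℕ,
    ∀ X : ℕ, X₀ ≤ X → ∀ E : Set ℕ, δ * Real.log X ≤ sE E X →
      ∃ M : ℕ, M₀ ≤ M ∧ M ≤ X ∧ δ / 16 * ∑ i ∈ Ico i₀ i₁, (1 : ℝ) / i ≤ FF E i₀ i₁ M := by
  obtain ⟨I₀, hI1, hI⟩ := low pw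
  refine ⟨I₀, hI1, fun i₀ i₁ h0 h01 δ hδ M₀ => ?_⟩
  obtain ⟨L, hL⟩ := exists_nat_ge ((2 * 2 ^ i₁ + 1 + 24 * (1 + Real.log M₀) + δ) * (4 / δ))
  obtain ⟨X₁, hX₁⟩ := exists_nat_ge (Real.exp L)
  refine ⟨X₁ + 2 ^ i₁ + M₀ + 1, fun X hX E hE => ?_⟩
  have h2i : 0 < 2 ^ i₁ := by positivity
  by_contra hcon
  push Not at hcon
  set S := ∑ i ∈ Ico i₀ i₁, (1 : ℝ) / i with hS
  have hS0 : 0 < S := by
    apply sum_pos
    · intro i hi
      rw [mem_Ico] at hi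
      have : (0 : ℝ) < i := by exact_mod_cast (by omega : 0 < i)
      positivity
    · exact ⟨i₀, mem_Ico.2 ⟨le_rfl, h01⟩⟩
  have h1 := FF_low E hI h0 (i₁ := i₁) (X := X) (by omega)
  have hX0 : (0 : ℝ) < X := by exact_mod_cast (by omega : 0 < X)
  have hlogL : (L : ℝ) ≤ Real.log X := by
    rw [Real.le_log_iff_exp_le hX0]
    refine hX₁.trans ?_
    exact_mod_cast (by omega : X₁ ≤ X)
  have h2 : ∑ M ∈ Icc 1 X, FF E i₀ i₁ M / M ≤ 3 * S * (1 + Real.log M₀) + δ / 16 * S * (1 + Real.log X) := by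
    have e1 : ∀ M ∈ Icc 1 X, FF E i₀ i₁ M / M ≤ (if M ≤ M₀ then 3 * S * (1 / (M : ℝ)) else 0) +
        δ / 16 * S * (1 / M) := by
      intro M hM
      rw [mem_Icc] at hM
      have hM0 : (0 : ℝ) < M := by exact_mod_cast (by omega : 0 < M)
      rw [div_eq_mul_one_div]
      split_ifs with h
      · have := FF_le E i₀ i₁ M
        have e2 : 0 ≤ δ / 16 * S * (1 / (M : ℝ)) := by positivity
        have e3 : FF E i₀ i₁ M * (1 / (M : ℝ)) ≤ 3 * S * (1 / (M : ℝ)) :=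
          mul_le_mul_of_nonneg_right this (by positivity)
        linarith
      · rw [zero_add]
        apply mul_le_mul_of_nonneg_right _ (by positivity)
        exact (hcon M (by omega) hM.2).le
    refine (sum_le_sum e1).trans ?_
    rw [sum_add_distrib, ← mul_sum]
    apply add_le_add
    · rw [← sum_filter, ← mul_sum]
      apply mul_le_mul_of_nonneg_left _ (by positivity)
      refine le_trans ?_ (harm M₀)
      apply sum_le_sum_of_subset_of_nonneg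
      · intro M hM
        rw [mem_filter, mem_Icc] at hM
        rw [mem_Icc]
        exact ⟨hM.1.1, hM.2⟩
      · intro M _ _
        positivity
    · exact mul_le_mul_of_nonneg_left (harm X) (by positivity)
  have h3 := h1.trans h2
  have h4 : 1 / 8 * (sE E X - 2 * 2 ^ i₁ - 1) ≤ 3 * (1 + Real.log M₀) + δ / 16 * (1 + Real.log X) := by
    have e1 : 1 / 8 * S * (sE E X - 2 * 2 ^ i₁ - 1) = S * (1 / 8 * (sE E X - 2 * 2 ^ i₁ - 1)) := by ring
    have e2 : 3 * S * (1 + Real.log M₀) + δ / 16 * S * (1 + Real.log X) =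
        S * (3 * (1 + Real.log M₀) + δ / 16 * (1 + Real.log X)) := by ring
    rw [e1, e2] at h3
    exact le_of_mul_le_mul_left h3 hS0
  have h5 : (2 * 2 ^ i₁ + 1 + 24 * (1 + Real.log M₀) + δ) ≤ δ / 4 * Real.log X := by
    have e1 := hL.trans hlogL
    have e2 : (2 * 2 ^ i₁ + 1 + 24 * (1 + Real.log M₀) + δ) * (4 / δ) * (δ / 4) ≤ Real.log X * (δ / 4) :=
      mul_le_mul_of_nonneg_right e1 (by positivity)
    have e3 : (2 * 2 ^ i₁ + 1 + 24 * (1 + Real.log M₀) + δ) * (4 / δ) * (δ / 4) =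
        2 * 2 ^ i₁ + 1 + 24 * (1 + Real.log M₀) + δ := by
      field_simp
    rw [e3] at e2
    linarith
  have h6 : 0 < δ * Real.log X := by
    have e1 : 0 ≤ Real.log M₀ := Real.log_natCast_nonneg _
    have e2 : (0 : ℝ) < 2 ^ i₁ := by positivity
    have e3 : 0 < δ / 4 * Real.log X := lt_of_lt_of_le (by positivity) h5
    linarith
  nlinarith

/-- large correlations persist in a cell -/
lemma cell_bigg {r : ℕ} (G : Fin r → ℕ → ℂ) (hG : ∀ t n, ‖G t n‖ ≤ 1) (hs : Fin r → ℕ) (δ : ℝ) (hδ : 0 < δ)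
    (hδ1 : δ ≤ 1) (J : ℕ)
    (hJ : 8 / δ ≤ J) (i p p₀ M : ℕ) (hp : 2 ^ i < p) (hp₀ : 2 ^ i < p₀)
    (hc : J * (p - 2 ^ i - 1) / 2 ^ i = J * (p₀ - 2 ^ i - 1) / 2 ^ i) (hM : 8 / δ * p ≤ M) (α : ℝ)
    (hbig : δ * ((M / p₀ : ℕ) : ℝ) < ‖Cg G hs (M / p₀) α‖) : δ / 2 ≤ p * ‖Cg G hs (M / p) α‖ / M := by
  have h1 := cell J i p p₀ hp hp₀ hc
  have hpn : 0 < p := lt_of_le_of_lt (Nat.zero_le _) hp
  have hp₀n : 0 < p₀ := lt_of_le_of_lt (Nat.zero_le _) hp₀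
  have hp0 : (0 : ℝ) < p := by exact_mod_cast hpn
  have hp₀0 : (0 : ℝ) < p₀ := by exact_mod_cast hp₀n
  have hJ0 : (0 : ℝ) < J := lt_of_lt_of_le (by positivity) hJ
  have hM0 : (0 : ℝ) < M := lt_of_lt_of_le (by positivity) hM
  have h2 : |(M : ℝ) / p - M / p₀| ≤ M / p / J := by
    have e1 : (M : ℝ) / p - M / p₀ = (M / p) * ((p₀ - p) / p₀) := by field_simp
    rw [e1, abs_mul, abs_of_pos (by positivity : (0 : ℝ) < M / p), abs_div, abs_of_pos hp₀0]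
    rw [div_eq_mul_one_div (M / p : ℝ) (J : ℝ)]
    apply mul_le_mul_of_nonneg_left _ (by positivity)
    rw [div_le_div_iff₀ hp₀0 hJ0, one_mul, abs_sub_comm, mul_comm]
    refine h1.trans ?_
    have : (2 : ℝ) ^ i ≤ p₀ := by exact_mod_cast hp₀.le
    exact this
  have h3 : |((M / p : ℕ) : ℝ) - ((M / p₀ : ℕ) : ℝ)| ≤ M / p / J + 1 := by
    have e1 : ((M / p : ℕ) : ℝ) ≤ M / p := Nat.cast_div_le
    have e2 : ((M / p₀ : ℕ) : ℝ) ≤ M / p₀ := Nat.cast_div_le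
    have e3 : (M : ℝ) / p < ((M / p : ℕ) : ℝ) + 1 := by
      rw [div_lt_iff₀ hp0]
      have := Nat.lt_mul_div_succ M hpn
      have h4 : (M : ℝ) < p * (((M / p : ℕ) : ℝ) + 1) := by exact_mod_cast this
      linarith
    have e4 : (M : ℝ) / p₀ < ((M / p₀ : ℕ) : ℝ) + 1 := by
      rw [div_lt_iff₀ hp₀0]
      have := Nat.lt_mul_div_succ M hp₀n
      have h4 : (M : ℝ) < p₀ * (((M / p₀ : ℕ) : ℝ) + 1) := by exact_mod_cast this
      linarith
    have e5 := abs_le.1 h2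
    rw [abs_le]
    constructor <;> linarith [e5.1, e5.2]
  have h4 : ‖Cg G hs (M / p₀) α‖ - |((M / p : ℕ) : ℝ) - ((M / p₀ : ℕ) : ℝ)| ≤ ‖Cg G hs (M / p) α‖ := by
    rcases Nat.le_total (M / p) (M / p₀) with hle | hle
    · have e1 := Cg_sub G hG hs (M / p) (M / p₀) hle α
      have e2 := norm_sub_norm_le (Cg G hs (M / p₀) α) (Cg G hs (M / p) α)
      have e3 : ((M / p : ℕ) : ℝ) ≤ ((M / p₀ : ℕ) : ℝ) := by exact_mod_cast hle
      rw [abs_of_nonpos (by linarith)]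
      linarith
    · have e1 := Cg_sub G hG hs (M / p₀) (M / p) hle α
      have e2 := norm_sub_norm_le (Cg G hs (M / p₀) α) (Cg G hs (M / p) α)
      rw [norm_sub_rev] at e2
      have e3 : ((M / p₀ : ℕ) : ℝ) ≤ ((M / p : ℕ) : ℝ) := by exact_mod_cast hle
      rw [abs_of_nonneg (by linarith)]
      linarith
  have e4 : (M : ℝ) / p₀ < ((M / p₀ : ℕ) : ℝ) + 1 := by
    rw [div_lt_iff₀ hp₀0]
    have := Nat.lt_mul_div_succ M hp₀n
    have h4 : (M : ℝ) < p₀ * (((M / p₀ : ℕ) : ℝ) + 1) := by exact_mod_cast this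
    linarith
  set x : ℝ := M / p with hx
  have hx8 : 8 / δ ≤ x := by
    rw [hx, le_div_iff₀ hp0]
    exact hM
  have hxJ : x / J ≤ x * (δ / 8) := by
    rw [div_eq_mul_one_div]
    apply mul_le_mul_of_nonneg_left _ (by positivity)
    rw [div_le_iff₀ hδ] at hJ
    rw [div_le_div_iff₀ hJ0 (by norm_num)]
    linarith
  have hx8' : 8 ≤ x * δ := by
    rw [div_le_iff₀ hδ] at hx8
    exact hx8
  have e5 := (abs_le.1 h2).2
  have e6 : δ * ((M / p₀ : ℕ) : ℝ) ≥ δ * (x - x / J - 1) := by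
    apply mul_le_mul_of_nonneg_left _ hδ.le
    linarith
  have hxJ0 : 0 ≤ x / J := by positivity
  have e7 : δ * (x / J) ≤ x / J := by nlinarith
  have h5 : δ / 2 * x ≤ ‖Cg G hs (M / p) α‖ := by
    have e8 : δ * (x - x / J - 1) = δ * x - δ * (x / J) - δ := by ring
    nlinarith
  rw [le_div_iff₀ hM0]
  calc δ / 2 * M = p * (δ / 2 * x) := by
        rw [hx]
        field_simp
    _ ≤ p * ‖Cg G hs (M / p) α‖ := mul_le_mul_of_nonneg_left h5 hp0.le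

/-- the bad scales -/
def Bad {r : ℕ} (G : Fin r → ℕ → ℂ) (hs : Fin r → ℕ) (Gd : ℕ → ℕ → ℝ → Prop) (R : ℕ) (δ : ℝ) : Set ℕ :=
  {N : ℕ | ∃ α : ℝ, Gd R N α ∧ δ * N < ‖Cg G hs N α‖}

open Classical in
/-- **from chains to almost all scales** -/
theorem cells {r : ℕ} (hs : Fin r → ℕ) (𝒞 : (Fin r → ℕ → ℂ) → Prop) (hC : ∀ G, 𝒞 G → ∀ t n, ‖G t n‖ ≤ 1)
    (Gd : ℕ → ℕ → ℝ → Prop) (hR : ∀ R R' N α, R ≤ R' → Gd R' N α → Gd R N α)
    (hN : ∀ R N N' α, N ≤ N' → Gd R N α → Gd R N' α)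
    (hch : ∀ ε : ℝ, 0 < ε → ∃ D : ℕ, 1 ≤ D ∧ ∃ Bc : ℝ, 0 ≤ Bc ∧ ∃ b₀ : ℕ, ∀ b, b₀ ≤ b → ∀ n : ℕ, ∃ R M₀ : ℕ,
      ∀ M : ℕ, M₀ ≤ M → ∀ G, 𝒞 G → ∀ (α : ℕ → ℝ) (S : ℕ → Finset ℕ),
        (∀ k, S k ⊆ QD (b + k * D) (b + k * D + 1)) → (∀ k < n, (S k).Nonempty → Gd R M (α k)) →
        ∑ k ∈ range n, 1 / ((b + k * D : ℕ) : ℝ) * ∑ p ∈ S k, Real.log p / 2 ^ (b + k * D) *
          (p * ‖Cg G hs (M / p) (α k)‖ / M) ≤ ε * ∑ k ∈ range n, 1 / ((b + k * D : ℕ) : ℝ) + Bc)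
    (δ : ℝ) (hδ : 0 < δ) (hδ1 : δ ≤ 1) (η : ℝ) (hη : 0 < η) :
    ∃ R X₀ : ℕ, ∀ X : ℕ, X₀ ≤ X → ∀ G, 𝒞 G → sE (Bad G hs Gd R δ) X ≤ η * Real.log X := by
  obtain ⟨I₀, hI₀, hAv⟩ := avf
  set ε' : ℝ := η / 16 with hε'
  have hε'0 : 0 < ε' := by positivity
  obtain ⟨J, hJ⟩ := exists_nat_ge (8 / δ)
  have hJ0 : (0 : ℝ) < J := lt_of_lt_of_le (by positivity) hJ
  have hJ1 : 0 < J := by exact_mod_cast hJ0
  set ε : ℝ := ε' * δ / (8 * J) with hε
  have hε0 : 0 < ε := by positivity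
  obtain ⟨D, hD, Bc, hBc, b₀, hch1⟩ := hch ε hε0
  set i₀ : ℕ := I₀ + b₀ + 1 with hi₀
  obtain ⟨n, hn, hS⟩ := sum_inv_large i₀ (by omega) (8 * (J * D * Bc) / (δ * ε'))
  have hnD : n ≤ i₀ + n * D := by
    have : n * 1 ≤ n * D := Nat.mul_le_mul_left n hD
    omega
  set Z : ℝ := ∑ i ∈ Ico i₀ (i₀ + n * D), (1 : ℝ) / i with hZ
  have hZS : 8 * (J * D * Bc) / (δ * ε') < Z := by
    refine lt_of_lt_of_le hS ?_
    apply sum_le_sum_of_subset_of_nonneg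
    · intro i hi
      rw [mem_Ico] at hi ⊢
      omega
    · intro i _ _
      positivity
  choose Rr M₀ hch2 using fun r : ℕ => hch1 (i₀ + r) (by omega) n
  obtain ⟨R₁, hR₁⟩ := exists_nat_ge (8 / δ)
  obtain ⟨X₀, hX₀⟩ := hAv i₀ (i₀ + n * D) (by omega) (by
    have : 1 * 1 ≤ n * D := Nat.mul_le_mul (by omega) hD
    omega) η hη (∑ r ∈ range D, M₀ r + (1 + R₁) * 2 ^ (i₀ + n * D))
  refine ⟨∑ r ∈ range D, Rr r, X₀, fun X hX G hGC => ?_⟩
  have hG := hC G hGC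
  by_contra hcon
  rw [not_le] at hcon
  set E : Set ℕ := Bad G hs Gd (∑ r ∈ range D, Rr r) δ with hEd
  obtain ⟨M, hM1, -, hM2⟩ := hX₀ X hX E hcon.le
  -- cells
  set SS : ℕ → ℕ → Finset ℕ := fun i j => (QD i (i + 1)).filter
    (fun p => M / p ∈ E ∧ J * (p - 2 ^ i - 1) / 2 ^ i = j) with hSS
  have hex : ∀ i j : ℕ, ∃ α : ℝ, (SS i j).Nonempty → ∃ p₀ ∈ SS i j, Gd (∑ r ∈ range D, Rr r) (M / p₀) α ∧
      δ * ((M / p₀ : ℕ) : ℝ) < ‖Cg G hs (M / p₀) α‖ := by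
    intro i j
    by_cases hne : (SS i j).Nonempty
    · obtain ⟨p₀, hp₀⟩ := hne
      have h1 := hp₀
      rw [hSS] at h1
      simp only [mem_filter] at h1
      obtain ⟨α, hα⟩ := h1.2.1
      exact ⟨α, fun _ => ⟨p₀, hp₀, hα⟩⟩
    · exact ⟨0, fun h1 => (hne h1).elim⟩
  choose aa haa using hex
  have hpM : ∀ i < i₀ + n * D, ∀ p ∈ QD i (i + 1), (1 + R₁) * p ≤ M := by
    intro i hi p hp
    have h1 := (QD_mem hp).2.2
    have h2 : 2 ^ (i + 1) ≤ 2 ^ (i₀ + n * D) := Nat.pow_le_pow_right (by norm_num) (by omega)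
    have h3 : (1 + R₁) * p ≤ (1 + R₁) * 2 ^ (i₀ + n * D) := Nat.mul_le_mul_left _ (h1.trans h2)
    omega
  have hbig : ∀ i < i₀ + n * D, ∀ j, ∀ p ∈ SS i j, δ / 2 ≤ p * ‖Cg G hs (M / p) (aa i j)‖ / M := by
    intro i hi j p hp
    obtain ⟨p₀, hp₀, hα⟩ := haa i j ⟨p, hp⟩
    rw [hSS] at hp hp₀
    simp only [mem_filter] at hp hp₀
    have h1 := QD_mem hp.1
    have h2 := QD_mem hp₀.1
    refine cell_bigg G hG hs δ hδ hδ1 J hJ i p p₀ M h1.2.1 h2.2.1 (hp.2.2.trans hp₀.2.2.symm) ?_ _ hα.2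
    have h3 := hpM i hi p hp.1
    have h4 : ((1 + R₁ : ℕ) : ℝ) * p ≤ M := by exact_mod_cast h3
    refine le_trans ?_ h4
    apply mul_le_mul_of_nonneg_right _ (Nat.cast_nonneg p)
    push_cast
    linarith
  have hA2 : ∀ i, ∀ j, (SS i j).Nonempty → Gd (∑ r ∈ range D, Rr r) M (aa i j) := by
    intro i j hne
    obtain ⟨p₀, hp₀, hα⟩ := haa i j hne
    exact hN _ _ _ _ (Nat.div_le_self M p₀) hα.1
  -- the chains
  have hchain : ∀ r < D, ∀ j, ∑ k ∈ range n, 1 / ((i₀ + r + k * D : ℕ) : ℝ) *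
      ∑ p ∈ SS (i₀ + r + k * D) j, Real.log p / 2 ^ (i₀ + r + k * D) *
        (p * ‖Cg G hs (M / p) (aa (i₀ + r + k * D) j)‖ / M) ≤
      ε * ∑ k ∈ range n, 1 / ((i₀ + r + k * D : ℕ) : ℝ) + Bc := by
    intro r hr j
    have hrD : r ∈ range D := mem_range.2 hr
    have hsing : ∀ g : ℕ → ℕ, g r ≤ ∑ r ∈ range D, g r := fun g =>
      single_le_sum (f := g) (fun _ _ => Nat.zero_le _) hrD
    refine hch2 r M ?_ G hGC (fun k => aa (i₀ + r + k * D) j) (fun k => SS (i₀ + r + k * D) j)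
      (fun k => filter_subset _ _) ?_
    · have := hsing M₀
      omega
    · intro k _ hne
      exact hR _ _ _ _ (hsing Rr) (hA2 _ j hne)
  have htot : ∑ j ∈ range J, ∑ i ∈ Ico i₀ (i₀ + n * D), 1 / (i : ℝ) * ∑ p ∈ SS i j, Real.log p / 2 ^ i *
      (p * ‖Cg G hs (M / p) (aa i j)‖ / M) ≤ J * (ε * Z + D * Bc) := by
    have h1 : ∀ j ∈ range J, ∑ i ∈ Ico i₀ (i₀ + n * D), 1 / (i : ℝ) * ∑ p ∈ SS i j, Real.log p / 2 ^ i *
        (p * ‖Cg G hs (M / p) (aa i j)‖ / M) ≤ ε * Z + D * Bc := by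
      intro j _
      rw [resum (fun i => 1 / (i : ℝ) * ∑ p ∈ SS i j, Real.log p / 2 ^ i *
        (p * ‖Cg G hs (M / p) (aa i j)‖ / M)) i₀ D n, hZ, resum (fun i => 1 / (i : ℝ)) i₀ D n, mul_sum]
      have h2 : (D : ℝ) * Bc = ∑ r ∈ range D, Bc := by rw [sum_const, card_range, nsmul_eq_mul]
      rw [h2, ← sum_add_distrib]
      exact sum_le_sum fun r hr => hchain r (mem_range.1 hr) j
    refine (sum_le_sum h1).trans ?_
    rw [sum_const, card_range, nsmul_eq_mul]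
  have hlow : ε' * Z * (δ / 2) ≤ ∑ j ∈ range J, ∑ i ∈ Ico i₀ (i₀ + n * D), 1 / (i : ℝ) *
      ∑ p ∈ SS i j, Real.log p / 2 ^ i * (p * ‖Cg G hs (M / p) (aa i j)‖ / M) := by
    refine (mul_le_mul_of_nonneg_right hM2 (by positivity : (0 : ℝ) ≤ δ / 2)).trans ?_
    unfold FF
    rw [sum_comm, sum_mul]
    refine sum_le_sum fun i hi => ?_
    rw [mem_Ico] at hi
    rw [← mul_sum, mul_assoc]
    apply mul_le_mul_of_nonneg_left _ (by positivity)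
    have h1 : ∑ p ∈ QQ i, Real.log p / 2 ^ i * ind E (M / p) =
        ∑ j ∈ range J, ∑ p ∈ SS i j, Real.log p / 2 ^ i := by
      have e1 : ∀ j ∈ range J, ∑ p ∈ SS i j, Real.log (p : ℝ) / 2 ^ i =
          ∑ p ∈ (QD i (i + 1)).filter (fun p => M / p ∈ E),
            if J * (p - 2 ^ i - 1) / 2 ^ i = j then Real.log (p : ℝ) / 2 ^ i else 0 := by
        intro j _
        rw [← sum_filter]
        refine sum_congr ?_ (fun _ _ => rfl)
        ext p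
        rw [hSS]
        simp only [mem_filter]
        tauto
      rw [sum_congr rfl e1, sum_comm, sum_filter]
      refine sum_congr rfl fun p hp => ?_
      have hp2 := QD_mem (show p ∈ QD i (i + 1) from hp)
      by_cases hpE : M / p ∈ E
      · have hi1 : ind E (M / p) = 1 := by
          unfold ind
          rw [if_pos hpE]
        rw [hi1, if_pos hpE, mul_one, sum_ite_eq, if_pos]
        rw [mem_range]
        apply Nat.div_lt_of_lt_mul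
        rw [mul_comm (2 ^ i)]
        apply Nat.mul_lt_mul_of_pos_left _ hJ1
        have := pow_succ 2 i
        omega
      · have hi1 : ind E (M / p) = 0 := by
          unfold ind
          rw [if_neg hpE]
        rw [hi1, if_neg hpE, mul_zero]
    rw [h1, sum_mul]
    refine sum_le_sum fun j _ => ?_
    rw [sum_mul]
    refine sum_le_sum fun p hp => ?_
    exact mul_le_mul_of_nonneg_left (hbig i hi.2 j p hp) (w_nonneg i p)
  have hfin := hlow.trans htot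
  have e1 : (J : ℝ) * (ε * Z + D * Bc) = ε' * δ / 8 * Z + J * D * Bc := by
    rw [hε]
    field_simp
  rw [e1] at hfin
  have hZ0 : 0 < Z := by
    refine lt_of_le_of_lt ?_ hZS
    positivity
  rw [div_lt_iff₀ (by positivity)] at hZS
  have : 0 < δ * ε' * Z := by positivity
  nlinarith

end Pool.Agent.Y842.PG
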