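import Pool.Agent.Y842.PG.One

/-!
Library Y842.PG (helper842), part 4: chains of scales for products of general functions.
-/

set_option autoImplicit false

open Finset Filter Topology

namespace Pool.Agent.Y842.PG

open Pool.Agent.Y842.PH
open Pool.Agent.Helper602.MK (ee)
open Pool.Agent.TH112.BL (QD)
open Pool.Agent.TH575.CW (win theta_QD E)

section

variable {𝒜 : Type} [Fintype 𝒜] (a : ℕ → 𝒜) (h D b K : ℕ) (q : ℕ → ℕ) (β : ℕ → ℝ) (S : ℕ → Finset ℕ)

/-- the deficiency at a scale of the chain -/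
noncomputable def dkg (N k : ℕ) : ℝ :=
  Df N (2 * (1 + h) * 2 ^ (b + k * D)) (q k * (Tm h D b q S k * xx h D b k)) (∏ p ∈ PS h D b q S k, p)
    a (fun n => sg K N (Tm h D b q S (k + 1)) (β k) (PS h D b q S k) (n / Tm h D b q S (k + 1)))

theorem ent_sum_g (hb1 : 1 ≤ b) (hS : ∀ k, S k ⊆ QD (b + k * D) (b + k * D + 1)) (hq : ∀ k, 1 ≤ q k) (N n : ℕ)
    (haN : ∀ n, a (n + N) = a n) (hA1 : 1 ≤ Fintype.card 𝒜) (hN : Tm h D b q S n ∣ N) :
    ∑ k ∈ range n, dkg a h D b K q β S N k / 2 ^ (b + k * D) ≤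
      N * (2 * (1 + h) * Real.log (Fintype.card 𝒜) +
        9 * Real.log (K + 1) / 2 ^ D * ∑ k ∈ range n, 1 / ((b + k * D : ℕ) : ℝ)) := by
  classical
  set X : ℕ → ℝ := fun k => H N (win (2 * (1 + h) * 2 ^ (b + k * D)) a) (fun m => m % Tm h D b q S k) with hX
  set c : ℕ → ℝ := fun k => N * (2 * Real.log (((K + 1) ^ (PS h D b q S k).card : ℕ) : ℝ)) with hc
  have h1 : ∀ k < n, X (k + 1) ≤ 2 ^ D * (X k - dkg a h D b K q β S N k) + c k := by
    intro k hk
    have hT := Tm_succ h D b q S k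
    have hTp := Tm_pos h D b q S hS hq (k + 1)
    have hTN : Tm h D b q S (k + 1) ∣ N := (Tm_dvd_le h D b q S (k + 1) n (by omega)).trans hN
    have e1 := ent_step N (2 * (1 + h) * 2 ^ (b + k * D)) D (Tm h D b q S k) (q k)
      (Tm h D b q S k * xx h D b k) (PS h D b q S k) ((K + 1) ^ (PS h D b q S k).card)
      (Nat.one_le_pow _ _ (by omega)) (le_of_eq (sg_card K (PS h D b q S k))) a haN (dvd_mul_right _ _)
      (by rw [← hT]; exact hTp) (by rw [← hT]; exact hTN) (by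
        rw [← hT]
        have e2 : 2 ^ D * (2 * (1 + h) * 2 ^ (b + k * D)) = xx h D b k := by
          unfold xx
          rw [pow_add 2 (b + k * D) D]
          ring
        rw [e2]
        apply Nat.le_of_dvd hTp
        rw [hT]
        exact ((dvd_mul_left _ _).trans (dvd_mul_left _ _)).trans (dvd_mul_right _ _)) (by
        have : 0 < 2 * (1 + h) * 2 ^ (b + k * D) := by positivity
        exact this)
      (sg K N (Tm h D b q S (k + 1)) (β k) (PS h D b q S k)) (fun b' => by rw [← hT]; exact sg_per K N _ _ _ b')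
    rw [← hT] at e1
    have e2 : 2 * (1 + h) * 2 ^ (b + (k + 1) * D) = 2 ^ D * (2 * (1 + h) * 2 ^ (b + k * D)) := by
      rw [show b + (k + 1) * D = (b + k * D) + D by ring, pow_add 2 (b + k * D) D]
      ring
    have e3 : X (k + 1) = H N (win (2 ^ D * (2 * (1 + h) * 2 ^ (b + k * D))) a)
        (fun m => m % Tm h D b q S (k + 1)) := by
      rw [hX]
      show H N (win (2 * (1 + h) * 2 ^ (b + (k + 1) * D)) a) (fun m => m % Tm h D b q S (k + 1)) = _
      rw [e2]
    rw [e3]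
    exact e1
  have h2 := tele X (dkg a h D b K q β S N) c D n h1
  have hXn : 0 ≤ X n := H_nonneg _ _ _
  have hX0 : X 0 ≤ N * (2 * (1 + h) * 2 ^ b * Real.log (Fintype.card 𝒜)) := by
    have e1 := H_card N (win (2 * (1 + h) * 2 ^ (b + 0 * D)) a) (fun m => m % Tm h D b q S 0)
      ((Fintype.card 𝒜) ^ (2 * (1 + h) * 2 ^ (b + 0 * D))) (Nat.one_le_pow _ _ hA1) univ (by
        rw [card_univ, Fintype.card_fun, Fintype.card_fin]) (fun n => mem_univ _)
    refine e1.trans (le_of_eq ?_)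
    push_cast
    rw [Real.log_pow, zero_mul, add_zero]
    push_cast
    ring
  have h3 : ∑ k ∈ range n, dkg a h D b K q β S N k / 2 ^ (k * D) ≤
      X 0 + ∑ k ∈ range n, c k / 2 ^ (k * D + D) := by
    have : 0 ≤ X n / 2 ^ (n * D) := by positivity
    linarith
  have h4 : ∑ k ∈ range n, dkg a h D b K q β S N k / 2 ^ (b + k * D) =
      (∑ k ∈ range n, dkg a h D b K q β S N k / 2 ^ (k * D)) / 2 ^ b := by
    rw [sum_div]
    refine sum_congr rfl fun k _ => ?_
    rw [pow_add, div_div]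
    congr 1
    ring
  rw [h4, div_le_iff₀ (by positivity)]
  refine h3.trans ?_
  have h5 : ∑ k ∈ range n, c k / 2 ^ (k * D + D) ≤
      N * (9 * Real.log (K + 1) / 2 ^ D * ∑ k ∈ range n, 1 / ((b + k * D : ℕ) : ℝ)) * 2 ^ b := by
    rw [mul_sum, mul_sum, sum_mul]
    refine sum_le_sum fun k _ => ?_
    have e0 : PS h D b q S k ⊆ QD (b + k * D) (b + k * D + 1) := (PS_sub h D b q S k).trans (hS k)
    have hi1 : 1 ≤ b + k * D := by omega
    have e1 := card_le (b + k * D) hi1 (PS h D b q S k) e0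
    have hir : (0 : ℝ) < ((b + k * D : ℕ) : ℝ) := by exact_mod_cast hi1
    have hl2 : 0 < Real.log 2 := Real.log_pos (by norm_num)
    have hlK : 0 ≤ Real.log ((K : ℝ) + 1) := Real.log_nonneg (by
      have : (0 : ℝ) ≤ K := Nat.cast_nonneg K
      linarith)
    rw [hc]
    show N * (2 * Real.log (((K + 1) ^ (PS h D b q S k).card : ℕ) : ℝ)) / 2 ^ (k * D + D) ≤ _
    push_cast
    rw [Real.log_pow]
    have e2 : ((PS h D b q S k).card : ℝ) ≤ 3 * 2 ^ (b + k * D) / (((b + k * D : ℕ) : ℝ) * Real.log 2) := by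
      rw [le_div_iff₀ (by positivity)]
      exact e1
    push_cast at e2 hir
    calc (N : ℝ) * (2 * (((PS h D b q S k).card : ℝ) * Real.log (K + 1))) / 2 ^ (k * D + D) ≤
        N * (2 * ((3 * 2 ^ (b + k * D) / (((b : ℝ) + k * D) * Real.log 2)) * Real.log (K + 1))) /
          2 ^ (k * D + D) := by
          gcongr
      _ = N * ((6 / Real.log 2) * Real.log (K + 1) / 2 ^ D * (1 / ((b : ℝ) + k * D))) * 2 ^ b := by
          rw [pow_add, pow_add]
          field_simp
          ring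
      _ ≤ N * (9 * Real.log (K + 1) / 2 ^ D * (1 / ((b : ℝ) + k * D))) * 2 ^ b := by
          have e3 : 6 / Real.log 2 ≤ 9 := by
            rw [div_le_iff₀ hl2]
            have := Real.log_two_gt_d9
            linarith
          gcongr
  calc X 0 + ∑ k ∈ range n, c k / 2 ^ (k * D + D) ≤
      N * (2 * (1 + h) * 2 ^ b * Real.log (Fintype.card 𝒜)) +
      N * (9 * Real.log (K + 1) / 2 ^ D * ∑ k ∈ range n, 1 / ((b + k * D : ℕ) : ℝ)) * 2 ^ b := add_le_add hX0 h5
    _ = _ := by ring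

end

/-- **chain of scales** `b, b + D, b + 2 D, ...`, with a hypothesis on the bilinear sums -/
theorem chain_g {r : ℕ} (hr : 1 ≤ r) (h : ℕ) (hs : Fin r → ℕ) (hhs : ∀ t, hs t ≤ h) (ε : ℝ) (hε : 0 < ε) :
    ∃ D : ℕ, 1 ≤ D ∧ ∃ Bc : ℝ, 0 ≤ Bc ∧ ∃ b₀ : ℕ, ∀ b, b₀ ≤ b → ∀ n : ℕ, ∃ M₀ : ℕ, ∀ M : ℕ, M₀ ≤ M →
      ∀ G : Fin r → ℕ → ℂ, (∀ t n, ‖G t n‖ ≤ 1) → ∀ (A : ℕ → ℤ) (q : ℕ → ℕ) (β : ℕ → ℝ) (S : ℕ → Finset ℕ),
        (∀ k, S k ⊆ QD (b + k * D) (b + k * D + 1)) → (∀ k, ∀ p ∈ S k, ∀ t, Flp (G t) p) →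
        (∀ k, 1 ≤ q k) → (∀ k, q k ≤ 2 ^ (8 * 2 ^ (b + k * D))) → (∀ k, IsCoprime (A k) (q k : ℤ)) →
        (∀ k, |β k| * (q k * (2 ^ (8 * 2 ^ (b + k * D)) : ℕ)) ≤ 1) →
        (∀ k < n, ∀ N : ℕ, N ≤ M → M ≤ 2 * N → ∀ P : Finset ℕ, P ⊆ S k → (∀ p ∈ P, ¬ p ∣ q k) →
          ∑ p ∈ P, Real.log p / 2 ^ (b + k * D) *
            ‖∑ m ∈ range N, pr G hs p m * ee (th (A k) (q k) (β k) p * m)‖ ≤ ε / 10 * N) →
        ∑ k ∈ range n, 1 / ((b + k * D : ℕ) : ℝ) * ∑ p ∈ S k, Real.log p / 2 ^ (b + k * D) *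
          (p * ‖Cg G hs (M / p) (A k / q k + β k)‖ / M) ≤ ε * ∑ k ∈ range n, 1 / ((b + k * D : ℕ) : ℝ) + Bc := by
  have hrr : (1 : ℝ) ≤ r := by exact_mod_cast hr
  obtain ⟨s, c, cod, hc, hcod⟩ := net (ε / (240 * r)) (by positivity)
  have hs1 : 0 < s := by
    rcases Nat.eq_zero_or_pos s with h0 | h0
    · subst h0
      exact (cod 0).elim0
    · exact h0
  have hcard : Fintype.card (Fin r → Fin s) = s ^ r := by simp
  -- constants
  obtain ⟨K, hK⟩ := exists_nat_ge (5040 / ε)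
  have hKpos : 0 < 5040 / ε := by positivity
  have hK1 : 1 ≤ K := by
    have : (0 : ℝ) < K := lt_of_lt_of_le hKpos hK
    exact_mod_cast this
  have hlK : 0 ≤ Real.log ((K : ℝ) + 1) := Real.log_nonneg (by
    have : (0 : ℝ) ≤ K := Nat.cast_nonneg K
    linarith)
  obtain ⟨D', hD'⟩ := exists_nat_ge (9 * Real.log ((K : ℝ) + 1) / (ε / 760 * (ε / 10)) + 200 / ε)
  set D : ℕ := D' + 4 with hDd
  have hD2 : 9 * Real.log ((K : ℝ) + 1) / (ε / 760 * (ε / 10)) + 200 / ε ≤ 2 ^ D := by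
    refine hD'.trans ?_
    have : D' ≤ 2 ^ D := (Nat.lt_two_pow_self (n := D')).le.trans
      (Nat.pow_le_pow_right (by norm_num) (by omega))
    exact_mod_cast this
  have h2D : (0 : ℝ) < 2 ^ D := by positivity
  have hDa : 9 * Real.log ((K : ℝ) + 1) / 2 ^ D ≤ ε / 760 * (ε / 10) := by
    have e1 : 9 * Real.log ((K : ℝ) + 1) / (ε / 760 * (ε / 10)) ≤ 2 ^ D := by
      have : 0 ≤ 200 / ε := by positivity
      linarith
    rw [div_le_iff₀ (by positivity)] at e1
    rw [div_le_iff₀ h2D]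
    linarith
  have hDb : 20 / 2 ^ D ≤ ε / 10 := by
    have e1 : 200 / ε ≤ 2 ^ D := by
      have : 0 ≤ 9 * Real.log ((K : ℝ) + 1) / (ε / 760 * (ε / 10)) := by positivity
      linarith
    rw [div_le_iff₀ hε] at e1
    rw [div_le_iff₀ h2D]
    linarith
  have hLA : 0 ≤ Real.log (Fintype.card (Fin r → Fin s)) := Real.log_natCast_nonneg _
  refine ⟨D, by omega, 760 / ε * (2 * (1 + h) * Real.log (Fintype.card (Fin r → Fin s))), by positivity, ?_⟩
  -- large scales
  have l1 : Tendsto (fun i : ℕ => (i : ℝ) * Real.log 2 / (ε / 760 * 2 ^ i)) atTop (𝓝 0) := by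
    have e1 := tendsto_pow_const_div_const_pow_of_one_lt 1 (show (1 : ℝ) < 2 by norm_num)
    have e2 := e1.const_mul (Real.log 2 / (ε / 760))
    rw [mul_zero] at e2
    refine e2.congr fun i => ?_
    simp only [pow_one]
    field_simp
  have l2 : Tendsto (fun i : ℕ => ((1 + h + D : ℕ) : ℝ) * (1 / 2 ^ i) + (i : ℝ) / 2 ^ i) atTop (𝓝 0) := by
    have e1 := tendsto_pow_const_div_const_pow_of_one_lt 1 (show (1 : ℝ) < 2 by norm_num)
    have e2 := tendsto_pow_const_div_const_pow_of_one_lt 0 (show (1 : ℝ) < 2 by norm_num)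
    have e3 := (e2.const_mul ((1 + h + D : ℕ) : ℝ)).add e1
    simp only [pow_zero, pow_one, mul_zero, add_zero] at e3
    exact e3
  obtain ⟨I₂, hI₂⟩ := eventually_atTop.1 (l1.eventually_lt_const (show (0 : ℝ) < ε / 10 by positivity))
  obtain ⟨I₃, hI₃⟩ := eventually_atTop.1 (l2.eventually_lt_const (show (0 : ℝ) < 1 by norm_num))
  obtain ⟨I₄, hI₄⟩ := exists_nat_ge (120 * r / ε)
  refine ⟨I₂ + I₃ + I₄ + K + 1, fun b hbb n => ?_⟩
  have hb1 : 1 ≤ b := by omega
  have hbk : ∀ k, 1 + h + D + (b + k * D) ≤ 2 ^ (b + k * D) := by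
    intro k
    have e1 := hI₃ (b + k * D) (by
      have : 0 ≤ k * D := Nat.zero_le _
      omega)
    set i := b + k * D with hi
    have e2 : (0 : ℝ) < 2 ^ i := by positivity
    have e3 : (((1 + h + D : ℕ) : ℝ) + i) / 2 ^ i < 1 := by
      rw [add_div]
      have : ((1 + h + D : ℕ) : ℝ) / 2 ^ i = ((1 + h + D : ℕ) : ℝ) * (1 / 2 ^ i) := by ring
      rw [this]
      exact e1
    rw [div_lt_one e2] at e3
    have e4 : 1 + h + D + i < 2 ^ i := by exact_mod_cast e3
    exact e4.le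
  set I : ℕ := b + n * D with hI
  obtain ⟨M₁, hM₁⟩ := exists_nat_ge (3000 * (1 + h + r) * 4 ^ I / ε + 30 * (2 ^ (2 ^ I) + 2 ^ (I + 1)) / ε)
  refine ⟨2 * (M₁ + 2 ^ (2 ^ I) + 1), fun M hM G hG A q β S hS hF hq1 hqY hAq hβ hB => ?_⟩
  set T : ℕ := Tm h D b q S n with hT
  have hD4 : 4 ≤ D := by omega
  have hTle : T ≤ 2 ^ (2 ^ I) := (Tm_le h D b q S hS hD4 hbk hqY n).1
  have hT1 : 1 ≤ T := Tm_pos h D b q S hS hq1 n
  set N : ℕ := M / T * T with hN
  have hTN : T ∣ N := dvd_mul_left _ _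
  have hNM : N ≤ M := Nat.div_mul_le_self M T
  have hMT : M ≤ N + T := by
    have h1 := Nat.mod_add_div M T
    have h2 := Nat.mod_lt M hT1
    rw [mul_comm] at h1
    omega
  have hM2 : 2 * (M₁ + 1) ≤ 2 * N := by omega
  have hN2M : M ≤ 2 * N := by omega
  have hN0 : 0 < N := by omega
  have hNr : (0 : ℝ) < N := by exact_mod_cast hN0
  have hM1N : (M₁ : ℝ) ≤ N := by exact_mod_cast (by omega : M₁ ≤ N)
  have hik : ∀ k < n, b + k * D ≤ I := by
    intro k hk
    rw [hI]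
    have := Nat.mul_le_mul_right D hk.le
    omega
  have hent := ent_sum_g (code cod G N) h D b K q β S hb1 hS hq1 N n (code_per cod G N) (by
    rw [hcard]; exact Nat.one_le_pow _ _ hs1) hTN
  -- one scale
  have hone : ∀ k < n, ∑ p ∈ S k, Real.log p / 2 ^ (b + k * D) * (p * ‖Cg G hs (M / p) (A k / q k + β k)‖ / M) ≤
      ((b + k * D : ℕ) : ℝ) * (760 / ε * (dkg (code cod G N) h D b K q β S N k / 2 ^ (b + k * D) / N)) +
        8 * ε / 10 := by
    intro k hk
    set i := b + k * D with hi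
    have hiI : i ≤ I := hik k hk
    have hib : b ≤ i := by rw [hi]; omega
    have hi1 : 1 ≤ i := by omega
    have hTk := Tm_succ h D b q S k
    have hTkp := Tm_pos h D b q S hS hq1 (k + 1)
    have hMr : (0 : ℝ) < M := lt_of_lt_of_le hNr (by exact_mod_cast hNM)
    -- splitting off the primes dividing the modulus
    have hsplit : ∑ p ∈ S k, Real.log p / 2 ^ i * (p * ‖Cg G hs (M / p) (A k / q k + β k)‖ / M) =
        ∑ p ∈ PS h D b q S k, Real.log p / 2 ^ i * (p * ‖Cg G hs (M / p) (A k / q k + β k)‖ / M) +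
        ∑ p ∈ (S k).filter (fun p => p ∣ Tm h D b q S k * xx h D b k),
          Real.log p / 2 ^ i * (p * ‖Cg G hs (M / p) (A k / q k + β k)‖ / M) := by
      unfold PS
      exact (sum_filter_add_sum_filter_not (S k) (fun p => p ∣ Tm h D b q S k * xx h D b k)
        (fun p => Real.log p / 2 ^ i * (p * ‖Cg G hs (M / p) (A k / q k + β k)‖ / M))).symm.trans
        (add_comm _ _)
    have hrem : ∑ p ∈ (S k).filter (fun p => p ∣ Tm h D b q S k * xx h D b k),
          Real.log p / 2 ^ i * (p * ‖Cg G hs (M / p) (A k / q k + β k)‖ / M) ≤ ε / 10 := by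
      refine le_trans ?_ ((rem h D b q S hD4 hb1 hS hq1 hbk hqY k).trans hDb)
      refine sum_le_sum fun p hp => ?_
      apply mul_le_of_le_one_right (w_nonneg i p)
      rw [div_le_one hMr]
      have e1 := Cg_le G hG hs (M / p) (A k / q k + β k)
      have e2 : (p : ℝ) * ((M / p : ℕ) : ℝ) ≤ M := by exact_mod_cast Nat.mul_div_le M p
      have e3 : (p : ℝ) * ‖Cg G hs (M / p) (A k / q k + β k)‖ ≤ p * ((M / p : ℕ) : ℝ) :=
        mul_le_mul_of_nonneg_left e1 (Nat.cast_nonneg p)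
      linarith
    have hβΛ : |β k| * ((q k * (Tm h D b q S k * xx h D b k)) * ∏ p ∈ PS h D b q S k, p : ℕ) ≤ 1 / K := by
      have hKr : (0 : ℝ) < K := by exact_mod_cast hK1
      rw [le_div_iff₀ hKr]
      refine le_trans ?_ (hβ k)
      rw [mul_assoc]
      apply mul_le_mul_of_nonneg_left _ (abs_nonneg _)
      have e1 := (Tm_le h D b q S hS hD4 hbk hqY k).1
      have e2 := xx_le h D b k (hbk k)
      have e3 := PS_prod_le h D b q S hS k
      have e4 : K ≤ 2 ^ (2 * 2 ^ (b + k * D)) := by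
        calc K ≤ 2 ^ K := (Nat.lt_two_pow_self).le
          _ ≤ 2 ^ (2 * 2 ^ (b + k * D)) := Nat.pow_le_pow_right (by norm_num) (by
            have : b + k * D < 2 ^ (b + k * D) := Nat.lt_two_pow_self
            omega)
      have e5 : (q k * (Tm h D b q S k * xx h D b k)) * (∏ p ∈ PS h D b q S k, p) * K ≤
          q k * 2 ^ (8 * 2 ^ (b + k * D)) := by
        calc (q k * (Tm h D b q S k * xx h D b k)) * (∏ p ∈ PS h D b q S k, p) * K ≤
            (q k * (2 ^ (2 ^ (b + k * D)) * 2 ^ (2 ^ (b + k * D)))) * 2 ^ (4 * 2 ^ (b + k * D)) *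
              2 ^ (2 * 2 ^ (b + k * D)) :=
              Nat.mul_le_mul (Nat.mul_le_mul (Nat.mul_le_mul_left _ (Nat.mul_le_mul e1 e2)) e3) e4
          _ = q k * 2 ^ (8 * 2 ^ (b + k * D)) := by
              rw [← pow_add, mul_assoc, mul_assoc, ← pow_add, ← pow_add]
              congr 2
              ring
      exact_mod_cast e5
    have hM₁' : ∀ y z : ℝ, 0 ≤ y → 0 ≤ z → y + z ≤ M₁ → y ≤ N ∧ z ≤ N := by
      intro y z hy hz hyz
      refine ⟨?_, ?_⟩ <;> linarith
    have hM₁'' := hM₁' _ _ (by positivity) (by positivity) hM₁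
    have hbig := one_g c cod hc ε hε hr hcod G hG h hs hhs i N M T (q k) (Tm h D b q S k * xx h D b k) K hi1
      (hq1 k)
      (Nat.mul_pos (Tm_pos h D b q S hS hq1 k) (xx_pos h D b k)) hK1 (A k) (β k) (hAq k) (PS h D b q S k)
      ((PS_sub h D b q S k).trans (hS k)) (fun p hp => hF k p (PS_sub h D b q S k hp)) (fun p hp => by
        unfold PS at hp
        rw [mem_filter] at hp
        exact hp.2) (by
        rw [← hTk]
        exact (Tm_dvd_le h D b q S (k + 1) n (by omega)).trans hTN) (by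
        rw [← hTk]
        refine le_trans ?_ (Nat.le_of_dvd hTkp (?_ : xx h D b k ∣ Tm h D b q S (k + 1)))
        · unfold xx
          rw [pow_succ, mul_comm (2 ^ i) 2]
          apply Nat.mul_le_mul
          · omega
          · exact Nat.pow_le_pow_right (by norm_num) (by omega)
        · rw [hTk]
          exact ((dvd_mul_left _ _).trans (dvd_mul_left _ _)).trans (dvd_mul_right _ _))
      hβΛ hN0 hNM hMT (hB k hk N hNM hN2M _ ((filter_subset _ _).trans (PS_sub h D b q S k)) (fun p hp => by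
        rw [mem_filter] at hp
        exact hp.2)) hK (by
        refine hI₄.trans ?_
        have : I₄ ≤ 2 ^ i := (by omega : I₄ ≤ i).trans (Nat.lt_two_pow_self).le
        exact_mod_cast this) (hI₂ i (by omega)).le (by
        refine le_trans ?_ hM₁''.1
        have : (4 : ℝ) ^ i ≤ 4 ^ I := pow_le_pow_right₀ (by norm_num) hiI
        gcongr) (by
        refine le_trans ?_ (hM₁''.2.trans (by exact_mod_cast hNM))
        have e1 : (T : ℝ) ≤ 2 ^ (2 ^ I) := by exact_mod_cast hTle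
        have e2 : (2 : ℝ) ^ (i + 1) ≤ 2 ^ (I + 1) := pow_le_pow_right₀ (by norm_num) (by omega)
        gcongr)
    rw [hsplit]
    have e1 : (i : ℝ) / (ε / 760 * 2 ^ i) * (dkg (code cod G N) h D b K q β S N k / N) =
        (i : ℝ) * (760 / ε * (dkg (code cod G N) h D b K q β S N k / 2 ^ i / N)) := by
      field_simp
    have e2 : Df N (2 * (1 + h) * 2 ^ i) (q k * (Tm h D b q S k * xx h D b k)) (∏ p ∈ PS h D b q S k, p)
        (code cod G N)
          (fun n => sg K N ((q k * (Tm h D b q S k * xx h D b k)) * ∏ p ∈ PS h D b q S k, p) (β k)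
            (PS h D b q S k) (n / ((q k * (Tm h D b q S k * xx h D b k)) * ∏ p ∈ PS h D b q S k, p))) =
        dkg (code cod G N) h D b K q β S N k := rfl
    rw [e2, e1] at hbig
    linarith
  -- summation
  have h1 : ∑ k ∈ range n, 1 / ((b + k * D : ℕ) : ℝ) * ∑ p ∈ S k, Real.log p / 2 ^ (b + k * D) *
      (p * ‖Cg G hs (M / p) (A k / q k + β k)‖ / M) ≤
      ∑ k ∈ range n, (760 / ε / N * (dkg (code cod G N) h D b K q β S N k / 2 ^ (b + k * D)) +
        8 * ε / 10 * (1 / ((b + k * D : ℕ) : ℝ))) := by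
    refine sum_le_sum fun k hk => ?_
    rw [mem_range] at hk
    have hir : (0 : ℝ) < ((b + k * D : ℕ) : ℝ) := by exact_mod_cast (by omega : 0 < b + k * D)
    calc 1 / ((b + k * D : ℕ) : ℝ) * ∑ p ∈ S k, Real.log p / 2 ^ (b + k * D) *
        (p * ‖Cg G hs (M / p) (A k / q k + β k)‖ / M) ≤ 1 / ((b + k * D : ℕ) : ℝ) *
        (((b + k * D : ℕ) : ℝ) * (760 / ε * (dkg (code cod G N) h D b K q β S N k / 2 ^ (b + k * D) / N)) +
          8 * ε / 10) :=
          mul_le_mul_of_nonneg_left (hone k hk) (by positivity)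
      _ = 760 / ε / N * (dkg (code cod G N) h D b K q β S N k / 2 ^ (b + k * D)) +
        8 * ε / 10 * (1 / ((b + k * D : ℕ) : ℝ)) := by field_simp
  refine h1.trans ?_
  rw [sum_add_distrib, ← mul_sum, ← mul_sum]
  set Z := ∑ k ∈ range n, 1 / ((b + k * D : ℕ) : ℝ) with hZ
  have hZ0 : 0 ≤ Z := sum_nonneg fun k _ => by positivity
  set LA : ℝ := Real.log (Fintype.card (Fin r → Fin s)) with hLAd
  have h2 : 760 / ε / N * ∑ k ∈ range n, dkg (code cod G N) h D b K q β S N k / 2 ^ (b + k * D) ≤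
      760 / ε * (2 * (1 + h) * LA) + ε / 10 * Z := by
    calc 760 / ε / N * ∑ k ∈ range n, dkg (code cod G N) h D b K q β S N k / 2 ^ (b + k * D) ≤
        760 / ε / N * (N * (2 * (1 + h) * LA + 9 * Real.log (K + 1) / 2 ^ D * Z)) :=
          mul_le_mul_of_nonneg_left hent (by positivity)
      _ = 760 / ε * (2 * (1 + h) * LA) + 760 / ε * (9 * Real.log (K + 1) / 2 ^ D) * Z := by
          field_simp
      _ ≤ 760 / ε * (2 * (1 + h) * LA) + 760 / ε * (ε / 760 * (ε / 10)) * Z := by gcongr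
      _ = _ := by field_simp
  have h3 : 0 ≤ ε * Z := by positivity
  linarith

end Pool.Agent.Y842.PG
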