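import Pool.Agent.Y842.PH.Chain3

/-!
Library Y842.PG (helper842): general version of Y842.PH. Part 1: local functions, one scale.
`Φ p m` is the local function (determined by a window), `Ψ p m` its approximation by the true function.
-/

set_option autoImplicit false

open Finset

namespace Pool.Agent.Y842.PG

open Pool.Agent.Y842.PH
open Pool.Agent.Helper602.MK (ee)
open Pool.Agent.Helper602.MK.N_J1c (c_ee_add c_ee_int c_norm_ee c_norm_ee_sub_one_le c_norm_ee_sub_one_ge)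
open Pool.Agent.Y958.TC (iv iv_spec)
open Pool.Agent.TH112.BL (QD)
open Pool.Agent.TH575.CW (win theta_QD)

section local_functions

variable (Φ : ℕ → ℕ → ℂ) (i T x q : ℕ) (A : ℤ) (sl : ℕ → ℕ → ℂ) (Λ : ℕ)

/-- the summand -/
noncomputable def zt (p n u j : ℕ) : ℂ :=
  if p ∣ u + j then (p : ℂ) * Φ p (n + j) * eq A q ((u + j) / p) else 0

/-- the local function -/
noncomputable def zz (p n y : ℕ) : ℂ :=
  (1 / (2 : ℂ) ^ (i + 1)) * (∑ j ∈ range (2 ^ (i + 1)), zt Φ q A p n (n % T + T * y) j) * sl p (n / Λ)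

lemma norm_zt (hΦ : ∀ p n, ‖Φ p n‖ ≤ 1) (p n u j : ℕ) : ‖zt Φ q A p n u j‖ ≤ if p ∣ u + j then (p : ℝ) else 0 := by
  unfold zt
  split_ifs with h1
  · rw [norm_mul, norm_mul, norm_eq, mul_one, Complex.norm_natCast]
    calc (p : ℝ) * ‖Φ p (n + j)‖ ≤ p * 1 := mul_le_mul_of_nonneg_left (hΦ _ _) (Nat.cast_nonneg p)
      _ = p := mul_one _
  · rw [norm_zero]

lemma sum_zt (hΦ : ∀ p n, ‖Φ p n‖ ≤ 1) (p n u L : ℕ) (hp : 1 ≤ p) :
    ‖∑ j ∈ range L, zt Φ q A p n u j‖ ≤ L + 2 * p := by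
  refine (norm_sum_le _ _).trans ?_
  refine (sum_le_sum fun j _ => norm_zt Φ q A hΦ p n u j).trans ?_
  rw [← sum_filter, sum_const, nsmul_eq_mul]
  exact card_dvd p u L hp

lemma norm_zz (hΦ : ∀ p n, ‖Φ p n‖ ≤ 1) (hsl : ∀ p b, ‖sl p b‖ ≤ 1) (p n y : ℕ) (hp : 1 ≤ p)
    (hp2 : p ≤ 2 ^ (i + 1)) : ‖zz Φ i T q A sl Λ p n y‖ ≤ 3 := by
  unfold zz
  rw [norm_mul, norm_mul]
  have h1 := sum_zt Φ q A hΦ p n (n % T + T * y) (2 ^ (i + 1)) hp
  have h2 : ‖(1 / (2 : ℂ) ^ (i + 1))‖ = 1 / (2 : ℝ) ^ (i + 1) := by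
    rw [norm_div, norm_pow]
    simp
  have h3 : (p : ℝ) ≤ 2 ^ (i + 1) := by exact_mod_cast hp2
  rw [h2]
  push_cast at h1
  calc 1 / (2 : ℝ) ^ (i + 1) * ‖∑ j ∈ range (2 ^ (i + 1)), zt Φ q A p n (n % T + T * y) j‖ * ‖sl p (n / Λ)‖
      ≤ 1 / (2 : ℝ) ^ (i + 1) * (3 * 2 ^ (i + 1)) * 1 := by
        apply mul_le_mul _ (hsl _ _) (norm_nonneg _) (by positivity)
        apply mul_le_mul_of_nonneg_left _ (by positivity)
        linarith
    _ = 3 := by field_simp

/-- the digit gives back the residue -/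
lemma zt_dg (hTq : T = q * x) (hq : 1 ≤ q) (p n j : ℕ) (hp : 1 ≤ p) :
    zt Φ q A p n (n % T + T * dg T n p) j =
      if p ∣ n + j then (p : ℂ) * Φ p (n + j) * eq A q ((n + j) / p) else 0 := by
  have h1 : n + j = n % T + T * dg T n p + j + p * (T * (n / T / p)) := by
    unfold dg
    have e1 := Nat.mod_add_div n T
    have e2 := Nat.mod_add_div (n / T) p
    calc n + j = n % T + T * (n / T) + j := by rw [e1]
      _ = n % T + T * (n / T % p + p * (n / T / p)) + j := by rw [e2]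
      _ = _ := by ring
  have h2 : p ∣ n % T + T * dg T n p + j ↔ p ∣ n + j := by
    rw [h1]
    exact (Nat.dvd_add_left (dvd_mul_right p _)).symm
  unfold zt
  by_cases h3 : p ∣ n + j
  · rw [if_pos h3, if_pos (h2.2 h3)]
    congr 1
    have h4 : (n + j) / p = (n % T + T * dg T n p + j) / p + T * (n / T / p) := by
      conv_lhs => rw [h1]
      rw [Nat.add_mul_div_left _ _ hp]
    rw [h4, eq_add]
    have h5 : eq A q (T * (n / T / p)) = 1 := by
      rw [hTq, mul_assoc]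
      exact eq_mul A q _ hq
    rw [h5, mul_one]
  · rw [if_neg h3, if_neg (fun h4 => h3 (h2.1 h4))]

/-- average over the digits, primes not dividing `T` -/
lemma avg_coprime (hTq : T = q * x) (hq : 1 ≤ q) (p n v : ℕ) (hp : p.Prime) (hpT : ¬ p ∣ T)
    (hv : v * p ≡ 1 [MOD q]) :
    (∑ y ∈ range p, zz Φ i T q A sl Λ p n y) / p =
      (1 / (2 : ℂ) ^ (i + 1)) * (∑ j ∈ range (2 ^ (i + 1)), Φ p (n + j) * eq A q (v * (n + j))) * sl p (n / Λ) := by
  have hp0 : (p : ℂ) ≠ 0 := by exact_mod_cast hp.ne_zero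
  unfold zz
  rw [← sum_mul, ← mul_sum, sum_comm]
  have h1 : ∀ j ∈ range (2 ^ (i + 1)), ∑ y ∈ range p, zt Φ q A p n (n % T + T * y) j =
      p * (Φ p (n + j) * eq A q (v * (n + j))) := by
    intro j _
    have h2 : ∀ y ∈ range p, zt Φ q A p n (n % T + T * y) j =
        if p ∣ (n % T + j) + T * y then p * (Φ p (n + j) * eq A q (v * (n + j))) else 0 := by
      intro y _
      unfold zt
      rw [show n % T + T * y + j = (n % T + j) + T * y by ring]
      split_ifs with h3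
      · rw [mul_assoc]
        congr 2
        apply eq_congr A q _ _ hq
        obtain ⟨k, hk⟩ := h3
        rw [hk, Nat.mul_div_cancel_left _ hp.pos]
        have h4 : p * k ≡ n + j [MOD q] := by
          rw [← hk]
          have e1 : n % T ≡ n [MOD q] := by
            have : n % T ≡ n [MOD T] := Nat.mod_modEq n T
            rw [hTq] at this ⊢
            exact this.of_mul_right x
          have e2 : T * y ≡ 0 [MOD q] := by
            rw [hTq, mul_assoc]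
            exact (Nat.modEq_zero_iff_dvd).2 (dvd_mul_right _ _)
          have := (e1.add_right j).add e2
          rw [add_zero] at this
          exact this
        calc k = 1 * k := (one_mul k).symm
          _ ≡ v * p * k [MOD q] := (hv.mul_right k).symm
          _ = v * (p * k) := by ring
          _ ≡ v * (n + j) [MOD q] := h4.mul_left v
      · rfl
    rw [sum_congr rfl h2, ← sum_filter, sum_const, card_root p T (n % T + j) hp hpT, one_smul]
  rw [sum_congr rfl h1, ← mul_sum]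
  field_simp

/-- average over the digits, primes dividing `q` -/
lemma avg_dvd (hTq : T = q * x) (hq : 1 ≤ q) (p n : ℕ) (hp : p.Prime) (hpq : p ∣ q) (hpx : ¬ p ∣ x)
    (hpA : ¬ (p : ℤ) ∣ A) : ∑ y ∈ range p, zz Φ i T q A sl Λ p n y = 0 := by
  unfold zz
  rw [← sum_mul, ← mul_sum, sum_comm]
  have h1 : ∀ j ∈ range (2 ^ (i + 1)), ∑ y ∈ range p, zt Φ q A p n (n % T + T * y) j = 0 := by
    intro j _
    obtain ⟨q', hq'⟩ := hpq
    by_cases h3 : p ∣ n % T + j
    · obtain ⟨k, hk⟩ := h3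
      have h2 : ∀ y ∈ range p, zt Φ q A p n (n % T + T * y) j =
          p * Φ p (n + j) * eq A q k * ee ((A * x : ℤ) * y / p) := by
        intro y _
        unfold zt
        have e1 : n % T + T * y + j = p * (k + q' * x * y) := by
          rw [mul_add, ← hk, hTq, hq']
          ring
        rw [e1, if_pos (dvd_mul_right _ _), Nat.mul_div_cancel_left _ hp.pos, eq_add, ← mul_assoc]
        congr 1
        unfold eq
        congr 1
        rw [hq']
        have hp0 : (p : ℝ) ≠ 0 := by exact_mod_cast hp.ne_zero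
        have hq0 : (q' : ℝ) ≠ 0 := by
          intro h0
          have : q' = 0 := by exact_mod_cast h0
          rw [this] at hq'
          omega
        push_cast
        field_simp
      rw [sum_congr rfl h2, ← mul_sum, char_sum p hp (A * x) ?_, mul_zero]
      intro hd
      rcases (Nat.prime_iff_prime_int.1 hp).dvd_or_dvd hd with hd | hd
      · exact hpA hd
      · exact hpx (by exact_mod_cast hd)
    · apply sum_eq_zero
      intro y _
      unfold zt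
      rw [if_neg]
      intro hd
      apply h3
      have e1 : n % T + T * y + j = (n % T + j) + p * (q' * x * y) := by
        rw [hTq, hq']
        ring
      rw [e1] at hd
      exact (Nat.dvd_add_left (dvd_mul_right p _)).1 hd
  rw [sum_congr rfl h1, sum_const_zero, mul_zero, zero_mul]

end local_functions

section one_scale

variable (Φ : ℕ → ℕ → ℂ) (hΦ : ∀ p n, ‖Φ p n‖ ≤ 1) (Ψ : ℕ → ℕ → ℂ) (hΨ : ∀ p n, ‖Ψ p n‖ ≤ 1) (W i N q x : ℕ)
  (hq : 1 ≤ q) (A : ℤ) (β : ℝ) (sl : ℕ → ℕ → ℂ) (hsl : ∀ p b, ‖sl p b‖ ≤ 1) (Λ : ℕ) (ρ δ : ℝ) (hρ0 : 0 ≤ ρ)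
  (hδ0 : 0 ≤ δ) (hW : 2 ^ (i + 1) ≤ W)

include hΦ hΨ hsl hρ0 hδ0 hq hW

/-- the average of the local functions at the digits is the correlation sum -/
lemma partA (p : ℕ) (hp : p.Prime) (hp2 : p ≤ 2 ^ (i + 1)) (hpN : p ∣ N)
    (hΦΨ : ∀ n j, n + W ≤ N → j < 2 ^ (i + 1) → ‖Φ p (n + j) - Ψ p (n + j)‖ ≤ δ)
    (hρ : ∀ n < N, ∀ j : ℕ, j < 2 ^ (i + 1) → ‖sl p (n / Λ) - ee (β * (n + j) / p)‖ ≤ ρ) :
    ‖∑ n ∈ range N, zz Φ i (q * x) q A sl Λ p n (dg (q * x) n p) -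
      p * ∑ k ∈ range (N / p), Ψ p (p * k) * ee ((A / q + β) * k)‖ ≤
      3 * (ρ + δ) * N + 6 * (W : ℝ) + 2 * 2 ^ (i + 1) * 2 ^ (i + 1) := by
  set G : ℕ → ℂ := fun m => if p ∣ m then (p : ℂ) * Ψ p (p * (m / p)) *
    ee ((A / q + β) * ((m / p : ℕ) : ℝ)) else 0 with hG
  have hGn : ∀ m, ‖G m‖ ≤ if p ∣ m then (p : ℝ) else 0 := by
    intro m
    rw [hG]
    show ‖(if p ∣ m then (p : ℂ) * Ψ p (p * (m / p)) * ee ((A / q + β) * ((m / p : ℕ) : ℝ)) else 0)‖ ≤ _
    split_ifs with h1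
    · rw [norm_mul, norm_mul, c_norm_ee, mul_one, Complex.norm_natCast]
      calc (p : ℝ) * ‖Ψ p (p * (m / p))‖ ≤ p * 1 := mul_le_mul_of_nonneg_left (hΨ _ _) (Nat.cast_nonneg p)
        _ = p := mul_one _
    · rw [norm_zero]
  have hp2r : (p : ℝ) ≤ 2 ^ (i + 1) := by exact_mod_cast hp2
  have hGp : ∀ m, ‖G m‖ ≤ 2 ^ (i + 1) := by
    intro m
    refine (hGn m).trans ?_
    split_ifs
    · exact hp2r
    · positivity
  have hL0 : (0 : ℝ) < 2 ^ (i + 1) := by positivity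
  have hnL : ‖(1 / (2 : ℂ) ^ (i + 1))‖ = 1 / (2 : ℝ) ^ (i + 1) := by
    rw [norm_div, norm_pow]
    simp
  have hρδ : 0 ≤ ρ + δ := add_nonneg hρ0 hδ0
  -- step 1
  have h1 : ∑ n ∈ range N, ‖zz Φ i (q * x) q A sl Λ p n (dg (q * x) n p) -
      (1 / (2 : ℂ) ^ (i + 1)) * ∑ j ∈ range (2 ^ (i + 1)), G (n + j)‖ ≤
      3 * (ρ + δ) * N + 6 * (W : ℝ) := by
    apply spl N W _ (3 * (ρ + δ)) 6 (by positivity) (by norm_num)
    · intro n hn
      have h2 : ∀ j ∈ range (2 ^ (i + 1)), zt Φ q A p n (n % (q * x) + q * x * dg (q * x) n p) j * sl p (n / Λ) -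
          G (n + j) = if p ∣ n + j then (p : ℂ) * eq A q ((n + j) / p) * (Φ p (n + j) *
            (sl p (n / Λ) - ee (β * (n + j) / p)) + (Φ p (n + j) - Ψ p (n + j)) * ee (β * (n + j) / p)) else 0 := by
        intro j hj
        rw [mem_range] at hj
        rw [zt_dg Φ (q * x) x q A rfl hq p n j hp.pos, hG]
        show (if p ∣ n + j then (p : ℂ) * Φ p (n + j) * eq A q ((n + j) / p) else 0) *
          sl p (n / Λ) - (if p ∣ n + j then (p : ℂ) * Ψ p (p * ((n + j) / p)) *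
            ee ((A / q + β) * (((n + j) / p : ℕ) : ℝ)) else 0) = _
        split_ifs with h3
        · rw [Nat.mul_div_cancel' h3]
          have e3 : ee ((A / q + β) * (((n + j) / p : ℕ) : ℝ)) = eq A q ((n + j) / p) * ee (β * (n + j) / p) := by
            unfold eq
            rw [← c_ee_add]
            congr 1
            have : (((n + j) / p : ℕ) : ℝ) = (n + j) / p := by
              rw [Nat.cast_div h3 (by exact_mod_cast hp.ne_zero)]
              push_cast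
              rfl
            rw [this]
            ring
          rw [e3]
          ring
        · rw [zero_mul, sub_zero]
      have h3 : zz Φ i (q * x) q A sl Λ p n (dg (q * x) n p) -
          (1 / (2 : ℂ) ^ (i + 1)) * ∑ j ∈ range (2 ^ (i + 1)), G (n + j) =
          (1 / (2 : ℂ) ^ (i + 1)) * ∑ j ∈ range (2 ^ (i + 1)),
            (if p ∣ n + j then (p : ℂ) * eq A q ((n + j) / p) * (Φ p (n + j) *
            (sl p (n / Λ) - ee (β * (n + j) / p)) + (Φ p (n + j) - Ψ p (n + j)) * ee (β * (n + j) / p)) else 0) := by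
        rw [← sum_congr rfl h2, sum_sub_distrib, ← sum_mul]
        unfold zz
        ring
      rw [h3, norm_mul, hnL]
      have h4 : ‖∑ j ∈ range (2 ^ (i + 1)),
            (if p ∣ n + j then (p : ℂ) * eq A q ((n + j) / p) * (Φ p (n + j) *
            (sl p (n / Λ) - ee (β * (n + j) / p)) + (Φ p (n + j) - Ψ p (n + j)) * ee (β * (n + j) / p)) else 0)‖ ≤
            ∑ j ∈ range (2 ^ (i + 1)), (if p ∣ n + j then p * (ρ + δ) else 0) := by
        refine (norm_sum_le _ _).trans (sum_le_sum fun j hj => ?_)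
        split_ifs with h5
        · rw [norm_mul, norm_mul, norm_eq, mul_one, Complex.norm_natCast]
          apply mul_le_mul_of_nonneg_left _ (Nat.cast_nonneg p)
          refine (norm_add_le _ _).trans ?_
          rw [norm_mul, norm_mul, c_norm_ee, mul_one]
          have h2W : 0 < 2 ^ (i + 1) := by positivity
          have h7 := hρ n (by omega) j (mem_range.1 hj)
          have h8 := hΦΨ n j hn (mem_range.1 hj)
          have h9 : ‖Φ p (n + j)‖ * ‖sl p (n / Λ) - ee (β * (n + j) / p)‖ ≤ 1 * ρ :=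
            mul_le_mul (hΦ _ _) h7 (norm_nonneg _) zero_le_one
          linarith
        · rw [norm_zero]
      have h45 : ∑ j ∈ range (2 ^ (i + 1)), (if p ∣ n + j then (p : ℝ) * (ρ + δ) else 0) =
          (((range (2 ^ (i + 1))).filter (fun j => p ∣ n + j)).card : ℝ) * (p * (ρ + δ)) := by
        rw [← sum_filter, sum_const, nsmul_eq_mul]
      rw [h45] at h4
      have h5 := card_dvd p n (2 ^ (i + 1)) hp.pos
      have h6 : (((range (2 ^ (i + 1))).filter (fun j => p ∣ n + j)).card : ℝ) * (p * (ρ + δ)) ≤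
          3 * 2 ^ (i + 1) * (ρ + δ) := by
        rw [← mul_assoc]
        apply mul_le_mul_of_nonneg_right _ hρδ
        push_cast at h5
        linarith
      rw [div_mul_eq_mul_div, one_mul, div_le_iff₀ hL0]
      linarith
    · intro n _
      have h2 := norm_zz Φ i (q * x) q A sl Λ hΦ hsl p n (dg (q * x) n p) hp.pos hp2
      have h3 : ‖(1 / (2 : ℂ) ^ (i + 1)) * ∑ j ∈ range (2 ^ (i + 1)), G (n + j)‖ ≤ 3 := by
        rw [norm_mul, hnL]
        have h4 : ‖∑ j ∈ range (2 ^ (i + 1)), G (n + j)‖ ≤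
            ∑ j ∈ range (2 ^ (i + 1)), (if p ∣ n + j then (p : ℝ) else 0) :=
          (norm_sum_le _ _).trans (sum_le_sum fun j _ => hGn _)
        have h45 : ∑ j ∈ range (2 ^ (i + 1)), (if p ∣ n + j then (p : ℝ) else 0) =
            (((range (2 ^ (i + 1))).filter (fun j => p ∣ n + j)).card : ℝ) * p := by
          rw [← sum_filter, sum_const, nsmul_eq_mul]
        rw [h45] at h4
        have h5 := card_dvd p n (2 ^ (i + 1)) hp.pos
        push_cast at h5
        rw [div_mul_eq_mul_div, one_mul, div_le_iff₀ hL0]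
        linarith
      have h4 := norm_sub_le (zz Φ i (q * x) q A sl Λ p n (dg (q * x) n p))
        ((1 / (2 : ℂ) ^ (i + 1)) * ∑ j ∈ range (2 ^ (i + 1)), G (n + j))
      linarith
  have h2 := avgs i N G (2 ^ (i + 1)) hGp
  have h3 : ∑ m ∈ range N, G m = (p : ℂ) * ∑ k ∈ range (N / p), Ψ p (p * k) * ee ((A / q + β) * k) := by
    have e1 := mult p (N / p) hp.pos (fun k => (p : ℂ) * Ψ p (p * k) * ee ((A / q + β) * (k : ℝ)))
    rw [Nat.mul_div_cancel' hpN] at e1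
    rw [hG]
    show ∑ m ∈ range N, (if p ∣ m then (p : ℂ) * Ψ p (p * (m / p)) *
      ee ((A / q + β) * ((m / p : ℕ) : ℝ)) else 0) = _
    rw [e1, mul_sum]
    refine sum_congr rfl fun k _ => ?_
    ring
  have h5 : ∑ n ∈ range N, zz Φ i (q * x) q A sl Λ p n (dg (q * x) n p) -
      p * ∑ k ∈ range (N / p), Ψ p (p * k) * ee ((A / q + β) * k) =
      ∑ n ∈ range N, (zz Φ i (q * x) q A sl Λ p n (dg (q * x) n p) -
        (1 / (2 : ℂ) ^ (i + 1)) * ∑ j ∈ range (2 ^ (i + 1)), G (n + j)) +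
      (∑ n ∈ range N, (1 / (2 : ℂ) ^ (i + 1)) * ∑ j ∈ range (2 ^ (i + 1)), G (n + j) - ∑ n ∈ range N, G n) := by
    rw [sum_sub_distrib, h3]
    ring
  rw [h5]
  refine (norm_add_le _ _).trans ?_
  have h6 := (norm_sum_le (range N) (fun n => zz Φ i (q * x) q A sl Λ p n (dg (q * x) n p) -
        (1 / (2 : ℂ) ^ (i + 1)) * ∑ j ∈ range (2 ^ (i + 1)), G (n + j))).trans h1
  linarith

/-- the average of the averages over the digits is a bilinear sum -/
lemma partB (p : ℕ) (hp : p.Prime) (_hp2 : p ≤ 2 ^ (i + 1)) (hpT : ¬ p ∣ q * x)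
    (hΦΨ : ∀ n j, n + W ≤ N → j < 2 ^ (i + 1) → ‖Φ p (n + j) - Ψ p (n + j)‖ ≤ δ)
    (hρ : ∀ n < N, ∀ j : ℕ, j < 2 ^ (i + 1) → ‖sl p (n / Λ) - ee (β * (n + j) / p)‖ ≤ ρ) :
    ‖∑ n ∈ range N, (∑ y ∈ range p, zz Φ i (q * x) q A sl Λ p n y) / p -
      ∑ m ∈ range N, Ψ p m * ee (th A q β p * m)‖ ≤ (ρ + δ) * N + 2 * (W : ℝ) + 2 * 2 ^ (i + 1) * 1 := by
  have hcop : p.Coprime q := by
    rw [Nat.Prime.coprime_iff_not_dvd hp]
    intro hd
    exact hpT (dvd_mul_of_dvd_left hd x)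
  set G : ℕ → ℂ := fun m => Ψ p m * ee (th A q β p * m) with hG
  have hGp : ∀ m, ‖G m‖ ≤ 1 := by
    intro m
    rw [hG]
    show ‖Ψ p m * ee (th A q β p * m)‖ ≤ 1
    rw [norm_mul, c_norm_ee, mul_one]
    exact hΨ _ _
  have hρδ : 0 ≤ ρ + δ := add_nonneg hρ0 hδ0
  have hL0 : (0 : ℝ) < 2 ^ (i + 1) := by positivity
  have hnL : ‖(1 / (2 : ℂ) ^ (i + 1))‖ = 1 / (2 : ℝ) ^ (i + 1) := by
    rw [norm_div, norm_pow]
    simp
  have hav : ∀ n, (∑ y ∈ range p, zz Φ i (q * x) q A sl Λ p n y) / p =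
      (1 / (2 : ℂ) ^ (i + 1)) * (∑ j ∈ range (2 ^ (i + 1)),
        Φ p (n + j) * eq A q (iv q p * (n + j))) * sl p (n / Λ) := fun n =>
    avg_coprime Φ i (q * x) x q A sl Λ rfl hq p n (iv q p) hp hpT (iv_spec q p hq hcop).2
  have h1 : ∑ n ∈ range N, ‖(∑ y ∈ range p, zz Φ i (q * x) q A sl Λ p n y) / p -
      (1 / (2 : ℂ) ^ (i + 1)) * ∑ j ∈ range (2 ^ (i + 1)), G (n + j)‖ ≤
      (ρ + δ) * N + 2 * (W : ℝ) := by
    apply spl N W _ (ρ + δ) 2 hρδ (by norm_num)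
    · intro n hn
      have h2 : ∀ j ∈ range (2 ^ (i + 1)), Φ p (n + j) * eq A q (iv q p * (n + j)) *
          sl p (n / Λ) - G (n + j) = eq A q (iv q p * (n + j)) * (Φ p (n + j) *
            (sl p (n / Λ) - ee (β * (n + j) / p)) + (Φ p (n + j) - Ψ p (n + j)) * ee (β * (n + j) / p)) := by
        intro j hj
        rw [hG]
        show _ - Ψ p (n + j) * ee (th A q β p * ((n + j : ℕ) : ℝ)) = _
        have e3 : ee (th A q β p * ((n + j : ℕ) : ℝ)) = eq A q (iv q p * (n + j)) * ee (β * (n + j) / p) := by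
          unfold eq th
          rw [← c_ee_add]
          congr 1
          push_cast
          ring
        rw [e3]
        ring
      have h3 : (∑ y ∈ range p, zz Φ i (q * x) q A sl Λ p n y) / p -
          (1 / (2 : ℂ) ^ (i + 1)) * ∑ j ∈ range (2 ^ (i + 1)), G (n + j) =
          (1 / (2 : ℂ) ^ (i + 1)) * ∑ j ∈ range (2 ^ (i + 1)),
            (eq A q (iv q p * (n + j)) * (Φ p (n + j) *
            (sl p (n / Λ) - ee (β * (n + j) / p)) + (Φ p (n + j) - Ψ p (n + j)) * ee (β * (n + j) / p))) := by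
        rw [← sum_congr rfl h2, sum_sub_distrib, ← sum_mul, hav]
        ring
      rw [h3, norm_mul, hnL]
      have h4 : ‖∑ j ∈ range (2 ^ (i + 1)),
            (eq A q (iv q p * (n + j)) * (Φ p (n + j) *
            (sl p (n / Λ) - ee (β * (n + j) / p)) + (Φ p (n + j) - Ψ p (n + j)) * ee (β * (n + j) / p)))‖ ≤
            ∑ j ∈ range (2 ^ (i + 1)), (ρ + δ) := by
        refine (norm_sum_le _ _).trans (sum_le_sum fun j hj => ?_)
        rw [norm_mul, norm_eq, one_mul]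
        refine (norm_add_le _ _).trans ?_
        rw [norm_mul, norm_mul, c_norm_ee, mul_one]
        have h2W : 0 < 2 ^ (i + 1) := by positivity
        have h7 := hρ n (by omega) j (mem_range.1 hj)
        have h8 := hΦΨ n j hn (mem_range.1 hj)
        have h9 : ‖Φ p (n + j)‖ * ‖sl p (n / Λ) - ee (β * (n + j) / p)‖ ≤ 1 * ρ :=
          mul_le_mul (hΦ _ _) h7 (norm_nonneg _) zero_le_one
        linarith
      rw [sum_const, card_range, nsmul_eq_mul] at h4
      push_cast at h4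
      rw [div_mul_eq_mul_div, one_mul, div_le_iff₀ hL0]
      linarith
    · intro n _
      have h2 : ‖(∑ y ∈ range p, zz Φ i (q * x) q A sl Λ p n y) / p‖ ≤ 1 := by
        rw [hav, norm_mul, norm_mul, hnL]
        have h4 : ‖∑ j ∈ range (2 ^ (i + 1)), Φ p (n + j) * eq A q (iv q p * (n + j))‖ ≤
            ∑ j ∈ range (2 ^ (i + 1)), (1 : ℝ) := by
          refine (norm_sum_le _ _).trans (sum_le_sum fun j _ => ?_)
          rw [norm_mul, norm_eq, mul_one]
          exact hΦ _ _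
        rw [sum_const, card_range, nsmul_eq_mul, mul_one] at h4
        push_cast at h4
        have h5 : 1 / (2 : ℝ) ^ (i + 1) * ‖∑ j ∈ range (2 ^ (i + 1)),
            Φ p (n + j) * eq A q (iv q p * (n + j))‖ ≤ 1 := by
          rw [div_mul_eq_mul_div, one_mul, div_le_one hL0]
          exact h4
        exact mul_le_one₀ h5 (norm_nonneg _) (hsl _ _)
      have h3 : ‖(1 / (2 : ℂ) ^ (i + 1)) * ∑ j ∈ range (2 ^ (i + 1)), G (n + j)‖ ≤ 1 := by
        rw [norm_mul, hnL]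
        have h4 : ‖∑ j ∈ range (2 ^ (i + 1)), G (n + j)‖ ≤ ∑ j ∈ range (2 ^ (i + 1)), (1 : ℝ) :=
          (norm_sum_le _ _).trans (sum_le_sum fun j _ => hGp _)
        rw [sum_const, card_range, nsmul_eq_mul, mul_one] at h4
        push_cast at h4
        rw [div_mul_eq_mul_div, one_mul, div_le_one hL0]
        exact h4
      have h4 := norm_sub_le ((∑ y ∈ range p, zz Φ i (q * x) q A sl Λ p n y) / p)
        ((1 / (2 : ℂ) ^ (i + 1)) * ∑ j ∈ range (2 ^ (i + 1)), G (n + j))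
      linarith
  have h2 := avgs i N G 1 hGp
  have h5 : ∑ n ∈ range N, (∑ y ∈ range p, zz Φ i (q * x) q A sl Λ p n y) / p -
      ∑ m ∈ range N, Ψ p m * ee (th A q β p * m) =
      ∑ n ∈ range N, ((∑ y ∈ range p, zz Φ i (q * x) q A sl Λ p n y) / p -
        (1 / (2 : ℂ) ^ (i + 1)) * ∑ j ∈ range (2 ^ (i + 1)), G (n + j)) +
      (∑ n ∈ range N, (1 / (2 : ℂ) ^ (i + 1)) * ∑ j ∈ range (2 ^ (i + 1)), G (n + j) - ∑ n ∈ range N, G n) := by
    rw [sum_sub_distrib]
    rw [hG]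
    ring
  rw [h5]
  refine (norm_add_le _ _).trans ?_
  have h6 := (norm_sum_le (range N) (fun n => (∑ y ∈ range p, zz Φ i (q * x) q A sl Λ p n y) / p -
        (1 / (2 : ℂ) ^ (i + 1)) * ∑ j ∈ range (2 ^ (i + 1)), G (n + j))).trans h1
  linarith

end one_scale

/-- decoupling for complex valued local functions -/
theorem dvz (Φ : ℕ → ℕ → ℂ) (hΦ : ∀ p n, ‖Φ p n‖ ≤ 1) (W i N q x : ℕ) (hqx : 1 ≤ q * x) (A : ℤ)
    (P : Finset ℕ) (hP : P ⊆ QD i (i + 1)) (hN : (q * x) * (∏ p ∈ P, p) ∣ N) {𝒜 : Type} (a : ℕ → 𝒜)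
    (hwin : ∀ p ∈ P, ∀ n m, win W a n = win W a m → ∀ j < 2 ^ (i + 1), Φ p (n + j) = Φ p (m + j))
    {B : Type} (σ : ℕ → B) (sl : ℕ → ℕ → ℂ) (hsl : ∀ p b, ‖sl p b‖ ≤ 1)
    (hdet : ∀ b b', σ b = σ b' → ∀ p, sl p b = sl p b') (w : ℕ → ℝ)
    (τ : ℝ) (hτ : 0 < τ) :
    ∑ p ∈ P, w p * ‖∑ n ∈ range N,
      (zz Φ i (q * x) q A sl ((q * x) * ∏ p ∈ P, p) p n (dg (q * x) n p) -
        (∑ y ∈ range p, zz Φ i (q * x) q A sl ((q * x) * ∏ p ∈ P, p) p n y) / p)‖ ≤
      1 / τ * (N * Real.log 2 + Df N W (q * x) (∏ p ∈ P, p)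
        a (fun n => σ (n / ((q * x) * ∏ p ∈ P, p)))) +
        N * (τ * (2 * 3 ^ 2) * ∑ p ∈ P, w p ^ 2) := by
  classical
  set Λ := (q * x) * ∏ p ∈ P, p with hΛ
  choose c hc1 hc2 using fun p : ℕ => uni (∑ n ∈ range N,
      (zz Φ i (q * x) q A sl Λ p n (dg (q * x) n p) -
        (∑ y ∈ range p, zz Φ i (q * x) q A sl Λ p n y) / p))
  set g : ℕ → ℕ → ℕ → ℝ := fun p n y => if p ∈ P then (c p * zz Φ i (q * x) q A sl Λ p n y).re else 0 with hg
  have hg1 : ∀ p n y, |g p n y| ≤ 3 := by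
    intro p n y
    rw [hg]
    show |(if p ∈ P then (c p * zz Φ i (q * x) q A sl Λ p n y).re else 0)| ≤ 3
    split_ifs with h1
    · refine (Complex.abs_re_le_norm _).trans ?_
      rw [norm_mul]
      have h2 := QD_mem (hP h1)
      have h3 := norm_zz Φ i (q * x) q A sl Λ hΦ hsl p n y h2.1.pos h2.2.2
      calc ‖c p‖ * ‖zz Φ i (q * x) q A sl Λ p n y‖ ≤ 1 * 3 :=
            mul_le_mul (hc1 p) h3 (norm_nonneg _) zero_le_one
        _ = 3 := by norm_num
    · rw [abs_zero]; norm_num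
  have key := dv N W (q * x) hqx P (fun p hp => (QD_mem (hP hp)).1) hN a σ w g 3 τ hτ hg1 (by
      intro p n m hw hmod hσ y
      rw [hg]
      show (if p ∈ P then (c p * zz Φ i (q * x) q A sl Λ p n y).re else 0) =
        (if p ∈ P then (c p * zz Φ i (q * x) q A sl Λ p m y).re else 0)
      by_cases h1 : p ∈ P
      · rw [if_pos h1, if_pos h1]
        have h4 : zz Φ i (q * x) q A sl Λ p n y = zz Φ i (q * x) q A sl Λ p m y := by
          unfold zz
          rw [hdet _ _ hσ p, hmod]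
          congr 2
          refine sum_congr rfl fun j hj => ?_
          rw [mem_range] at hj
          unfold zt
          rw [hwin p h1 n m hw j hj]
        rw [h4]
      · rw [if_neg h1, if_neg h1])
  refine le_trans ?_ key
  have h1 : ∀ p ∈ P, w p * ‖∑ n ∈ range N,
      (zz Φ i (q * x) q A sl Λ p n (dg (q * x) n p) -
        (∑ y ∈ range p, zz Φ i (q * x) q A sl Λ p n y) / p)‖ =
      ∑ n ∈ range N, w p * (g p n (dg (q * x) n p) - (∑ y ∈ range p, g p n y) / p) := by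
    intro p hp
    rw [← mul_sum]
    congr 1
    have h2 := congrArg Complex.re (hc2 p)
    rw [Complex.ofReal_re, mul_sum, Complex.re_sum] at h2
    rw [← h2]
    refine sum_congr rfl fun n _ => ?_
    rw [mul_sub, Complex.sub_re, hg]
    show _ = (if p ∈ P then (c p * zz Φ i (q * x) q A sl Λ p n (dg (q * x) n p)).re else 0) -
      (∑ y ∈ range p, (if p ∈ P then (c p * zz Φ i (q * x) q A sl Λ p n y).re else 0)) / p
    simp only [if_pos hp]
    congr 1
    rw [← Complex.re_sum, ← mul_sum, ← mul_div_assoc]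
    exact Complex.div_natCast_re _ _
  rw [sum_congr rfl h1, sum_comm]
  refine sum_le_sum fun n _ => ?_
  exact le_abs_self _

/-- **one scale**: `Z p` is the correlation sum (up to the error `ef` of the multiplicativity), and the
bilinear sums are bounded by `e N` -/
theorem scale (Φ : ℕ → ℕ → ℂ) (hΦ : ∀ p n, ‖Φ p n‖ ≤ 1) (Ψ : ℕ → ℕ → ℂ) (hΨ : ∀ p n, ‖Ψ p n‖ ≤ 1)
    (W i N q x K : ℕ) (hi : 1 ≤ i) (hq : 1 ≤ q) (hx : 1 ≤ x) (hK : 1 ≤ K)
    (A : ℤ) (β : ℝ) (hA : IsCoprime A (q : ℤ)) (P : Finset ℕ) (hP : P ⊆ QD i (i + 1))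
    (hPx : ∀ p ∈ P, ¬ p ∣ x) (hN : (q * x) * (∏ p ∈ P, p) ∣ N) (hΛ : 2 ^ (i + 1) ≤ (q * x) * ∏ p ∈ P, p)
    (hW : 2 ^ (i + 1) ≤ W) (δ : ℝ) (hδ0 : 0 ≤ δ) {𝒜 : Type} (a : ℕ → 𝒜)
    (hwin : ∀ p ∈ P, ∀ n m, win W a n = win W a m → ∀ j < 2 ^ (i + 1), Φ p (n + j) = Φ p (m + j))
    (hΦΨ : ∀ p ∈ P, ∀ n j, n + W ≤ N → j < 2 ^ (i + 1) → ‖Φ p (n + j) - Ψ p (n + j)‖ ≤ δ)
    (Z : ℕ → ℂ) (ef : ℝ) (hef : 0 ≤ ef)
    (hZ : ∀ p ∈ P, ‖(p : ℂ) * ∑ k ∈ range (N / p), Ψ p (p * k) * ee ((A / q + β) * k) - Z p‖ ≤ ef)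
    (e : ℝ) (hbil : ∑ p ∈ P.filter (fun p => ¬ p ∣ q), Real.log p / 2 ^ i *
      ‖∑ m ∈ range N, Ψ p m * ee (th A q β p * m)‖ ≤ e * N)
    (κ : ℝ) (hκ : 0 < κ) :
    ∑ p ∈ P, Real.log p / 2 ^ i * ‖Z p‖ ≤
      i / (κ * 2 ^ i) * (N * Real.log 2 + Df N W (q * x) (∏ p ∈ P, p) a
          (fun n => sg K N ((q * x) * ∏ p ∈ P, p) β P (n / ((q * x) * ∏ p ∈ P, p)))) +
        N * (76 * κ) +
        3 * (4 * (7 / K + 14 * (|β| * ((q * x) * ∏ p ∈ P, p : ℕ)) + δ) * N + 8 * W + 12 * 4 ^ (i + 1) + ef)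
          + e * N := by
  have hqx : 1 ≤ q * x := Nat.mul_pos hq hx
  have hir : (1 : ℝ) ≤ i := by exact_mod_cast hi
  set Λ := (q * x) * ∏ p ∈ P, p with hΛd
  have hΛ1 : 1 ≤ Λ := le_trans (Nat.one_le_pow _ _ (by norm_num)) hΛ
  set ρ : ℝ := 7 / K + 14 * (|β| * Λ) with hρd
  have hρ0 : 0 ≤ ρ := by positivity
  have hτ : 0 < κ * 2 ^ i / i := by positivity
  have hρ : ∀ p ∈ P, ∀ n < N, ∀ j : ℕ, j < 2 ^ (i + 1) →
      ‖slw K N Λ β P p (n / Λ) - ee (β * (n + j) / p)‖ ≤ ρ := fun p hp n hn j hj =>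
    slw_close K N Λ hK β P hΛ1 hN p n j hp (QD_mem (hP hp)).1.pos hn (hj.le.trans hΛ)
  have hsl := slw_norm K N Λ β P
  have h1 := dvz Φ hΦ W i N q x hqx A P hP hN a hwin (sg K N Λ β P) (slw K N Λ β P)
    hsl (slw_det K N Λ β P) (fun p => Real.log p / 2 ^ i) (κ * 2 ^ i / i) hτ
  rw [← hΛd] at h1
  set sl := slw K N Λ β P with hsld
  set e' : ℝ := 4 * (ρ + δ) * N + 8 * W + 12 * 4 ^ (i + 1) + ef with he'
  have h2 : ∀ p ∈ P, ‖Z p‖ ≤
      ‖∑ n ∈ range N, (zz Φ i (q * x) q A sl Λ p n (dg (q * x) n p) -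
        (∑ y ∈ range p, zz Φ i (q * x) q A sl Λ p n y) / p)‖ +
      ‖(if p ∣ q then (0 : ℂ) else ∑ m ∈ range N, Ψ p m * ee (th A q β p * m))‖ + e' := by
    intro p hp
    have hpp := QD_mem (hP hp)
    have hpN : p ∣ N := ((dvd_prod_of_mem _ hp).trans (dvd_mul_left _ _)).trans hN
    have hA1 := partA Φ hΦ Ψ hΨ W i N q x hq A β sl hsl Λ ρ δ hρ0 hδ0 hW p hpp.1 hpp.2.2 hpN (hΦΨ p hp) (hρ p hp)
    have hB1 : ‖∑ n ∈ range N, (∑ y ∈ range p, zz Φ i (q * x) q A sl Λ p n y) / p -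
        (if p ∣ q then (0 : ℂ) else ∑ m ∈ range N, Ψ p m * ee (th A q β p * m))‖ ≤
        (ρ + δ) * N + 2 * (W : ℝ) + 2 * 2 ^ (i + 1) * 1 := by
      split_ifs with hpq
      · have h3 : ∀ n ∈ range N, (∑ y ∈ range p, zz Φ i (q * x) q A sl Λ p n y) / p = 0 := by
          intro n _
          rw [avg_dvd Φ i (q * x) x q A sl Λ rfl hq p n hpp.1 hpq (hPx p hp) (by
            intro hd
            have h4 : (p : ℤ) ∣ (q : ℤ) := by exact_mod_cast hpq
            have h5 := hA.isUnit_of_dvd' hd h4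
            have h6 := Int.isUnit_iff.1 h5
            have h7 := hpp.1.two_le
            rcases h6 with h6 | h6 <;> omega), zero_div]
        rw [sum_eq_zero h3, sub_zero, norm_zero]
        positivity
      · exact partB Φ hΦ Ψ hΨ W i N q x hq A β sl hsl Λ ρ δ hρ0 hδ0 hW p hpp.1 hpp.2.2 (by
          intro hd
          rcases (Nat.Prime.dvd_mul hpp.1).1 hd with hd | hd
          · exact hpq hd
          · exact hPx p hp hd) (hΦΨ p hp) (hρ p hp)
    have h3 : Z p =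
        ∑ n ∈ range N, (zz Φ i (q * x) q A sl Λ p n (dg (q * x) n p) -
          (∑ y ∈ range p, zz Φ i (q * x) q A sl Λ p n y) / p) +
        (if p ∣ q then (0 : ℂ) else ∑ m ∈ range N, Ψ p m * ee (th A q β p * m)) -
        (∑ n ∈ range N, zz Φ i (q * x) q A sl Λ p n (dg (q * x) n p) -
          p * ∑ k ∈ range (N / p), Ψ p (p * k) * ee ((A / q + β) * k)) +
        (∑ n ∈ range N, (∑ y ∈ range p, zz Φ i (q * x) q A sl Λ p n y) / p -
          (if p ∣ q then (0 : ℂ) else ∑ m ∈ range N, Ψ p m * ee (th A q β p * m))) -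
        (p * ∑ k ∈ range (N / p), Ψ p (p * k) * ee ((A / q + β) * k) - Z p) := by
      rw [sum_sub_distrib]
      ring
    have tri4 : ∀ a b c d e : ℂ, ‖a + b - c + d - e‖ ≤ ‖a‖ + ‖b‖ + ‖c‖ + ‖d‖ + ‖e‖ := by
      intro a b c d e
      have t1 := norm_sub_le (a + b - c + d) e
      have t2 := norm_add_le (a + b - c) d
      have t3 := norm_sub_le (a + b) c
      have t4 := norm_add_le a b
      linarith
    conv_lhs => rw [h3]
    refine (tri4 _ _ _ _ _).trans ?_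
    have h4 := hZ p hp
    have h8 : (4 : ℝ) ^ (i + 1) = 2 ^ (i + 1) * 2 ^ (i + 1) := by
      rw [← mul_pow]; norm_num
    have h9 : (1 : ℝ) ≤ 2 ^ (i + 1) := one_le_pow₀ (by norm_num)
    have h10 : (2 : ℝ) ^ (i + 1) ≤ 2 ^ (i + 1) * 2 ^ (i + 1) := by nlinarith
    have hW0 : (0 : ℝ) ≤ W := Nat.cast_nonneg W
    rw [he', h8]
    linarith
  have he0 : 0 ≤ e' := by rw [he']; positivity
  have h4 : ∑ p ∈ P, (Real.log (p : ℝ) / 2 ^ i) ^ 2 ≤ (i + 1) * Real.log 2 / 2 ^ i * 3 := by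
    have e1 : ∀ p ∈ P, (Real.log (p : ℝ) / 2 ^ i) ^ 2 ≤ (i + 1) * Real.log 2 / 2 ^ i * (Real.log (p : ℝ) / 2 ^ i) := by
      intro p hp
      rw [sq]
      exact mul_le_mul_of_nonneg_right (w_le i p (hP hp)) (w_nonneg i p)
    refine (sum_le_sum e1).trans ?_
    rw [← mul_sum]
    apply mul_le_mul_of_nonneg_left (w_sum i P hP)
    have : 0 < Real.log 2 := Real.log_pos (by norm_num)
    positivity
  have h5 : (κ * 2 ^ i / i) * (2 * 3 ^ 2) * ∑ p ∈ P, (Real.log (p : ℝ) / 2 ^ i) ^ 2 ≤ 76 * κ := by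
    calc (κ * 2 ^ i / i) * (2 * 3 ^ 2) * ∑ p ∈ P, (Real.log (p : ℝ) / 2 ^ i) ^ 2 ≤
        (κ * 2 ^ i / i) * (2 * 3 ^ 2) * ((i + 1) * Real.log 2 / 2 ^ i * 3) :=
          mul_le_mul_of_nonneg_left h4 (by positivity)
      _ = κ * (54 * Real.log 2 * ((i + 1) / i)) := by field_simp; ring
      _ ≤ κ * 76 := by
          apply mul_le_mul_of_nonneg_left _ hκ.le
          have e1 : ((i : ℝ) + 1) / i ≤ 2 := by
            rw [div_le_iff₀ (by linarith)]
            linarith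
          have e2 := Real.log_two_lt_d9
          have e3 : 0 < Real.log 2 := Real.log_pos (by norm_num)
          nlinarith
      _ = 76 * κ := by ring
  have h6 : 1 / (κ * 2 ^ i / i) = i / (κ * 2 ^ i) := by rw [one_div_div]
  rw [h6] at h1
  have h7 : (N : ℝ) * ((κ * 2 ^ i / i) * (2 * 3 ^ 2) * ∑ p ∈ P, (Real.log (p : ℝ) / 2 ^ i) ^ 2) ≤ N * (76 * κ) :=
    mul_le_mul_of_nonneg_left h5 (Nat.cast_nonneg N)
  have h8 : ∑ p ∈ P, Real.log p / 2 ^ i *
      ‖(if p ∣ q then (0 : ℂ) else ∑ m ∈ range N, Ψ p m * ee (th A q β p * m))‖ ≤ e * N := by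
    refine le_trans (le_of_eq ?_) hbil
    rw [sum_filter]
    refine sum_congr rfl fun p _ => ?_
    by_cases h3 : p ∣ q
    · rw [if_pos h3, if_neg (not_not.2 h3), norm_zero, mul_zero]
    · rw [if_neg h3, if_pos h3]
  calc ∑ p ∈ P, Real.log p / 2 ^ i * ‖Z p‖ ≤
      ∑ p ∈ P, (Real.log p / 2 ^ i * ‖∑ n ∈ range N, (zz Φ i (q * x) q A sl Λ p n (dg (q * x) n p) -
        (∑ y ∈ range p, zz Φ i (q * x) q A sl Λ p n y) / p)‖ + Real.log p / 2 ^ i *
        ‖(if p ∣ q then (0 : ℂ) else ∑ m ∈ range N, Ψ p m * ee (th A q β p * m))‖ + Real.log p / 2 ^ i * e') := by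
        refine sum_le_sum fun p hp => ?_
        rw [← mul_add, ← mul_add]
        exact mul_le_mul_of_nonneg_left (h2 p hp) (w_nonneg i p)
    _ = ∑ p ∈ P, Real.log p / 2 ^ i * ‖∑ n ∈ range N, (zz Φ i (q * x) q A sl Λ p n (dg (q * x) n p) -
        (∑ y ∈ range p, zz Φ i (q * x) q A sl Λ p n y) / p)‖ + ∑ p ∈ P, Real.log p / 2 ^ i *
        ‖(if p ∣ q then (0 : ℂ) else ∑ m ∈ range N, Ψ p m * ee (th A q β p * m))‖ +
        (∑ p ∈ P, Real.log p / 2 ^ i) * e' := by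
        rw [sum_add_distrib, sum_add_distrib, sum_mul]
    _ ≤ _ := by
        have h9 : (∑ p ∈ P, Real.log (p : ℝ) / 2 ^ i) * e' ≤ 3 * e' :=
          mul_le_mul_of_nonneg_right (w_sum i P hP) he0
        linarith

end Pool.Agent.Y842.PG
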