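import Pool.Agent.Y842.PG.BilR

/-!
Library Y842.PG (helper842), part 6: separation of the frequencies `A p⁻¹ / q + β / p`.
-/

set_option autoImplicit false

open Finset

namespace Pool.Agent.Y842.PG

open Pool.Agent.Y842.PH
open Pool.Agent.Helper602.MK (ee)
open Pool.Agent.Y958.TC (iv)

/-- all iterated differences are positive -/
def CM : ℕ → (ℕ → ℝ) → Prop
  | 0, u => ∀ x : ℕ, 1 ≤ x → 0 < u x
  | n + 1, u => ∀ g : ℕ, 1 ≤ g → CM n (fun x => u x - u (x + g))

lemma CM_congr (n : ℕ) : ∀ u v : ℕ → ℝ, (∀ x, 1 ≤ x → u x = v x) → CM n u → CM n v := by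
  induction n with
  | zero =>
    intro u v h hu x hx
    rw [← h x hx]
    exact hu x hx
  | succ n ih =>
    intro u v h hu g hg
    exact ih _ _ (fun x hx => by rw [h x hx, h (x + g) (by omega)]) (hu g hg)

lemma CM_add (n : ℕ) : ∀ u v : ℕ → ℝ, CM n u → CM n v → CM n (fun x => u x + v x) := by
  induction n with
  | zero =>
    intro u v hu hv x hx
    have := hu x hx
    have := hv x hx
    show 0 < u x + v x
    linarith
  | succ n ih =>
    intro u v hu hv g hg
    exact CM_congr n _ _ (fun x _ => by ring) (ih _ _ (hu g hg) (hv g hg))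

lemma CM_shift (n : ℕ) : ∀ (u : ℕ → ℝ) (a : ℕ), CM n u → CM n (fun x => u (x + a)) := by
  induction n with
  | zero =>
    intro u a hu x hx
    exact hu (x + a) (by omega)
  | succ n ih =>
    intro u a hu g hg
    exact CM_congr n _ _ (fun x _ => by rw [show x + a + g = x + g + a by ring]) (ih _ a (hu g hg))

lemma CM_smul (n : ℕ) : ∀ (u : ℕ → ℝ) (c : ℝ), 0 < c → CM n u → CM n (fun x => c * u x) := by
  induction n with
  | zero =>
    intro u c hc hu x hx
    exact mul_pos hc (hu x hx)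
  | succ n ih =>
    intro u c hc hu g hg
    exact CM_congr n _ _ (fun x _ => by ring) (ih _ c hc (hu g hg))

lemma CM_mul (n : ℕ) : ∀ u v : ℕ → ℝ, (∀ j ≤ n, CM j u) → (∀ j ≤ n, CM j v) → CM n (fun x => u x * v x) := by
  induction n with
  | zero =>
    intro u v hu hv x hx
    exact mul_pos (hu 0 le_rfl x hx) (hv 0 le_rfl x hx)
  | succ n ih =>
    intro u v hu hv g hg
    have h1 := ih (fun x => u x - u (x + g)) v (fun j hj => hu (j + 1) (by omega) g hg)
      (fun j hj => hv j (by omega))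
    have h2 := ih (fun x => u (x + g)) (fun x => v x - v (x + g)) (fun j hj => CM_shift j u g (hu j (by omega)))
      (fun j hj => hv (j + 1) (by omega) g hg)
    exact CM_congr n _ _ (fun x _ => by ring) (CM_add n _ _ h1 h2)

lemma CM_inv (n : ℕ) : ∀ a : ℕ, ∀ j ≤ n, CM j (fun x => 1 / ((x + a : ℕ) : ℝ)) := by
  induction n with
  | zero =>
    intro a j hj
    obtain rfl : j = 0 := by omega
    intro x hx
    show 0 < 1 / ((x + a : ℕ) : ℝ)
    have : 0 < ((x + a : ℕ) : ℝ) := by exact_mod_cast (by omega : 0 < x + a)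
    positivity
  | succ n ih =>
    intro a j hj
    rcases Nat.lt_or_ge j (n + 1) with h | h
    · exact ih a j (by omega)
    · obtain rfl : j = n + 1 := by omega
      intro g hg
      have h1 := CM_mul n _ _ (ih a) (ih (a + g))
      have hg0 : (0 : ℝ) < g := by exact_mod_cast hg
      refine CM_congr n _ _ (fun x hx => ?_) (CM_smul n _ (g : ℝ) hg0 h1)
      have e1 : (0 : ℝ) < ((x + a : ℕ) : ℝ) := by exact_mod_cast (by omega : 0 < x + a)
      have e2 : (0 : ℝ) < ((x + (a + g) : ℕ) : ℝ) := by exact_mod_cast (by omega : 0 < x + (a + g))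
      have e3 : ((x + g + a : ℕ) : ℝ) = ((x + (a + g) : ℕ) : ℝ) := by
        congr 1
        ring
      show (g : ℝ) * (1 / ((x + a : ℕ) : ℝ) * (1 / ((x + (a + g) : ℕ) : ℝ))) =
        1 / ((x + a : ℕ) : ℝ) - 1 / ((x + g + a : ℕ) : ℝ)
      rw [e3]
      have e4 : ((x + (a + g) : ℕ) : ℝ) = ((x + a : ℕ) : ℝ) + g := by push_cast; ring
      rw [e4] at e2 ⊢
      field_simp
      ring

/-- general form of the separation -/
lemma sp_gen (N i q F : ℕ) (hq : 1 ≤ q) (hF : 1 ≤ F) (β : ℝ) (hN1 : (q : ℝ) * 2 ^ i ≤ N)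
    (hN2 : F * 2 ^ i ≤ |β| * N) : ∀ (r : ℕ) (B : ℝ), 0 ≤ B → |β| * (2 ^ r * B) ≤ 1 / (2 * q) →
    ∀ (P : Finset ℕ), (∀ p ∈ P, 1 ≤ p) → ∀ (θ : ℕ → ℝ) (n : ℕ → ℤ) (u : ℕ → ℝ),
    (∀ p ∈ P, θ p = n p / q + β * u p) → CM r u → (∀ p ∈ P, |u p| ≤ B) → (∀ p ∈ P, ∃ z : ℤ, F * u p = z) →
    Sp N i r P θ := by
  have hq0 : (0 : ℝ) < q := by exact_mod_cast hq
  have hF0 : (0 : ℝ) < F := by exact_mod_cast hF
  intro r
  induction r with
  | zero =>
    intro B hB hβ P hP1 θ n u hθ hu huB huz p hp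
    have hu0 : 0 < u p := hu p (hP1 p hp)
    have hF2 : (0 : ℝ) < F * 2 ^ i := by positivity
    have hβ0 : 0 < |β| := by
      rcases (abs_nonneg β).lt_or_eq with h0 | h0
      · exact h0
      · exfalso
        rw [← h0, zero_mul] at hN2
        linarith
    obtain ⟨z, hz⟩ := huz p hp
    have hu1 : 1 / F ≤ u p := by
      have h1 : (0 : ℝ) < z := by
        rw [← hz]
        positivity
      have h2 : (1 : ℤ) ≤ z := by
        have : (0 : ℤ) < z := by exact_mod_cast h1
        omega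
      have h3 : (1 : ℝ) ≤ z := by exact_mod_cast h2
      rw [div_le_iff₀ hF0, mul_comm]
      linarith
    have hδ : 0 < min (1 / (2 * (q : ℝ))) (|β| / F) := lt_min (by positivity) (by positivity)
    have hsep : ∀ k : ℤ, min (1 / (2 * (q : ℝ))) (|β| / F) ≤ |θ p - k| := by
      intro k
      rw [hθ p hp]
      have e0 : (n p : ℝ) / q + β * u p - k = ((n p - k * q : ℤ) : ℝ) / q + β * u p := by
        push_cast
        field_simp
        ring
      rw [e0]
      have hβu : |β * u p| ≤ 1 / (2 * q) := by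
        rw [abs_mul]
        refine le_trans ?_ hβ
        rw [pow_zero, one_mul]
        exact mul_le_mul_of_nonneg_left (huB p hp) (abs_nonneg _)
      rcases eq_or_ne (n p - k * q) 0 with h0 | h0
      · rw [h0]
        refine (min_le_right _ _).trans ?_
        rw [Int.cast_zero, zero_div, zero_add, abs_mul, div_eq_mul_one_div]
        apply mul_le_mul_of_nonneg_left _ (abs_nonneg _)
        rw [abs_of_pos hu0]
        exact hu1
      · refine (min_le_left _ _).trans ?_
        have e1 : 1 / (q : ℝ) ≤ |((n p - k * q : ℤ) : ℝ) / q| := by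
          rw [abs_div, abs_of_pos hq0]
          apply div_le_div_of_nonneg_right _ hq0.le
          have := Int.one_le_abs h0
          exact_mod_cast this
        have e3 : |((n p - k * q : ℤ) : ℝ) / q| - |β * u p| ≤ |((n p - k * q : ℤ) : ℝ) / q + β * u p| := by
          have := abs_sub_abs_le_abs_sub (((n p - k * q : ℤ) : ℝ) / q) (-(β * u p))
          rw [abs_neg, sub_neg_eq_add] at this
          exact this
        have e4 : 1 / (q : ℝ) = 1 / (2 * q) + 1 / (2 * q) := by field_simp; ring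
        linarith
    have h3 := geo (θ p) _ hδ hsep N
    have h4 : 1 / (2 * min (1 / (2 * (q : ℝ))) (|β| / F)) * 2 ^ i ≤ N := by
      rw [div_mul_eq_mul_div, one_mul, div_le_iff₀ (by positivity)]
      rcases min_choice (1 / (2 * (q : ℝ))) (|β| / F) with h | h
      · rw [h]
        have e1 : (N : ℝ) * (2 * (1 / (2 * q))) = N / q := by field_simp
        rw [e1, le_div_iff₀ hq0]
        linarith
      · rw [h]
        have e1 : (N : ℝ) * (2 * (|β| / F)) = 2 * (|β| * N) / F := by ring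
        rw [e1, le_div_iff₀ hF0]
        have : (0 : ℝ) ≤ F * 2 ^ i := hF2.le
        linarith
    exact (mul_le_mul_of_nonneg_right h3 (by positivity)).trans h4
  | succ r ih =>
    intro B hB hβ P hP1 θ n u hθ hu huB huz g hg
    refine ih (2 * B) (by positivity) (by
      refine le_trans (le_of_eq ?_) hβ
      rw [pow_succ 2 r]
      ring) _ (fun p hp => hP1 p (filter_subset _ _ hp)) _ (fun p => n p - n (p + g)) (fun p => u p - u (p + g))
      ?_ (hu g hg) ?_ ?_
    · intro p hp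
      rw [mem_filter] at hp
      show θ p - θ (p + g) = ((n p - n (p + g) : ℤ) : ℝ) / q + β * (u p - u (p + g))
      rw [hθ p hp.1, hθ (p + g) hp.2]
      push_cast
      ring
    · intro p hp
      rw [mem_filter] at hp
      have h1 := huB p hp.1
      have h2 := huB (p + g) hp.2
      have h3 := abs_sub (u p) (u (p + g))
      show |u p - u (p + g)| ≤ 2 * B
      linarith
    · intro p hp
      rw [mem_filter] at hp
      obtain ⟨z1, h1⟩ := huz p hp.1
      obtain ⟨z2, h2⟩ := huz (p + g) hp.2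
      refine ⟨z1 - z2, ?_⟩
      show F * (u p - u (p + g)) = ((z1 - z2 : ℤ) : ℝ)
      push_cast
      rw [← h1, ← h2]
      ring

/-- separation of the frequencies -/
lemma sp_th (r i N : ℕ) (A : ℤ) (q : ℕ) (hq : 1 ≤ q) (β : ℝ) (hβ : |β| * (2 ^ (r + 1) * q) ≤ 1)
    (P : Finset ℕ) (hP : ∀ p ∈ P, 1 ≤ p ∧ p ≤ 2 ^ (i + 1)) (hN1 : (q : ℝ) * 2 ^ i ≤ N)
    (hN2 : ((2 ^ (i + 1)).factorial : ℝ) * 2 ^ i ≤ |β| * N) : Sp N i r P (th A q β) := by
  have hq0 : (0 : ℝ) < q := by exact_mod_cast hq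
  refine sp_gen N i q (2 ^ (i + 1)).factorial hq (Nat.factorial_pos _) β hN1 hN2 r 1 zero_le_one (by
    rw [mul_one, le_div_iff₀ (by positivity)]
    refine le_trans (le_of_eq ?_) hβ
    rw [pow_succ]
    ring) P (fun p hp => (hP p hp).1) (th A q β) (fun p => A * (iv q p : ℤ)) (fun p => 1 / ((p + 0 : ℕ) : ℝ)) ?_
    (CM_inv r 0 r le_rfl) ?_ ?_
  · intro p _
    unfold th
    show A * (iv q p : ℝ) / q + β / p = ((A * (iv q p : ℤ) : ℤ) : ℝ) / q + β * (1 / ((p + 0 : ℕ) : ℝ))
    push_cast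
    ring
  · intro p hp
    show |1 / ((p + 0 : ℕ) : ℝ)| ≤ 1
    have : (1 : ℝ) ≤ ((p + 0 : ℕ) : ℝ) := by exact_mod_cast (hP p hp).1
    rw [abs_of_nonneg (by positivity), div_le_one (by linarith)]
    exact this
  · intro p hp
    have h1 : p ∣ (2 ^ (i + 1)).factorial := Nat.dvd_factorial (hP p hp).1 (hP p hp).2
    obtain ⟨z, hz⟩ := h1
    refine ⟨(z : ℤ), ?_⟩
    have hp0 : (p : ℝ) ≠ 0 := by
      have := (hP p hp).1
      exact_mod_cast (by omega : p ≠ 0)
    show (((2 ^ (i + 1)).factorial : ℕ) : ℝ) * (1 / ((p + 0 : ℕ) : ℝ)) = ((z : ℤ) : ℝ)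
    rw [hz, add_zero]
    push_cast
    field_simp

end Pool.Agent.Y842.PG
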