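import Pool.Agent.Y842.PG.Cells
import Pool.Agent.Y842.PG.Sep

/-!
Library Y842.PG (helper842), part 8: products of any number of shifted functions, phases away from
rationals with small denominators.
-/

set_option autoImplicit false

open Finset

namespace Pool.Agent.Y842.PG

open Pool.Agent.Y842.PH
open Pool.Agent.Helper602.MK (ee)
open Pool.Agent.TH112.BL (QD)
open Pool.Agent.Y304.U (sE)

/-- the phase is far from rationals with small denominators -/
def GdM (R N : ℕ) (α : ℝ) : Prop := ∀ q : ℕ, 1 ≤ q → q ≤ R → ∀ A : ℤ, (R : ℝ) ≤ |α - A / q| * N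

/-- the class of functions -/
def CF {r : ℕ} (G : Fin r → ℕ → ℂ) : Prop := (∀ t n, ‖G t n‖ ≤ 1) ∧ ∀ p : ℕ, p.Prime → ∀ t, Flp (G t) p

/-- **minor arcs**, products of any number of functions, uniformly -/
theorem minor {r : ℕ} (hr : 1 ≤ r) (h : ℕ) (hs : Fin r → ℕ) (hhs : ∀ t, hs t ≤ h) (δ : ℝ) (hδ : 0 < δ)
    (hδ1 : δ ≤ 1) (η : ℝ) (hη : 0 < η) :
    ∃ R X₀ : ℕ, ∀ X : ℕ, X₀ ≤ X → ∀ G : Fin r → ℕ → ℂ, CF G → sE (Bad G hs GdM R δ) X ≤ η * Real.log X := by
  refine cells hs CF (fun G hG => hG.1) GdM ?_ ?_ ?_ δ hδ hδ1 η hη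
  · intro R R' N α hRR hG q hq hqR A
    refine le_trans ?_ (hG q hq (hqR.trans hRR) A)
    exact_mod_cast hRR
  · intro R N N' α hNN hG q hq hqR A
    refine (hG q hq hqR A).trans ?_
    apply mul_le_mul_of_nonneg_left _ (abs_nonneg _)
    exact_mod_cast hNN
  intro ε hε
  obtain ⟨D, hD, Bc, hBc, b₀, hch⟩ := chain_g hr h hs hhs ε hε
  obtain ⟨I₁, hI₁⟩ := cc_lim r 1 (ε / 10) (by positivity)
  refine ⟨D, hD, Bc, hBc, b₀ + I₁ + r + 1, fun b hb n => ?_⟩
  obtain ⟨M₀, hM₀⟩ := hch b (by omega) n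
  set I : ℕ := b + n * D with hI
  refine ⟨2 ^ (8 * 2 ^ I) + 2 * ((2 ^ (I + 1)).factorial * 2 ^ I), M₀ + 2 * (2 ^ (8 * 2 ^ I) * 2 ^ I +
    2 ^ I * (4 * 2 ^ I * (2 ^ r * h))), fun M hM G hG α S hS hGd => ?_⟩
  choose A q β hq1 hqY hAq hα hβ using fun k : ℕ => dir (α k) (2 ^ (8 * 2 ^ (b + k * D))) (by positivity)
  have h1 := hM₀ M (by omega) G hG.1 A q β S hS (fun k p hp t => hG.2 p (QD_mem (hS k hp)).1 t) hq1 hqY hAq
    hβ (by
      intro k hk N hNM hMN P hP hPq
      rcases P.eq_empty_or_nonempty with hPe | hPne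
      · rw [hPe, sum_empty]
        positivity
      have hne : (S k).Nonempty := hPne.mono hP
      have hGk := hGd k hk hne
      set i := b + k * D with hi
      have hiI : i ≤ I := by
        rw [hI, hi]
        have := Nat.mul_le_mul_right D hk.le
        omega
      have hib : b ≤ i := by rw [hi]; omega
      have h2iI : 2 ^ i ≤ 2 ^ I := Nat.pow_le_pow_right (by norm_num) hiI
      have hqI : q k ≤ 2 ^ (8 * 2 ^ I) := (hqY k).trans (Nat.pow_le_pow_right (by norm_num)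
        (Nat.mul_le_mul_left _ h2iI))
      have e2 : α k - A k / q k = β k := by rw [hα k]; ring
      have hβM := hGk (q k) (hq1 k) (hqI.trans (Nat.le_add_right _ _)) (A k)
      rw [e2] at hβM
      have hfac : (2 ^ (i + 1)).factorial * 2 ^ i ≤ (2 ^ (I + 1)).factorial * 2 ^ I :=
        Nat.mul_le_mul (Nat.factorial_le (Nat.pow_le_pow_right (by norm_num) (by omega))) h2iI
      have hβN : ((2 ^ (i + 1)).factorial : ℝ) * 2 ^ i ≤ |β k| * N := by
        have e1 : (M : ℝ) ≤ 2 * N := by exact_mod_cast hMN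
        have e3 : |β k| * M ≤ |β k| * (2 * N) := mul_le_mul_of_nonneg_left e1 (abs_nonneg _)
        have e4 : (((2 ^ (i + 1)).factorial * 2 ^ i : ℕ) : ℝ) ≤ (((2 ^ (I + 1)).factorial * 2 ^ I : ℕ) : ℝ) := by
          exact_mod_cast hfac
        have e5 : (0 : ℝ) ≤ ((2 ^ (8 * 2 ^ I) : ℕ) : ℝ) := Nat.cast_nonneg _
        push_cast at hβM e4 e5
        linarith
      have hN2 : 2 ^ (8 * 2 ^ I) * 2 ^ I + 2 ^ I * (4 * 2 ^ I * (2 ^ r * h)) ≤ N := by omega
      refine bilpr G hG.1 h hs hhs i N P (hP.trans (hS k)) _ (sp_th r i N (A k) (q k) (hq1 k) (β k) ?_ P (fun p hp => ?_) ?_ hβN)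
        ?_ (ε / 10) ?_
      · refine le_trans ?_ (hβ k)
        rw [mul_comm (2 ^ (r + 1) : ℝ)]
        apply mul_le_mul_of_nonneg_left _ (abs_nonneg _)
        apply mul_le_mul_of_nonneg_left _ (Nat.cast_nonneg _)
        have : 2 ^ (r + 1) ≤ 2 ^ (8 * 2 ^ (b + k * D)) := Nat.pow_le_pow_right (by norm_num) (by
          have : b + k * D < 2 ^ (b + k * D) := Nat.lt_two_pow_self
          omega)
        exact_mod_cast this
      · have := QD_mem (hS k (hP hp))
        exact ⟨this.1.pos, this.2.2⟩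
      · have e1 : q k * 2 ^ i ≤ N := by
          have e3 : q k * 2 ^ i ≤ 2 ^ (8 * 2 ^ I) * 2 ^ I := Nat.mul_le_mul hqI h2iI
          omega
        exact_mod_cast e1
      · refine le_trans ?_ ((Nat.le_add_left _ _).trans hN2)
        exact Nat.mul_le_mul h2iI (Nat.mul_le_mul_right _ (Nat.mul_le_mul_left _ h2iI))
      · have := hI₁ i (by omega)
        rw [pow_one] at this
        exact this)
  refine le_trans (le_of_eq ?_) h1
  refine sum_congr rfl fun k _ => ?_
  rw [← hα k]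

end Pool.Agent.Y842.PG
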