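import Pool.Agent.Y842.PG.Loc

/-!
Library Y842.PG (helper842), part 2: products of shifted functions, codes of their values, the relation
at a prime.
-/

set_option autoImplicit false

open Finset

namespace Pool.Agent.Y842.PG

open Pool.Agent.Y842.PH
open Pool.Agent.Helper602.MK (ee)
open Pool.Agent.Helper602.MK.N_J1c (c_ee_add c_ee_int c_norm_ee c_norm_ee_sub_one_le c_norm_ee_sub_one_ge)
open Pool.Agent.TH112.BL (QD)
open Pool.Agent.TH575.CW (win theta_QD)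

/-- finite nets of the unit disc -/
lemma net (δ : ℝ) (hδ : 0 < δ) : ∃ (s : ℕ) (c : Fin s → ℂ) (cod : ℂ → Fin s), (∀ j, ‖c j‖ ≤ 1) ∧
    ∀ z : ℂ, ‖z‖ ≤ 1 → ‖c (cod z) - z‖ ≤ δ := by
  classical
  obtain ⟨t, ht1, ht2, ht3⟩ := (isCompact_closedBall (0 : ℂ) 1).finite_cover_balls hδ
  set T : Finset ℂ := ht2.toFinset with hT
  have hmem : ∀ z : ℂ, ‖z‖ ≤ 1 → ∃ x ∈ T, ‖x - z‖ ≤ δ := by
    intro z hz
    have h1 := ht3 (show z ∈ Metric.closedBall (0 : ℂ) 1 by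
      rw [Metric.mem_closedBall, dist_zero_right]; exact hz)
    rw [Set.mem_iUnion₂] at h1
    obtain ⟨x, hx, hx2⟩ := h1
    rw [Metric.mem_ball, dist_comm, dist_eq_norm] at hx2
    exact ⟨x, by rw [hT, Set.Finite.mem_toFinset]; exact hx, hx2.le⟩
  have hTn : ∀ x ∈ T, ‖x‖ ≤ 1 := by
    intro x hx
    rw [hT, Set.Finite.mem_toFinset] at hx
    have := ht1 hx
    rwa [Metric.mem_closedBall, dist_zero_right] at this
  obtain ⟨x₀, hx₀, -⟩ := hmem 0 (by simp)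
  have hpos : 0 < T.card := card_pos.2 ⟨x₀, hx₀⟩
  set e := T.equivFin with he
  refine ⟨T.card, fun j => (e.symm j : ℂ), fun z => if h : ∃ x ∈ T, ‖x - z‖ ≤ δ then
    e ⟨h.choose, h.choose_spec.1⟩ else ⟨0, hpos⟩, fun j => hTn _ (e.symm j).2, fun z hz => ?_⟩
  have h := hmem z hz
  simp only
  rw [dif_pos h, Equiv.symm_apply_apply]
  exact h.choose_spec.2

lemma prod_norm_le {ι : Type} (s : Finset ι) (a : ι → ℂ) (ha : ∀ t, ‖a t‖ ≤ 1) : ‖∏ t ∈ s, a t‖ ≤ 1 := by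
  rw [norm_prod]
  exact prod_le_one (fun _ _ => norm_nonneg _) (fun t _ => ha t)

lemma prod_sub_le {ι : Type} (s : Finset ι) (a b : ι → ℂ) (ha : ∀ t, ‖a t‖ ≤ 1) (hb : ∀ t, ‖b t‖ ≤ 1) :
    ‖∏ t ∈ s, a t - ∏ t ∈ s, b t‖ ≤ ∑ t ∈ s, ‖a t - b t‖ := by
  classical
  induction s using Finset.induction_on with
  | empty => simp
  | insert x s hx ih =>
    rw [prod_insert hx, prod_insert hx, sum_insert hx]
    have e : a x * ∏ t ∈ s, a t - b x * ∏ t ∈ s, b t =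
        (a x - b x) * ∏ t ∈ s, a t + b x * (∏ t ∈ s, a t - ∏ t ∈ s, b t) := by ring
    rw [e]
    refine (norm_add_le _ _).trans ?_
    rw [norm_mul, norm_mul]
    have h1 := prod_norm_le s a ha
    have h2 : ‖a x - b x‖ * ‖∏ t ∈ s, a t‖ ≤ ‖a x - b x‖ * 1 := mul_le_mul_of_nonneg_left h1 (norm_nonneg _)
    have h3 : ‖b x‖ * ‖∏ t ∈ s, a t - ∏ t ∈ s, b t‖ ≤ 1 * ‖∏ t ∈ s, a t - ∏ t ∈ s, b t‖ :=
      mul_le_mul_of_nonneg_right (hb x) (norm_nonneg _)
    linarith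

/-- the product of the shifted functions -/
noncomputable def pr {r : ℕ} (G : Fin r → ℕ → ℂ) (hs : Fin r → ℕ) (s m : ℕ) : ℂ := ∏ t, G t (m + s * hs t)

lemma pr_le {r : ℕ} (G : Fin r → ℕ → ℂ) (hG : ∀ t n, ‖G t n‖ ≤ 1) (hs : Fin r → ℕ) (s m : ℕ) :
    ‖pr G hs s m‖ ≤ 1 := prod_norm_le _ _ (fun _ => hG _ _)

/-- the correlation sums -/
noncomputable def Cg {r : ℕ} (G : Fin r → ℕ → ℂ) (hs : Fin r → ℕ) (N : ℕ) (α : ℝ) : ℂ :=
  ∑ n ∈ range N, pr G hs 1 n * ee (α * n)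

lemma Cg_le {r : ℕ} (G : Fin r → ℕ → ℂ) (hG : ∀ t n, ‖G t n‖ ≤ 1) (hs : Fin r → ℕ) (M : ℕ) (α : ℝ) :
    ‖Cg G hs M α‖ ≤ M := by
  unfold Cg
  refine (norm_sum_le _ _).trans ?_
  refine (sum_le_sum (g := fun _ => (1 : ℝ)) fun m _ => ?_).trans (by simp)
  rw [norm_mul, c_norm_ee, mul_one]
  exact pr_le G hG hs 1 m

lemma Cg_sub {r : ℕ} (G : Fin r → ℕ → ℂ) (hG : ∀ t n, ‖G t n‖ ≤ 1) (hs : Fin r → ℕ) (N M : ℕ) (hNM : N ≤ M)
    (α : ℝ) : ‖Cg G hs M α - Cg G hs N α‖ ≤ (M : ℝ) - N := by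
  unfold Cg
  rw [← sum_range_add_sum_Ico _ hNM, add_sub_cancel_left]
  refine (norm_sum_le _ _).trans ?_
  have e : ((M - N : ℕ) : ℝ) = (M : ℝ) - N := by
    rw [Nat.cast_sub hNM]
  refine (sum_le_sum (g := fun _ => (1 : ℝ)) fun m _ => ?_).trans (by
    rw [sum_const, Nat.card_Ico, nsmul_eq_mul, mul_one, e])
  rw [norm_mul, c_norm_ee, mul_one]
  exact pr_le G hG hs 1 m

/-- changing `N` -/
lemma convg {r : ℕ} (G : Fin r → ℕ → ℂ) (hG : ∀ t n, ‖G t n‖ ≤ 1) (hs : Fin r → ℕ) (M N p T : ℕ) (α : ℝ)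
    (hp : 1 ≤ p) (hN : 0 < N) (hNM : N ≤ M) (hMT : M ≤ N + T) :
    p * ‖Cg G hs (M / p) α‖ / M ≤ p * ‖Cg G hs (N / p) α‖ / N + (T + p) / M := by
  have hN0 : (0 : ℝ) < N := by exact_mod_cast hN
  have hM0 : (0 : ℝ) < M := by exact_mod_cast (lt_of_lt_of_le hN hNM)
  have h1 := Cg_sub G hG hs (N / p) (M / p) (Nat.div_le_div_right hNM) α
  have h2 : (p : ℝ) * (((M / p : ℕ) : ℝ) - ((N / p : ℕ) : ℝ)) ≤ T + p := by
    have e1 : p * (M / p) ≤ M := Nat.mul_div_le M p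
    have e2 : N < p * (N / p) + p := by
      have := Nat.lt_mul_div_succ N (by omega : 0 < p)
      rw [mul_add, mul_one] at this
      exact this
    have e3 : p * (M / p) ≤ p * (N / p) + (T + p) := by omega
    have e4 : (p : ℝ) * ((M / p : ℕ) : ℝ) ≤ p * ((N / p : ℕ) : ℝ) + (T + p) := by exact_mod_cast e3
    linarith
  have h3 : (p : ℝ) * ‖Cg G hs (M / p) α‖ ≤ p * ‖Cg G hs (N / p) α‖ + (T + p) := by
    have e1 := norm_sub_norm_le (Cg G hs (M / p) α) (Cg G hs (N / p) α)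
    have e2 : (0 : ℝ) ≤ p := Nat.cast_nonneg p
    nlinarith
  calc (p : ℝ) * ‖Cg G hs (M / p) α‖ / M ≤ (p * ‖Cg G hs (N / p) α‖ + (T + p)) / M :=
        div_le_div_of_nonneg_right h3 hM0.le
    _ = p * ‖Cg G hs (N / p) α‖ / M + (T + p) / M := add_div _ _ _
    _ ≤ _ := by
        have : (p : ℝ) * ‖Cg G hs (N / p) α‖ / M ≤ p * ‖Cg G hs (N / p) α‖ / N := by
          apply div_le_div_of_nonneg_left (by positivity) hN0
          exact_mod_cast hNM
        linarith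

/-- the relation at a prime -/
def Flp (G : ℕ → ℂ) (p : ℕ) : Prop := ∃ c : ℂ, ‖c‖ = 1 ∧ ∀ n, ¬ p ∣ n → G (p * n) = c * G n

/-- multiplicativity: the sum over the multiples of `p` -/
lemma flipg {r : ℕ} (G : Fin r → ℕ → ℂ) (hG : ∀ t n, ‖G t n‖ ≤ 1) (hs : Fin r → ℕ) (i p N : ℕ)
    (hp : 1 ≤ p) (hpi : 2 ^ i ≤ p) (hpi2 : p ≤ 2 ^ (i + 1)) (hF : ∀ t, Flp (G t) p) (α : ℝ) :
    ∃ C : ℂ, ‖C‖ = 1 ∧ ‖(p : ℂ) * ∑ k ∈ range (N / p), pr G hs p (p * k) * ee (α * k) -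
      C * (p * Cg G hs (N / p) α)‖ ≤ 2 * r * (N / 2 ^ i + 4 * 2 ^ i) := by
  classical
  choose c hc1 hc2 using hF
  refine ⟨∏ t, c t, by rw [norm_prod]; simp [hc1], ?_⟩
  set C := ∏ t, c t with hC
  have hCn : ‖C‖ = 1 := by rw [hC, norm_prod]; simp [hc1]
  have e1 : (p : ℂ) * ∑ k ∈ range (N / p), pr G hs p (p * k) * ee (α * k) - C * (p * Cg G hs (N / p) α) =
      p * ∑ k ∈ range (N / p), (pr G hs p (p * k) - C * pr G hs 1 k) * ee (α * k) := by
    unfold Cg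
    rw [← mul_assoc, mul_comm C, mul_assoc, ← mul_sub, mul_sum, ← sum_sub_distrib]
    congr 1
    refine sum_congr rfl fun k _ => ?_
    ring
  rw [e1, norm_mul, Complex.norm_natCast]
  have h1 : ∀ k, ‖(pr G hs p (p * k) - C * pr G hs 1 k) * ee (α * k)‖ ≤
      ∑ t, (if p ∣ hs t + k then (2 : ℝ) else 0) := by
    intro k
    rw [norm_mul, c_norm_ee, mul_one]
    by_cases h : ∃ t, p ∣ hs t + k
    · obtain ⟨t, ht⟩ := h
      have h2 : (2 : ℝ) ≤ ∑ t, (if p ∣ hs t + k then (2 : ℝ) else 0) := by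
        have h6 : (if p ∣ hs t + k then (2 : ℝ) else 0) ≤ ∑ t, (if p ∣ hs t + k then (2 : ℝ) else 0) :=
          single_le_sum (f := fun t => (if p ∣ hs t + k then (2 : ℝ) else 0))
            (fun t _ => by split_ifs <;> norm_num) (mem_univ t)
        rw [if_pos ht] at h6
        exact h6
      refine le_trans ?_ h2
      have h3 := norm_sub_le (pr G hs p (p * k)) (C * pr G hs 1 k)
      rw [norm_mul, hCn, one_mul] at h3
      have h4 := pr_le G hG hs p (p * k)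
      have h5 := pr_le G hG hs 1 k
      linarith
    · push Not at h
      have h2 : pr G hs p (p * k) = C * pr G hs 1 k := by
        unfold pr
        rw [hC, ← prod_mul_distrib]
        refine prod_congr rfl fun t _ => ?_
        rw [show p * k + p * hs t = p * (k + hs t) by ring, one_mul]
        apply hc2
        rw [add_comm]
        exact h t
      rw [h2, sub_self, norm_zero]
      exact sum_nonneg fun t _ => by split_ifs <;> norm_num
  have h2 : ‖∑ k ∈ range (N / p), (pr G hs p (p * k) - C * pr G hs 1 k) * ee (α * k)‖ ≤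
      ∑ t : Fin r, 2 * (((range (N / p)).filter (fun k => p ∣ hs t + k)).card : ℝ) := by
    refine (norm_sum_le _ _).trans ((sum_le_sum fun k _ => h1 k).trans (le_of_eq ?_))
    rw [sum_comm]
    refine sum_congr rfl fun t _ => ?_
    rw [← sum_filter, sum_const, nsmul_eq_mul, mul_comm]
  have hp0 : (0 : ℝ) < p := by exact_mod_cast hp
  calc (p : ℝ) * ‖∑ k ∈ range (N / p), (pr G hs p (p * k) - C * pr G hs 1 k) * ee (α * k)‖ ≤
      p * ∑ t : Fin r, 2 * (((range (N / p)).filter (fun k => p ∣ hs t + k)).card : ℝ) :=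
        mul_le_mul_of_nonneg_left h2 hp0.le
    _ = ∑ t : Fin r, 2 * ((((range (N / p)).filter (fun k => p ∣ hs t + k)).card : ℝ) * p) := by
        rw [mul_sum]
        refine sum_congr rfl fun t _ => ?_
        ring
    _ ≤ ∑ t : Fin r, 2 * ((N : ℝ) / 2 ^ i + 4 * 2 ^ i) := by
        refine sum_le_sum fun t _ => ?_
        have h3 := card_dvd p (hs t) (N / p) hp
        have h4 : ((N / p : ℕ) : ℝ) ≤ N / 2 ^ i := by
          refine (Nat.cast_div_le).trans ?_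
          apply div_le_div_of_nonneg_left (Nat.cast_nonneg N) (by positivity)
          exact_mod_cast hpi
        have h5 : (p : ℝ) ≤ 2 * 2 ^ i := by
          have : (p : ℝ) ≤ 2 ^ (i + 1) := by exact_mod_cast hpi2
          rw [pow_succ] at this
          linarith
        linarith
    _ = 2 * r * (N / 2 ^ i + 4 * 2 ^ i) := by
        rw [sum_const, card_univ, Fintype.card_fin, nsmul_eq_mul]
        ring

end Pool.Agent.Y842.PG
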