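import Pool.Agent.Y842.PG.Net

/-!
Library Y842.PG (helper842), part 3: one scale, normalised, for products of general functions.
-/

set_option autoImplicit false

open Finset

namespace Pool.Agent.Y842.PG

open Pool.Agent.Y842.PH
open Pool.Agent.Helper602.MK (ee)
open Pool.Agent.Helper602.MK.N_J1c (c_norm_ee)
open Pool.Agent.TH112.BL (QD)
open Pool.Agent.TH575.CW (win theta_QD)

/-- codes of the values -/
def code {r s : ℕ} (cod : ℂ → Fin s) (G : Fin r → ℕ → ℂ) (N n : ℕ) : Fin r → Fin s := fun t => cod (G t (n % N))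

lemma code_per {r s : ℕ} (cod : ℂ → Fin s) (G : Fin r → ℕ → ℂ) (N n : ℕ) :
    code cod G N (n + N) = code cod G N n := by
  unfold code
  rw [Nat.add_mod_right]

/-- one scale, normalised -/
theorem one_g {r s : ℕ} (c : Fin s → ℂ) (cod : ℂ → Fin s) (hc : ∀ j, ‖c j‖ ≤ 1) (ε : ℝ) (hε : 0 < ε)
    (hr : 1 ≤ r) (hcod : ∀ z : ℂ, ‖z‖ ≤ 1 → ‖c (cod z) - z‖ ≤ ε / (240 * r))
    (G : Fin r → ℕ → ℂ) (hG : ∀ t n, ‖G t n‖ ≤ 1) (h : ℕ) (hs : Fin r → ℕ) (hhs : ∀ t, hs t ≤ h)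
    (i N M T q x K : ℕ) (hi : 1 ≤ i) (hq : 1 ≤ q)
    (hx : 1 ≤ x) (hK : 1 ≤ K) (A : ℤ) (β : ℝ) (hA : IsCoprime A (q : ℤ)) (P : Finset ℕ) (hP : P ⊆ QD i (i + 1))
    (hF : ∀ p ∈ P, ∀ t, Flp (G t) p)
    (hPx : ∀ p ∈ P, ¬ p ∣ x) (hN : (q * x) * (∏ p ∈ P, p) ∣ N) (hΛ : 2 ^ (i + 1) ≤ (q * x) * ∏ p ∈ P, p)
    (hβΛ : |β| * ((q * x) * ∏ p ∈ P, p : ℕ) ≤ 1 / K)
    (hN0 : 0 < N) (hNM : N ≤ M) (hMT : M ≤ N + T)
    (hbil : ∑ p ∈ P.filter (fun p => ¬ p ∣ q), Real.log p / 2 ^ i *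
      ‖∑ m ∈ range N, pr G hs p m * ee (th A q β p * m)‖ ≤ ε / 10 * N)
    (hKε : 5040 / ε ≤ K) (hiε : 120 * r / ε ≤ 2 ^ i)
    (hi1 : (i : ℝ) * Real.log 2 / (ε / 760 * 2 ^ i) ≤ ε / 10)
    (hN3 : 3000 * (1 + h + r) * 4 ^ i / ε ≤ N)
    (hM5 : 30 * (T + 2 ^ (i + 1)) / ε ≤ M) :
    ∑ p ∈ P, Real.log p / 2 ^ i * (p * ‖Cg G hs (M / p) (A / q + β)‖ / M) ≤
      i / (ε / 760 * 2 ^ i) * (Df N (2 * (1 + h) * 2 ^ i) (q * x) (∏ p ∈ P, p) (code cod G N)
          (fun n => sg K N ((q * x) * ∏ p ∈ P, p) β P (n / ((q * x) * ∏ p ∈ P, p))) / N) + 7 * ε / 10 := by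
  classical
  have hNr : (0 : ℝ) < N := by exact_mod_cast hN0
  have hMr : (0 : ℝ) < M := by exact_mod_cast (lt_of_lt_of_le hN0 hNM)
  have hir : (1 : ℝ) ≤ i := by exact_mod_cast hi
  have hKr : (0 : ℝ) < K := by exact_mod_cast hK
  have hrr : (1 : ℝ) ≤ r := by exact_mod_cast hr
  set Φ : ℕ → ℕ → ℂ := fun p m => ∏ t, c (code cod G N (m + p * hs t) t) with hΦ
  have hΦ1 : ∀ p n, ‖Φ p n‖ ≤ 1 := fun p n => prod_norm_le _ _ (fun t => hc _)
  have hW0 : ∀ p ∈ P, ∀ t, ∀ j : ℕ, j < 2 ^ (i + 1) → j + p * hs t < 2 * (1 + h) * 2 ^ i := by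
    intro p hp t j hj
    have h1 := (QD_mem (hP hp)).2.2
    have h2 : p * hs t ≤ 2 ^ (i + 1) * h := Nat.mul_le_mul h1 (hhs t)
    have h3 : 2 * (1 + h) * 2 ^ i = 2 ^ (i + 1) + 2 ^ (i + 1) * h := by rw [pow_succ]; ring
    omega
  choose C hC1 hC2 using fun p : P => flipg G hG hs i p N (QD_mem (hP p.2)).1.pos (QD_mem (hP p.2)).2.1.le
    (QD_mem (hP p.2)).2.2 (hF p p.2) (A / q + β)
  set Z : ℕ → ℂ := fun p => if hp : p ∈ P then C ⟨p, hp⟩ * (p * Cg G hs (N / p) (A / q + β)) else 0 with hZ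
  have hZn : ∀ p ∈ P, ‖Z p‖ = p * ‖Cg G hs (N / p) (A / q + β)‖ := by
    intro p hp
    rw [hZ]
    simp only
    rw [dif_pos hp, norm_mul, hC1 ⟨p, hp⟩, one_mul, norm_mul, Complex.norm_natCast]
  have h1 := scale Φ hΦ1 (pr G hs) (pr_le G hG hs) (2 * (1 + h) * 2 ^ i) i N q x K hi hq hx hK A β hA P hP hPx
    hN hΛ (by
      rw [show 2 * (1 + h) * 2 ^ i = 2 ^ (i + 1) * (1 + h) by rw [pow_succ]; ring]
      exact Nat.le_mul_of_pos_right _ (by omega)) (ε / 240) (by positivity) (code cod G N) (by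
      intro p hp n m hw j hj
      rw [hΦ]
      show ∏ t, c (code cod G N (n + j + p * hs t) t) = ∏ t, c (code cod G N (m + j + p * hs t) t)
      refine prod_congr rfl fun t _ => ?_
      have h2 := congrFun hw ⟨j + p * hs t, hW0 p hp t j hj⟩
      unfold win at h2
      simp only at h2
      rw [show n + j + p * hs t = n + (j + p * hs t) by ring,
        show m + j + p * hs t = m + (j + p * hs t) by ring, h2]) (by
      intro p hp n j hn hj
      rw [hΦ]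
      unfold pr
      show ‖∏ t, c (code cod G N (n + j + p * hs t) t) - ∏ t, G t (n + j + p * hs t)‖ ≤ ε / 240
      refine (prod_sub_le _ _ _ (fun t => hc _) (fun t => hG _ _)).trans ?_
      have h2 : ∀ t ∈ (univ : Finset (Fin r)), ‖c (code cod G N (n + j + p * hs t) t) - G t (n + j + p * hs t)‖ ≤
          ε / (240 * r) := by
        intro t _
        have h3 := hW0 p hp t j hj
        unfold code
        rw [Nat.mod_eq_of_lt (by omega)]
        exact hcod _ (hG _ _)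
      refine (sum_le_sum h2).trans (le_of_eq ?_)
      rw [sum_const, card_univ, Fintype.card_fin, nsmul_eq_mul]
      field_simp) Z (2 * r * (N / 2 ^ i + 4 * 2 ^ i)) (by positivity) (by
      intro p hp
      rw [hZ]
      simp only
      rw [dif_pos hp]
      exact hC2 ⟨p, hp⟩) (ε / 10) hbil (ε / 760) (by positivity)
  set Λ := (q * x) * ∏ p ∈ P, p with hΛd
  set Dv := Df N (2 * (1 + h) * 2 ^ i) (q * x) (∏ p ∈ P, p) (code cod G N)
          (fun n => sg K N Λ β P (n / Λ)) with hDv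
  have h0 : ∑ p ∈ P, Real.log p / 2 ^ i * ‖Z p‖ =
      ∑ p ∈ P, Real.log p / 2 ^ i * (p * ‖Cg G hs (N / p) (A / q + β)‖) :=
    sum_congr rfl fun p hp => by rw [hZn p hp]
  rw [h0] at h1
  have h2 : ∑ p ∈ P, Real.log p / 2 ^ i * (p * ‖Cg G hs (M / p) (A / q + β)‖ / M) ≤
      (∑ p ∈ P, Real.log p / 2 ^ i * (p * ‖Cg G hs (N / p) (A / q + β)‖)) / N + ε / 10 := by
    have e1 : ∀ p ∈ P, Real.log p / 2 ^ i * (p * ‖Cg G hs (M / p) (A / q + β)‖ / M) ≤
        Real.log p / 2 ^ i * (p * ‖Cg G hs (N / p) (A / q + β)‖) / N +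
          Real.log p / 2 ^ i * ((T + 2 ^ (i + 1)) / M) := by
      intro p hp
      have hpp := QD_mem (hP hp)
      have e2 := convg G hG hs M N p T (A / q + β) hpp.1.pos hN0 hNM hMT
      have e3 : ((T : ℝ) + p) / M ≤ (T + 2 ^ (i + 1)) / M := by
        apply div_le_div_of_nonneg_right _ hMr.le
        have : (p : ℝ) ≤ 2 ^ (i + 1) := by exact_mod_cast hpp.2.2
        linarith
      calc Real.log (p : ℝ) / 2 ^ i * (p * ‖Cg G hs (M / p) (A / q + β)‖ / M) ≤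
          Real.log (p : ℝ) / 2 ^ i * (p * ‖Cg G hs (N / p) (A / q + β)‖ / N + (T + 2 ^ (i + 1)) / M) :=
            mul_le_mul_of_nonneg_left (e2.trans (by linarith)) (w_nonneg i p)
        _ = _ := by ring
    refine (sum_le_sum e1).trans ?_
    rw [sum_add_distrib, ← sum_div, ← sum_mul]
    have e4 : (∑ p ∈ P, Real.log (p : ℝ) / 2 ^ i) * ((T + 2 ^ (i + 1)) / M) ≤ ε / 10 := by
      calc (∑ p ∈ P, Real.log (p : ℝ) / 2 ^ i) * ((T + 2 ^ (i + 1)) / M) ≤ 3 * ((T + 2 ^ (i + 1)) / M) :=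
            mul_le_mul_of_nonneg_right (w_sum i P hP) (by positivity)
        _ ≤ ε / 10 := by
            rw [div_le_iff₀ hε] at hM5
            rw [← mul_div_assoc, div_le_iff₀ hMr]
            linarith
    linarith
  refine h2.trans ?_
  have h3 : (∑ p ∈ P, Real.log p / 2 ^ i * (p * ‖Cg G hs (N / p) (A / q + β)‖)) / N ≤
      i / (ε / 760 * 2 ^ i) * (Dv / N) + 6 * ε / 10 := by
    rw [div_le_iff₀ hNr]
    refine h1.trans ?_
    have e1 : (i : ℝ) / (ε / 760 * 2 ^ i) * (Dv / N) * N = i / (ε / 760 * 2 ^ i) * Dv := by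
      field_simp
    have e2 : (i : ℝ) / (ε / 760 * 2 ^ i) * (N * Real.log 2) ≤ ε / 10 * N := by
      calc (i : ℝ) / (ε / 760 * 2 ^ i) * (N * Real.log 2) = (i * Real.log 2 / (ε / 760 * 2 ^ i)) * N := by ring
        _ ≤ ε / 10 * N := mul_le_mul_of_nonneg_right hi1 hNr.le
    have e3 : (7 : ℝ) / K + 14 * (|β| * (Λ : ℕ)) ≤ 21 / K := by
      have : (21 : ℝ) / K = 7 / K + 14 * (1 / K) := by ring
      rw [this]
      linarith
    have e4 : 12 * (7 / K + 14 * (|β| * (Λ : ℕ)) + ε / 240) * N ≤ ε / 10 * N := by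
      have e5 : 12 * (21 / (K : ℝ)) ≤ ε / 20 := by
        rw [div_le_iff₀ hε] at hKε
        rw [← mul_div_assoc, div_le_iff₀ hKr]
        linarith
      apply mul_le_mul_of_nonneg_right _ hNr.le
      linarith
    have hN3' : 3000 * (1 + h + r) * 4 ^ i ≤ ε * N := by
      rw [div_le_iff₀ hε] at hN3
      linarith
    have h4i : (1 : ℝ) ≤ 2 ^ i := one_le_pow₀ (by norm_num)
    have h42 : (2 : ℝ) ^ i ≤ 4 ^ i := pow_le_pow_left₀ (by norm_num) (by norm_num) i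
    have h44 : (4 : ℝ) ^ (i + 1) = 4 * 4 ^ i := by rw [pow_succ]; ring
    have hh0 : (0 : ℝ) ≤ h := Nat.cast_nonneg h
    have e6 : 3 * (8 * ((2 * (1 + h) * 2 ^ i : ℕ) : ℝ)) + 36 * (4 : ℝ) ^ (i + 1) ≤ ε / 10 * N := by
      push_cast
      rw [h44]
      have e7 : 3 * (8 * (2 * (1 + (h : ℝ)) * 2 ^ i)) ≤ 48 * (1 + h) * 4 ^ i := by
        calc 3 * (8 * (2 * (1 + (h : ℝ)) * 2 ^ i)) = 48 * (1 + h) * 2 ^ i := by ring
          _ ≤ 48 * (1 + h) * 4 ^ i := mul_le_mul_of_nonneg_left h42 (by positivity)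
      have e8 : 36 * (4 * (4 : ℝ) ^ i) ≤ 144 * (1 + h) * 4 ^ i := by
        have : (0 : ℝ) < 4 ^ i := by positivity
        nlinarith
      have e9 : 300 * (1 + (h : ℝ)) * 4 ^ i ≤ 300 * (1 + h + r) * 4 ^ i := by
        apply mul_le_mul_of_nonneg_right _ (by positivity)
        linarith
      have e10 : (0 : ℝ) ≤ (1 + h) * 4 ^ i := by positivity
      linarith
    have e11 : 3 * (2 * (r : ℝ) * (N / 2 ^ i + 4 * 2 ^ i)) ≤ ε / 10 * N := by
      have e12 : 6 * (r : ℝ) * (N / 2 ^ i) ≤ ε / 20 * N := by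
        have e13 : 6 * (r : ℝ) / 2 ^ i ≤ ε / 20 := by
          rw [div_le_iff₀ hε] at hiε
          rw [div_le_iff₀ (by positivity)]
          linarith
        calc 6 * (r : ℝ) * (N / 2 ^ i) = 6 * r / 2 ^ i * N := by ring
          _ ≤ ε / 20 * N := mul_le_mul_of_nonneg_right e13 hNr.le
      have e14 : 24 * (r : ℝ) * 2 ^ i ≤ ε / 20 * N := by
        have e15 : (r : ℝ) * 2 ^ i ≤ (1 + h + r) * 4 ^ i := by
          gcongr
          linarith
        have e16 : (0 : ℝ) ≤ (1 + h + r) * 4 ^ i := by positivity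
        linarith
      have e17 : 3 * (2 * (r : ℝ) * (N / 2 ^ i + 4 * 2 ^ i)) = 6 * r * (N / 2 ^ i) + 24 * r * 2 ^ i := by ring
      rw [e17]
      linarith
    have e9 : (N : ℝ) * (76 * (ε / 760)) = ε / 10 * N := by ring
    rw [add_mul, e1]
    have e10 : (i : ℝ) / (ε / 760 * 2 ^ i) * (N * Real.log 2 + Dv) =
      i / (ε / 760 * 2 ^ i) * (N * Real.log 2) + i / (ε / 760 * 2 ^ i) * Dv := by ring
    rw [e10, e9]
    linarith
  linarith

end Pool.Agent.Y842.PG
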