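import Pool.Agent.Y842.PG.Minor
import Pool.Agent.Y958.TC.Mrs

/-!
Library Y842.PG (helper842), part 9: rational phases, one factor with small exponential sums in short
intervals, the other one arbitrary.
-/

set_option autoImplicit false

open Finset

namespace Pool.Agent.Y842.PG

open Pool.Agent.Y842.PH
open Pool.Agent.Helper602.MK (ee PP)
open Pool.Agent.Helper602.MK.N_J1c (c_ee_add c_ee_int c_norm_ee)
open Pool.Agent.TH112.BL (QD)
open Pool.Agent.TH823.MRS (ExpoSmall gen Sm nu nu_eq pp_family)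
open Pool.Agent.H373R2.T7 (exI energy)
open Pool.Agent.Y958.TC (energy_mul PP_card_le iv iv_lt)
open Pool.Agent.Y304.U (sE)

lemma exI_le (f : ℕ → ℂ) (hb : ∀ n, ‖f n‖ ≤ 1) (z : ℤ) : ‖exI f z‖ ≤ 1 := by
  unfold exI
  split_ifs
  · exact hb _
  · rw [norm_zero]; exact zero_le_one

/-- for all but few primes `p` the correlations with shift `p h` are small (`h` of any sign) -/
lemma mrsC (f : ℕ → ℂ) (hb : ∀ n, ‖f n‖ ≤ 1) (hE : ExpoSmall f) (h : ℤ) (hh : h ≠ 0)
    (L : ℕ) (ε : ℝ) (hε : 0 < ε) :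
    ∃ k₀ : ℕ, ∀ k : ℕ, k₀ ≤ k → ∃ N₀ : ℕ, ∀ N : ℕ, N₀ ≤ N → ∀ g : Fin L → ℕ → ℂ, (∀ l n, ‖g l n‖ ≤ 1) →
      ∀ (Bad : ℕ → Prop) [DecidablePred Bad], (∀ p, Bad p → ∃ l, ∃ X ≤ N,
        ε * N < ‖∑ n ∈ Icc 1 X, g l n * exI f (n + p * h)‖) →
        (((PP k).filter Bad).card : ℝ) ≤ ε * (PP k).card := by
  classical
  obtain ⟨C, hC, k0, hk0, hfam⟩ := pp_family
  obtain ⟨H₀, N₀, h1⟩ := gen f hb hE 1 L ε hε 2 (C * (h.natAbs : ℝ))
  have hh1 : 1 ≤ h.natAbs := by omega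
  refine ⟨H₀ + k0, fun k hk => ⟨N₀ + h.natAbs * k, fun N hN g hg Bad _ hBad => ?_⟩⟩
  obtain ⟨s, hs1, hs2, hs3, hs4⟩ := hfam k (by omega)
  have hhr : (1 : ℝ) ≤ (h.natAbs : ℝ) := by exact_mod_cast hh1
  have hle : k ≤ h.natAbs * k := Nat.le_mul_of_pos_left _ (by omega)
  have habs : |h| = (h.natAbs : ℤ) := Int.abs_eq_natAbs h
  have h2 := h1 N (h.natAbs * k) (by omega) (by omega) (by omega) (PP k).card (fun m => h * s m) (by
      intro m hm
      rw [abs_mul, habs]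
      push_cast
      exact mul_le_mul_of_nonneg_left (hs1 m hm) (by positivity)) (by
      rw [energy_mul _ s h hh]
      push_cast
      calc (energy 2 (PP k).card s : ℝ) * ((h.natAbs : ℝ) * k) =
            (h.natAbs : ℝ) * ((energy 2 (PP k).card s : ℝ) * k) := by ring
        _ ≤ (h.natAbs : ℝ) * (C * ((PP k).card : ℝ) ^ (2 * 2)) := mul_le_mul_of_nonneg_left hs2 (Nat.cast_nonneg _)
        _ = C * (h.natAbs : ℝ) * ((PP k).card : ℝ) ^ (2 * 2) := by ring) (fun _ => 1) (fun _ => 0) g (fun _ => le_rfl)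
      (fun _ => by positivity) hg
  rw [hs3 Bad]
  rw [nu_eq] at h2
  refine le_trans ?_ h2
  apply Nat.cast_le.2
  apply card_le_card
  intro m hm
  rw [mem_filter] at hm ⊢
  refine ⟨hm.1, fun hSm => ?_⟩
  obtain ⟨l, X, hX, hlt⟩ := hBad _ hm.2
  have h3 := hSm l X (by simpa using hX)
  have e1 : ∑ n ∈ Icc 1 X, g l n * exI f (((1 : ℕ) : ℤ) * n + 0 + h * s m) =
      ∑ n ∈ Icc 1 X, g l n * exI f (n + ((s m).toNat : ℕ) * h) := by
    apply sum_congr rfl
    intro n _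
    congr 2
    have h4 := hs4 m hm.1
    rw [Int.toNat_of_nonneg h4]
    push_cast
    ring
  have h3 : ‖∑ n ∈ Icc 1 X, g l n * exI f (((1 : ℕ) : ℤ) * n + 0 + h * s m)‖ ≤ ε * N := h3
  rw [e1] at h3
  linarith

/-- the weighted sum over the primes of a scale -/
lemma mrsC2 (f : ℕ → ℂ) (hb : ∀ n, ‖f n‖ ≤ 1) (hE : ExpoSmall f) (h : ℤ) (hh : h ≠ 0)
    (L : ℕ) (ε : ℝ) (hε : 0 < ε) :
    ∃ I₀ : ℕ, ∀ i : ℕ, I₀ ≤ i → ∃ N₀ : ℕ, ∀ M : ℕ, N₀ ≤ M → ∀ g : Fin L → ℕ → ℂ, (∀ l n, ‖g l n‖ ≤ 1) →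
      ∀ l : ℕ → Fin L, ∑ p ∈ QD i (i + 1), Real.log p / 2 ^ i *
        ‖∑ n ∈ range M, g (l p) n * exI f (n + p * h)‖ ≤ 20 * ε * M := by
  classical
  obtain ⟨k₀, h1⟩ := mrsC f hb hE h hh L ε hε
  refine ⟨k₀ + 1, fun i hi => ?_⟩
  have hk : k₀ ≤ 2 ^ (i + 1) := by
    have : i + 1 < 2 ^ (i + 1) := Nat.lt_two_pow_self
    omega
  obtain ⟨N₀, h2⟩ := h1 (2 ^ (i + 1)) hk
  refine ⟨N₀ + ⌈1 / ε⌉₊ + 1, fun M hM g hg l => ?_⟩
  have hM0 : (0 : ℝ) < M := by exact_mod_cast (by omega : 0 < M)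
  have h5 : (0 : ℝ) < 2 ^ i := by positivity
  have h2M : 1 ≤ ε * M := by
    have h6 : 1 / ε ≤ M := (Nat.le_ceil _).trans (by exact_mod_cast (by omega : ⌈1 / ε⌉₊ ≤ M))
    rw [div_le_iff₀ hε] at h6
    linarith
  set Bad : ℕ → Prop := fun p => 2 * ε * M < ‖∑ n ∈ range M, g (l p) n * exI f (n + p * h)‖ with hBad
  have hgf : ∀ l' n p, ‖g l' n * exI f (n + p * h)‖ ≤ 1 := by
    intro l' n p
    rw [norm_mul]
    exact mul_le_one₀ (hg _ _) (norm_nonneg _) (exI_le f hb _)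
  have h3 := h2 M (by omega) g hg Bad (by
    intro p hp
    refine ⟨l p, M - 1, by omega, ?_⟩
    have hp : 2 * ε * M < ‖∑ n ∈ range M, g (l p) n * exI f (n + p * h)‖ := hp
    have h4 : ∑ n ∈ range M, g (l p) n * exI f (n + p * h) =
        g (l p) 0 * exI f ((0 : ℕ) + p * h) + ∑ n ∈ Icc 1 (M - 1), g (l p) n * exI f (n + p * h) := by
      rw [← sum_erase_add (range M) _ (mem_range.2 (by omega : 0 < M)), add_comm]
      congr 1
      apply sum_congr _ (fun _ _ => rfl)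
      ext n
      simp only [mem_erase, mem_range, mem_Icc]
      omega
    rw [h4] at hp
    have h6 := norm_add_le (g (l p) 0 * exI f ((0 : ℕ) + p * h)) (∑ n ∈ Icc 1 (M - 1), g (l p) n * exI f (n + p * h))
    have h7 := hgf (l p) 0 p
    linarith)
  have hsub : (QD i (i + 1)).filter Bad ⊆ (PP (2 ^ (i + 1))).filter Bad := by
    intro p hp
    rw [mem_filter] at hp ⊢
    refine ⟨?_, hp.2⟩
    have h4 := hp.1
    unfold QD at h4
    rw [mem_filter, mem_Ioc] at h4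
    unfold PP
    rw [mem_filter, mem_Icc]
    refine ⟨⟨h4.2.one_lt.le, h4.1.2⟩, h4.2, ?_⟩
    have h6 : 2 ^ i < p := h4.1.1
    have h7 : 2 ≤ p := h4.2.two_le
    calc 2 ^ (i + 1) = 2 ^ i * 2 := pow_succ 2 i
      _ < p * p := Nat.mul_lt_mul_of_lt_of_le h6 h7 (by omega)
      _ = p ^ 2 := (sq p).symm
  have hw : ∀ p ∈ QD i (i + 1), Real.log p / 2 ^ i ≤ ((i : ℝ) + 1) * Real.log 2 / 2 ^ i := fun p hp => w_le i p hp
  have hw0 : ∀ p : ℕ, 0 ≤ Real.log (p : ℝ) / 2 ^ i := fun p => w_nonneg i p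
  have hA : ∀ p : ℕ, ‖∑ n ∈ range M, g (l p) n * exI f (n + p * h)‖ ≤ M := fun p =>
    (norm_sum_le _ _).trans ((sum_le_sum (g := fun _ => (1 : ℝ)) fun n _ => hgf _ _ _).trans (by simp))
  have h10 : ∑ p ∈ QD i (i + 1), Real.log (p : ℝ) / 2 ^ i ≤ 3 := w_sum i _ (Subset.refl _)
  rw [← sum_filter_add_sum_filter_not (QD i (i + 1)) Bad]
  have h11 : ∑ p ∈ (QD i (i + 1)).filter Bad, Real.log p / 2 ^ i *
      ‖∑ n ∈ range M, g (l p) n * exI f (n + p * h)‖ ≤ 12 * ε * M := by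
    calc ∑ p ∈ (QD i (i + 1)).filter Bad, Real.log p / 2 ^ i *
          ‖∑ n ∈ range M, g (l p) n * exI f (n + p * h)‖ ≤
          ∑ p ∈ (QD i (i + 1)).filter Bad, ((i : ℝ) + 1) * Real.log 2 / 2 ^ i * M := by
          apply sum_le_sum
          intro p hp
          rw [mem_filter] at hp
          exact mul_le_mul (hw p hp.1) (hA p) (norm_nonneg _) ((hw0 p).trans (hw p hp.1))
      _ = ((QD i (i + 1)).filter Bad).card * (((i : ℝ) + 1) * Real.log 2 / 2 ^ i) * M := by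
          rw [sum_const, nsmul_eq_mul]
          ring
      _ ≤ (ε * (PP (2 ^ (i + 1))).card) * (((i : ℝ) + 1) * Real.log 2 / 2 ^ i) * M := by
          apply mul_le_mul_of_nonneg_right _ hM0.le
          apply mul_le_mul_of_nonneg_right _ (by
            have : 0 < Real.log 2 := Real.log_pos (by norm_num)
            positivity)
          refine le_trans ?_ h3
          exact_mod_cast card_le_card hsub
      _ = ε * (((PP (2 ^ (i + 1))).card * Real.log ((2 ^ (i + 1) : ℕ) : ℝ)) / 2 ^ i) * M := by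
          push_cast
          rw [Real.log_pow]
          push_cast
          ring
      _ ≤ ε * ((6 * ((2 ^ (i + 1) : ℕ) : ℝ)) / 2 ^ i) * M := by
          apply mul_le_mul_of_nonneg_right _ hM0.le
          apply mul_le_mul_of_nonneg_left _ hε.le
          apply div_le_div_of_nonneg_right _ h5.le
          apply PP_card_le
          calc 2 = 2 ^ 1 := rfl
            _ ≤ 2 ^ (i + 1) := Nat.pow_le_pow_right (by norm_num) (by omega)
      _ = 12 * ε * M := by
          push_cast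
          rw [pow_succ]
          field_simp
          ring
  have h12 : ∑ p ∈ (QD i (i + 1)).filter (fun p => ¬ Bad p), Real.log p / 2 ^ i *
      ‖∑ n ∈ range M, g (l p) n * exI f (n + p * h)‖ ≤ 6 * ε * M := by
    calc ∑ p ∈ (QD i (i + 1)).filter (fun p => ¬ Bad p), Real.log p / 2 ^ i *
          ‖∑ n ∈ range M, g (l p) n * exI f (n + p * h)‖ ≤
          ∑ p ∈ (QD i (i + 1)).filter (fun p => ¬ Bad p), Real.log p / 2 ^ i * (2 * ε * M) := by
          apply sum_le_sum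
          intro p hp
          rw [mem_filter] at hp
          apply mul_le_mul_of_nonneg_left _ (hw0 p)
          exact not_lt.1 hp.2
      _ ≤ ∑ p ∈ QD i (i + 1), Real.log p / 2 ^ i * (2 * ε * M) := by
          apply sum_le_sum_of_subset_of_nonneg (filter_subset _ _)
          intro p _ _
          exact mul_nonneg (hw0 p) (by positivity)
      _ = (∑ p ∈ QD i (i + 1), Real.log (p : ℝ) / 2 ^ i) * (2 * ε * M) := by rw [sum_mul]
      _ ≤ 3 * (2 * ε * M) := mul_le_mul_of_nonneg_right h10 (by positivity)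
      _ = 6 * ε * M := by ring
  linarith

/-- one pair of functions -/
lemma pr_two (f g : ℕ → ℂ) (a c p m : ℕ) : pr ![f, g] ![a, c] p m = f (m + p * a) * g (m + p * c) := by
  unfold pr
  rw [Fin.prod_univ_two]
  rfl

/-- the bilinear sums for a rational phase -/
lemma bil_rat (f : ℕ → ℂ) (hb : ∀ n, ‖f n‖ ≤ 1) (hE : ExpoSmall f) (a c : ℕ) (hac : a ≠ c) (A : ℤ) (q : ℕ)
    (hq : 1 ≤ q) (e : ℝ) (he : 0 < e) : ∃ I₀ : ℕ, ∀ i : ℕ, I₀ ≤ i → ∃ N₀ : ℕ, ∀ N : ℕ, N₀ ≤ N →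
      ∀ g : ℕ → ℂ, (∀ n, ‖g n‖ ≤ 1) → ∀ P : Finset ℕ, P ⊆ QD i (i + 1) →
        ∑ p ∈ P, Real.log p / 2 ^ i * ‖∑ m ∈ range N, pr ![f, g] ![a, c] p m * ee (th A q 0 p * m)‖ ≤ e * N := by
  obtain ⟨I₀, h1⟩ := mrsC2 f hb hE ((a : ℤ) - c) (by omega) q (e / 40) (by positivity)
  refine ⟨I₀, fun i hi => ?_⟩
  obtain ⟨N₀, h2⟩ := h1 i hi
  obtain ⟨N₁, hN₁⟩ := exists_nat_ge (2 * (3 * (4 * 2 ^ i * c + 1)) / e)
  refine ⟨N₀ + N₁, fun N hN g hg P hP => ?_⟩
  have h3 := h2 N (by omega) (fun l n => g n * ee (A * (l : ℕ) / q * n)) (fun l n => by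
    rw [norm_mul, c_norm_ee, mul_one]
    exact hg n) (fun p => ⟨iv q p, iv_lt q p hq⟩)
  have h4 : ∀ p ∈ P, ‖∑ m ∈ range N, pr ![f, g] ![a, c] p m * ee (th A q 0 p * m)‖ ≤
      ‖∑ n ∈ range N, g n * ee (A * (iv q p : ℕ) / q * n) * exI f (n + p * ((a : ℤ) - c))‖ +
        (4 * 2 ^ i * c + 1) := by
    intro p hp
    have hpp := QD_mem (hP hp)
    set u : ℤ → ℂ := fun z => exI f (z + p * ((a : ℤ) - c)) * (g z.toNat * ee (th A q 0 p * ((z - p * c : ℤ) : ℝ)))
      with hu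
    have hu1 : ∀ z, ‖u z‖ ≤ 1 := by
      intro z
      rw [hu]
      show ‖exI f (z + p * ((a : ℤ) - c)) * (g z.toNat * ee (th A q 0 p * ((z - p * c : ℤ) : ℝ)))‖ ≤ 1
      rw [norm_mul, norm_mul, c_norm_ee, mul_one]
      exact mul_le_one₀ (exI_le f hb _) (norm_nonneg _) (hg _)
    have e1 := shz N (p * c) u 1 hu1
    have e2 : ‖∑ m ∈ range N, pr ![f, g] ![a, c] p m * ee (th A q 0 p * m) - ∑ m ∈ range N, u (m + p * c)‖ ≤ 1 := by
      rw [← sum_sub_distrib]
      have e3 : ∀ m ∈ range N, ‖pr ![f, g] ![a, c] p m * ee (th A q 0 p * m) - u (m + p * c)‖ ≤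
          if m = 0 then 1 else 0 := by
        intro m _
        rw [pr_two, hu]
        show ‖f (m + p * a) * g (m + p * c) * ee (th A q 0 p * m) -
          exI f ((m : ℤ) + p * c + p * ((a : ℤ) - c)) * (g ((m : ℤ) + p * c).toNat *
            ee (th A q 0 p * (((m : ℤ) + p * c - p * c : ℤ) : ℝ)))‖ ≤ _
        have e4 : (((m : ℤ) + p * c - p * c : ℤ) : ℝ) = m := by
          push_cast
          ring
        have e5 : ((m : ℤ) + p * c).toNat = m + p * c := by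
          have : ((m : ℤ) + p * c) = ((m + p * c : ℕ) : ℤ) := by push_cast; ring
          rw [this, Int.toNat_natCast]
        have e6 : (m : ℤ) + p * c + p * ((a : ℤ) - c) = ((m + p * a : ℕ) : ℤ) := by
          push_cast
          ring
        rw [e4, e5, e6]
        have e7 : f (m + p * a) * g (m + p * c) * ee (th A q 0 p * m) -
            exI f ((m + p * a : ℕ) : ℤ) * (g (m + p * c) * ee (th A q 0 p * m)) =
            (f (m + p * a) - exI f ((m + p * a : ℕ) : ℤ)) * (g (m + p * c) * ee (th A q 0 p * m)) := by ring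
        rw [e7, norm_mul, norm_mul, c_norm_ee, mul_one]
        unfold exI
        split_ifs with h5 h6 h6
        · rw [Int.toNat_natCast, sub_self, norm_zero, zero_mul]
          exact zero_le_one
        · rw [Int.toNat_natCast, sub_self, norm_zero, zero_mul]
        · rw [sub_zero]
          exact mul_le_one₀ (hb _) (norm_nonneg _) (hg _)
        · exfalso
          apply h5
          exact_mod_cast (by omega : 1 ≤ m + p * a)
      refine (norm_sum_le _ _).trans ((sum_le_sum e3).trans ?_)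
      rw [sum_ite_eq']
      split_ifs <;> norm_num
    have e3 : ‖∑ m ∈ range N, u m‖ =
        ‖∑ n ∈ range N, g n * ee (A * (iv q p : ℕ) / q * n) * exI f (n + p * ((a : ℤ) - c))‖ := by
      have e4 : ∑ m ∈ range N, u m = ee (-(th A q 0 p * ((p * c : ℤ) : ℝ))) *
          ∑ n ∈ range N, g n * ee (A * (iv q p : ℕ) / q * n) * exI f (n + p * ((a : ℤ) - c)) := by
        rw [mul_sum]
        refine sum_congr rfl fun m _ => ?_
        rw [hu]
        show exI f ((m : ℤ) + p * ((a : ℤ) - c)) * (g (m : ℤ).toNat *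
          ee (th A q 0 p * (((m : ℤ) - p * c : ℤ) : ℝ))) = _
        rw [Int.toNat_natCast]
        have e5 : ee (th A q 0 p * (((m : ℤ) - p * c : ℤ) : ℝ)) =
            ee (-(th A q 0 p * ((p * c : ℤ) : ℝ))) * ee (A * (iv q p : ℕ) / q * m) := by
          rw [← c_ee_add]
          congr 1
          unfold th
          push_cast
          rw [zero_div, add_zero]
          ring
        rw [e5]
        ring
      rw [e4, norm_mul, c_norm_ee, one_mul]
    have e4 : 2 * |((p * c : ℤ) : ℝ)| * 1 ≤ 4 * 2 ^ i * c := by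
      have h8 : (p : ℝ) ≤ 2 * 2 ^ i := by
        have : (p : ℝ) ≤ 2 ^ (i + 1) := by exact_mod_cast hpp.2.2
        rw [pow_succ] at this
        linarith
      push_cast
      rw [abs_mul, Nat.abs_cast, Nat.abs_cast, mul_one]
      calc 2 * ((p : ℝ) * c) ≤ 2 * ((2 * 2 ^ i) * c) := by gcongr
        _ = 4 * 2 ^ i * c := by ring
    have e5 := norm_sub_norm_le (∑ m ∈ range N, pr ![f, g] ![a, c] p m * ee (th A q 0 p * m))
      (∑ m ∈ range N, u (m + p * c))
    have e6 := norm_sub_norm_le (∑ m ∈ range N, u (m + p * c)) (∑ m ∈ range N, u m)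
    linarith
  calc ∑ p ∈ P, Real.log p / 2 ^ i * ‖∑ m ∈ range N, pr ![f, g] ![a, c] p m * ee (th A q 0 p * m)‖ ≤
      ∑ p ∈ P, (Real.log p / 2 ^ i * ‖∑ n ∈ range N, g n * ee (A * (iv q p : ℕ) / q * n) *
        exI f (n + p * ((a : ℤ) - c))‖ + Real.log p / 2 ^ i * (4 * 2 ^ i * c + 1)) := by
        refine sum_le_sum fun p hp => ?_
        rw [← mul_add]
        exact mul_le_mul_of_nonneg_left (h4 p hp) (w_nonneg i p)
    _ = ∑ p ∈ P, Real.log p / 2 ^ i * ‖∑ n ∈ range N, g n * ee (A * (iv q p : ℕ) / q * n) *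
        exI f (n + p * ((a : ℤ) - c))‖ + (∑ p ∈ P, Real.log p / 2 ^ i) * (4 * 2 ^ i * c + 1) := by
        rw [sum_add_distrib, sum_mul]
    _ ≤ 20 * (e / 40) * N + 3 * (4 * 2 ^ i * c + 1) := by
        apply add_le_add
        · refine le_trans ?_ h3
          apply sum_le_sum_of_subset_of_nonneg hP
          intro p _ _
          exact mul_nonneg (w_nonneg i p) (norm_nonneg _)
        · exact mul_le_mul_of_nonneg_right (w_sum i P hP) (by positivity)
    _ ≤ e * N := by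
        have h5 : 2 * (3 * (4 * 2 ^ i * c + 1)) / e ≤ N := hN₁.trans (by exact_mod_cast (by omega : N₁ ≤ N))
        rw [div_le_iff₀ he] at h5
        linarith

/-- **rational phases** -/
theorem rat_g (f : ℕ → ℂ) (hb : ∀ n, ‖f n‖ ≤ 1) (hE : ExpoSmall f) (hf : ∀ p : ℕ, p.Prime → Flp f p)
    (a c : ℕ) (hac : a ≠ c) (A : ℤ) (q : ℕ) (hq : 1 ≤ q) (hAq : IsCoprime A (q : ℤ)) (δ : ℝ) (hδ : 0 < δ)
    (hδ1 : δ ≤ 1) (η : ℝ) (hη : 0 < η) :
    ∃ X₀ : ℕ, ∀ X : ℕ, X₀ ≤ X → ∀ g : ℕ → ℂ, (∀ n, ‖g n‖ ≤ 1) → (∀ p : ℕ, p.Prime → Flp g p) →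
      sE {N : ℕ | δ * N < ‖Cg ![f, g] ![a, c] N (A / q)‖} X ≤ η * Real.log X := by
  have h1 := cells (r := 2) ![a, c] (fun G => ∃ g : ℕ → ℂ, (∀ n, ‖g n‖ ≤ 1) ∧ (∀ p : ℕ, p.Prime → Flp g p) ∧
    G = ![f, g]) (by
      rintro G ⟨g, hg, -, rfl⟩ t n
      fin_cases t
      · exact hb n
      · exact hg n) (fun _ _ α => α = A / q) (fun _ _ _ _ _ h => h) (fun _ _ _ _ _ h => h) ?_ δ hδ hδ1 η hη
  · obtain ⟨R, X₀, h2⟩ := h1
    refine ⟨X₀, fun X hX g hg hgF => ?_⟩
    have h3 := h2 X hX ![f, g] ⟨g, hg, hgF, rfl⟩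
    refine le_trans (le_of_eq ?_) h3
    congr 1
    ext N
    unfold Bad
    rw [Set.mem_ofPred_eq, Set.mem_ofPred_eq]
    constructor
    · intro h
      exact ⟨_, rfl, h⟩
    · rintro ⟨α, rfl, h⟩
      exact h
  intro ε hε
  obtain ⟨D, hD, Bc, hBc, b₀, hch⟩ := chain_g (r := 2) (by norm_num) (a + c) ![a, c] (by
    intro t
    fin_cases t
    · show a ≤ a + c
      omega
    · show c ≤ a + c
      omega) ε hε
  obtain ⟨I₁, hI₁⟩ := bil_rat f hb hE a c hac A q hq (ε / 10) (by positivity)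
  refine ⟨D, hD, Bc, hBc, b₀ + I₁ + q + 1, fun b hb' n => ?_⟩
  obtain ⟨M₀, hM₀⟩ := hch b (by omega) n
  choose N₀ hN₀ using fun k : ℕ => hI₁ (b + k * D) (by omega)
  refine ⟨0, M₀ + 2 * ∑ k ∈ range n, N₀ k, fun M hM G hG α S hS hGd => ?_⟩
  obtain ⟨g, hg, hgF, rfl⟩ := hG
  have h1 := hM₀ M (by omega) ![f, g] (by
      intro t n
      fin_cases t
      · exact hb n
      · exact hg n) (fun _ => A) (fun _ => q) (fun _ => 0) S hS (by
      intro k p hp t
      have hpp := (QD_mem (hS k hp)).1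
      fin_cases t
      · exact hf p hpp
      · exact hgF p hpp) (fun _ => hq) (by
      intro k
      calc q ≤ 2 ^ q := (Nat.lt_two_pow_self).le
        _ ≤ 2 ^ (8 * 2 ^ (b + k * D)) := Nat.pow_le_pow_right (by norm_num) (by
          have : b + k * D < 2 ^ (b + k * D) := Nat.lt_two_pow_self
          omega)) (fun _ => hAq) (by
      intro k
      rw [abs_zero, zero_mul]
      exact zero_le_one) (by
      intro k hk N hNM hMN P hP _
      refine hN₀ k N ?_ g hg P (hP.trans (hS k))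
      have := single_le_sum (f := N₀) (fun _ _ => Nat.zero_le _) (mem_range.2 hk)
      omega)
  refine le_trans (le_of_eq ?_) h1
  refine sum_congr rfl fun k hk => ?_
  rw [mem_range] at hk
  congr 1
  rcases (S k).eq_empty_or_nonempty with hSe | hSne
  · rw [hSe, sum_empty, sum_empty]
  · rw [hGd k hk hSne, add_zero]

end Pool.Agent.Y842.PG
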