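import Pool.Agent.Y842.PG.All

/-!
Library Y842.PG (helper842), part 11: from multiplicative functions with values on the circle at primes
to arbitrary multiplicative functions with values in the unit disc.
-/

set_option autoImplicit false

open Finset

namespace Pool.Agent.Y842.PG

open Pool.Agent.Y842.PH
open Pool.Agent.Helper602.MK (ee)

/-- the multiplicative function with value `x p` at primes and `w p k` at `p ^ k`, `k ≥ 2` -/
noncomputable def mlt (x : ℕ → ℂ) (w : ℕ → ℕ → ℂ) (n : ℕ) : ℂ :=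
  if n = 0 then 0 else ∏ p ∈ n.primeFactors, (if n.factorization p = 1 then x p else w p (n.factorization p))

lemma mlt_norm (x : ℕ → ℂ) (w : ℕ → ℕ → ℂ) (hx : ∀ p, ‖x p‖ ≤ 1) (hw : ∀ p k, ‖w p k‖ ≤ 1) (n : ℕ) :
    ‖mlt x w n‖ ≤ 1 := by
  unfold mlt
  split_ifs with h
  · simp
  · rw [norm_prod]
    refine prod_le_one (fun _ _ => norm_nonneg _) (fun p _ => ?_)
    split_ifs
    · exact hx p
    · exact hw _ _

lemma mlt_flip (x : ℕ → ℂ) (w : ℕ → ℕ → ℂ) (p : ℕ) (hp : p.Prime) (n : ℕ) (hn : ¬ p ∣ n) :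
    mlt x w (p * n) = x p * mlt x w n := by
  have hn0 : n ≠ 0 := by
    rintro rfl
    exact hn (dvd_zero p)
  have hpn : p * n ≠ 0 := Nat.mul_ne_zero hp.ne_zero hn0
  have hnm : p ∉ n.primeFactors := fun h => hn (Nat.dvd_of_mem_primeFactors h)
  have e1 : (p * n).primeFactors = insert p n.primeFactors := by
    rw [Nat.primeFactors_mul hp.ne_zero hn0, hp.primeFactors]
    rfl
  have e2 : (p * n).factorization p = 1 := by
    rw [Nat.factorization_mul hp.ne_zero hn0, Finsupp.add_apply, hp.factorization_self,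
      Nat.factorization_eq_zero_of_not_dvd hn]
  unfold mlt
  rw [if_neg hpn, if_neg hn0, e1, prod_insert hnm, e2, if_pos rfl]
  congr 1
  refine prod_congr rfl fun r hr => ?_
  have hrp : r ≠ p := fun h => hnm (h ▸ hr)
  have e3 : (p * n).factorization r = n.factorization r := by
    rw [Nat.factorization_mul hp.ne_zero hn0, Finsupp.add_apply, hp.factorization, Finsupp.single_apply,
      if_neg (Ne.symm hrp), zero_add]
  rw [e3]

lemma mlt_Flp (x : ℕ → ℂ) (w : ℕ → ℕ → ℂ) (p : ℕ) (hp : p.Prime) (hx : ‖x p‖ = 1) : Flp (mlt x w) p :=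
  ⟨x p, hx, fun n hn => mlt_flip x w p hp n hn⟩

lemma mlt_upd (x : ℕ → ℂ) (w : ℕ → ℕ → ℂ) (p : ℕ) (u v : ℂ) (n : ℕ) :
    mlt (Function.update x p ((u + v) / 2)) w n =
      (mlt (Function.update x p u) w n + mlt (Function.update x p v) w n) / 2 := by
  classical
  unfold mlt
  by_cases h0 : n = 0
  · simp [h0]
  rw [if_neg h0, if_neg h0, if_neg h0]
  by_cases h : p ∈ n.primeFactors ∧ n.factorization p = 1
  · have e : ∀ z : ℂ, ∏ r ∈ n.primeFactors, (if n.factorization r = 1 then Function.update x p z r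
        else w r (n.factorization r)) = z * ∏ r ∈ n.primeFactors.erase p, (if n.factorization r = 1 then x r
        else w r (n.factorization r)) := by
      intro z
      rw [← mul_prod_erase _ _ h.1, if_pos h.2, Function.update_self]
      congr 1
      refine prod_congr rfl fun r hr => ?_
      rw [Function.update_of_ne (ne_of_mem_erase hr)]
    rw [e, e, e]
    ring
  · have e : ∀ z : ℂ, ∏ r ∈ n.primeFactors, (if n.factorization r = 1 then Function.update x p z r
        else w r (n.factorization r)) = ∏ r ∈ n.primeFactors, (if n.factorization r = 1 then x r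
        else w r (n.factorization r)) := by
      intro z
      refine prod_congr rfl fun r hr => ?_
      by_cases h1 : n.factorization r = 1
      · rw [if_pos h1, if_pos h1, Function.update_of_ne]
        rintro rfl
        exact h ⟨hr, h1⟩
      · rw [if_neg h1, if_neg h1]
    rw [e, e, e]
    ring

/-- values depend only on the coordinates at the prime factors -/
lemma mlt_congr (x x' : ℕ → ℂ) (w : ℕ → ℕ → ℂ) (n B : ℕ) (hn : n ≤ B) (h : ∀ p ≤ B, x p = x' p) :
    mlt x w n = mlt x' w n := by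
  unfold mlt
  by_cases h0 : n = 0
  · simp [h0]
  rw [if_neg h0, if_neg h0]
  refine prod_congr rfl fun r hr => ?_
  have hr1 : r ≤ B := (Nat.le_of_mem_primeFactors hr).trans hn
  rw [h r hr1]

/-- multiplicative functions -/
lemma mlt_eq (g : ℕ → ℂ) (hm : ∀ m n, Nat.Coprime m n → g (m * n) = g m * g n) (h1 : g 1 = 1) (n : ℕ)
    (hn : n ≠ 0) : g n = mlt g (fun p k => g (p ^ k)) n := by
  rw [Nat.multiplicative_factorization g hm h1 hn]
  unfold mlt
  rw [if_neg hn, Finsupp.prod, Nat.support_factorization]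
  refine prod_congr rfl fun r hr => ?_
  split_ifs with h
  · rw [h, pow_one]
  · rfl

/-- points of the disc are midpoints of points of the circle -/
lemma midpt (z : ℂ) (hz : ‖z‖ ≤ 1) : ∃ u v : ℂ, ‖u‖ = 1 ∧ ‖v‖ = 1 ∧ z = (u + v) / 2 := by
  obtain ⟨w, hw, hzw⟩ : ∃ w : ℂ, ‖w‖ = 1 ∧ z = (‖z‖ : ℂ) * w := by
    by_cases h : z = 0
    · exact ⟨1, by simp, by simp [h]⟩
    · have h1 : (‖z‖ : ℂ) ≠ 0 := by exact_mod_cast norm_ne_zero_iff.2 h
      refine ⟨z / ‖z‖, ?_, by field_simp⟩
      rw [norm_div, Complex.norm_real, norm_norm, div_self (norm_ne_zero_iff.2 h)]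
  set ρ : ℝ := ‖z‖ with hρ
  have hρ0 : 0 ≤ ρ := norm_nonneg z
  set s : ℝ := Real.sqrt (1 - ρ ^ 2) with hs
  have hs2 : s ^ 2 = 1 - ρ ^ 2 := Real.sq_sqrt (by nlinarith)
  have hn : ∀ t : ℝ, t ^ 2 = 1 - ρ ^ 2 → ‖(ρ : ℂ) + t * Complex.I‖ = 1 := by
    intro t ht
    have : ‖(ρ : ℂ) + t * Complex.I‖ ^ 2 = 1 := by
      rw [Complex.sq_norm, Complex.normSq_add_mul_I, ht]
      ring
    have h2 := norm_nonneg ((ρ : ℂ) + t * Complex.I)
    nlinarith
  refine ⟨(ρ + s * Complex.I) * w, (ρ + (-s : ℝ) * Complex.I) * w, ?_, ?_, ?_⟩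
  · rw [norm_mul, hw, hn s hs2, one_mul]
  · rw [norm_mul, hw, hn (-s) (by rw [neg_sq]; exact hs2), one_mul]
  · conv_lhs => rw [hzw]
    push_cast
    ring

/-- functionals that are convex in each coordinate -/
lemma conv_red {ι : Type} [DecidableEq ι] (Φ : (ι → ℂ) → ℝ)
    (hΦ : ∀ x i u v, Φ (Function.update x i ((u + v) / 2)) ≤
      max (Φ (Function.update x i u)) (Φ (Function.update x i v))) (B : ℝ) (S : Finset ι) :
    ∀ x : ι → ℂ, (∀ i ∈ S, ‖x i‖ ≤ 1) →
      (∀ y : ι → ℂ, (∀ i ∈ S, ‖y i‖ = 1) → (∀ i, i ∉ S → y i = x i) → Φ y ≤ B) → Φ x ≤ B := by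
  induction S using Finset.induction_on with
  | empty =>
    intro x _ h
    exact h x (by simp) (fun _ _ => rfl)
  | insert i S hi ih =>
    intro x hx h
    obtain ⟨u, v, hu, hv, hz⟩ := midpt (x i) (hx i (mem_insert_self i S))
    have e1 : Function.update x i ((u + v) / 2) = x := by
      rw [← hz]
      exact Function.update_eq_self i x
    have h1 := hΦ x i u v
    rw [e1] at h1
    have h2 : ∀ z : ℂ, ‖z‖ = 1 → Φ (Function.update x i z) ≤ B := by
      intro z hz1
      refine ih _ (fun j hj => ?_) fun y hy1 hy2 => h y (fun j hj => ?_) fun j hj => ?_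
      · have hji : j ≠ i := by
          rintro rfl
          exact hi hj
        rw [Function.update_of_ne hji]
        exact hx j (mem_insert_of_mem hj)
      · rcases mem_insert.1 hj with h3 | h3
        · rw [h3, hy2 i hi, Function.update_self, hz1]
        · exact hy1 j h3
      · rw [mem_insert, not_or] at hj
        rw [hy2 j hj.2, Function.update_of_ne hj.1]
    exact h1.trans (max_le (h2 u hu) (h2 v hv))

/-- **reduction** to functions with values on the circle at the primes -/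
theorem reduct {r : ℕ} (hs : Fin r → ℕ) (X B : ℕ) (hB : ∀ t, X + hs t ≤ B) (wt : ℕ → ℝ) (hwt : ∀ N, 0 ≤ wt N)
    (y : ℕ → ℕ) (hy : ∀ N, y N ≤ N) (b : ℕ → ℕ → ℂ) (C : ℝ)
    (hC : ∀ G : Fin r → ℕ → ℂ, (∀ t n, ‖G t n‖ ≤ 1) → (∀ p : ℕ, p.Prime → ∀ t, Flp (G t) p) →
      ∑ N ∈ Icc 1 X, wt N * ‖∑ n ∈ Icc 1 (y N), b N n * ∏ t, G t (n + hs t)‖ ≤ C) (hC0 : 0 ≤ C)
    (g : Fin r → ℕ → ℂ) (hg : ∀ t n, ‖g t n‖ ≤ 1)
    (hm : ∀ t m n, Nat.Coprime m n → g t (m * n) = g t m * g t n) :
    ∑ N ∈ Icc 1 X, wt N * ‖∑ n ∈ Icc 1 (y N), b N n * ∏ t, g t (n + hs t)‖ ≤ C := by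
  classical
  by_cases h1 : ∀ t, g t 1 = 1
  swap
  · push Not at h1
    obtain ⟨t, ht⟩ := h1
    have h0 : ∀ n, g t n = 0 := by
      have h2 : g t 1 = 0 := by
        have h3 := hm t 1 1 (Nat.coprime_one_left 1)
        rw [mul_one] at h3
        have h4 : g t 1 * (g t 1 - 1) = 0 := by linear_combination -h3
        rcases mul_eq_zero.1 h4 with h5 | h5
        · exact h5
        · exact (ht (sub_eq_zero.1 h5)).elim
      intro n
      have := hm t 1 n (Nat.coprime_one_left n)
      rw [one_mul, h2, zero_mul] at this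
      exact this
    have e : ∀ N ∈ Icc 1 X, wt N * ‖∑ n ∈ Icc 1 (y N), b N n * ∏ t, g t (n + hs t)‖ = 0 := by
      intro N _
      have e1 : ∑ n ∈ Icc 1 (y N), b N n * ∏ t, g t (n + hs t) = 0 := by
        refine sum_eq_zero fun n _ => ?_
        rw [prod_eq_zero (mem_univ t) (h0 _), mul_zero]
      rw [e1, norm_zero, mul_zero]
    rw [sum_eq_zero e]
    exact hC0
  set w : Fin r → ℕ → ℕ → ℂ := fun t p k => g t (p ^ k) with hw
  set M : (Fin r × ℕ → ℂ) → ℕ → ℂ := fun x n => ∏ t, mlt (fun p => x (t, p)) (w t) (n + hs t) with hM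
  set Φ : (Fin r × ℕ → ℂ) → ℝ := fun x =>
    ∑ N ∈ Icc 1 X, wt N * ‖∑ n ∈ Icc 1 (y N), b N n * M x n‖ with hΦ
  have hMu : ∀ (x : Fin r × ℕ → ℂ) (i : Fin r × ℕ) (u v : ℂ) (n : ℕ),
      M (Function.update x i ((u + v) / 2)) n = (M (Function.update x i u) n + M (Function.update x i v) n) / 2 := by
    intro x i u v n
    obtain ⟨t₀, p₀⟩ := i
    have e1 : ∀ z : ℂ, M (Function.update x (t₀, p₀) z) n =
        mlt (Function.update (fun p => x (t₀, p)) p₀ z) (w t₀) (n + hs t₀) *
          ∏ t ∈ univ.erase t₀, mlt (fun p => x (t, p)) (w t) (n + hs t) := by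
      intro z
      rw [hM]
      show ∏ t, mlt (fun p => Function.update x (t₀, p₀) z (t, p)) (w t) (n + hs t) = _
      rw [← mul_prod_erase univ _ (mem_univ t₀)]
      congr 1
      · congr 1
        funext p
        by_cases hp : p = p₀
        · rw [hp, Function.update_self, Function.update_self]
        · rw [Function.update_of_ne hp, Function.update_of_ne]
          intro h
          exact hp (Prod.mk.inj h).2
      · refine prod_congr rfl fun t ht => ?_
        congr 1
        funext p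
        rw [Function.update_of_ne]
        intro h
        exact (ne_of_mem_erase ht) (Prod.mk.inj h).1
    rw [e1, e1, e1, mlt_upd]
    ring
  have hconv : ∀ x i u v, Φ (Function.update x i ((u + v) / 2)) ≤
      max (Φ (Function.update x i u)) (Φ (Function.update x i v)) := by
    intro x i u v
    have h2 : Φ (Function.update x i ((u + v) / 2)) ≤
        (Φ (Function.update x i u) + Φ (Function.update x i v)) / 2 := by
      rw [hΦ]
      show ∑ N ∈ Icc 1 X, wt N * ‖∑ n ∈ Icc 1 (y N), b N n * M (Function.update x i ((u + v) / 2)) n‖ ≤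
        (∑ N ∈ Icc 1 X, wt N * ‖∑ n ∈ Icc 1 (y N), b N n * M (Function.update x i u) n‖ +
          ∑ N ∈ Icc 1 X, wt N * ‖∑ n ∈ Icc 1 (y N), b N n * M (Function.update x i v) n‖) / 2
      rw [← sum_add_distrib, sum_div]
      refine sum_le_sum fun N _ => ?_
      rw [← mul_add, mul_div_assoc]
      apply mul_le_mul_of_nonneg_left _ (hwt N)
      have e2 : ∑ n ∈ Icc 1 (y N), b N n * M (Function.update x i ((u + v) / 2)) n =
          (∑ n ∈ Icc 1 (y N), b N n * M (Function.update x i u) n +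
            ∑ n ∈ Icc 1 (y N), b N n * M (Function.update x i v) n) / 2 := by
        rw [← sum_add_distrib, sum_div]
        refine sum_congr rfl fun n _ => ?_
        rw [hMu]
        ring
      rw [e2, norm_div, RCLike.norm_ofNat]
      apply div_le_div_of_nonneg_right (norm_add_le _ _) (by norm_num)
    refine h2.trans ?_
    have h3 := le_max_left (Φ (Function.update x i u)) (Φ (Function.update x i v))
    have h4 := le_max_right (Φ (Function.update x i u)) (Φ (Function.update x i v))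
    linarith
  set x₀ : Fin r × ℕ → ℂ := fun i => g i.1 i.2 with hx₀
  have hval : ∀ (x x' : Fin r × ℕ → ℂ), (∀ i : Fin r × ℕ, i.2 ≤ B → x i = x' i) → Φ x = Φ x' := by
    intro x x' hxx
    rw [hΦ]
    show ∑ N ∈ Icc 1 X, wt N * ‖∑ n ∈ Icc 1 (y N), b N n * M x n‖ =
      ∑ N ∈ Icc 1 X, wt N * ‖∑ n ∈ Icc 1 (y N), b N n * M x' n‖
    refine sum_congr rfl fun N hN => ?_
    congr 2
    refine sum_congr rfl fun n hn => ?_
    congr 1
    rw [hM]
    show ∏ t, mlt (fun p => x (t, p)) (w t) (n + hs t) = ∏ t, mlt (fun p => x' (t, p)) (w t) (n + hs t)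
    refine prod_congr rfl fun t _ => ?_
    refine mlt_congr _ _ _ _ B ?_ fun p hp => hxx (t, p) hp
    have h2 := (mem_Icc.1 hn).2
    have h3 := hy N
    have h4 := (mem_Icc.1 hN).2
    have h5 := hB t
    omega
  have hmain : Φ x₀ ≤ C := by
    refine conv_red Φ hconv C ((univ : Finset (Fin r)) ×ˢ range (B + 1)) x₀ (fun i _ => ?_) fun z hz1 hz2 => ?_
    · rw [hx₀]
      exact hg i.1 i.2
    · set z' : Fin r × ℕ → ℂ := fun i => if i.2 ≤ B then z i else 1 with hz'
      have e3 : Φ z = Φ z' := by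
        refine hval _ _ fun i hi => ?_
        rw [hz']
        show z i = if i.2 ≤ B then z i else 1
        rw [if_pos hi]
      have hz'1 : ∀ i, ‖z' i‖ = 1 := by
        intro i
        rw [hz']
        show ‖if i.2 ≤ B then z i else 1‖ = 1
        split_ifs with h
        · exact hz1 i (by
            rw [mem_product, mem_range]
            exact ⟨mem_univ _, by omega⟩)
        · exact norm_one
      rw [e3]
      exact hC (fun t => mlt (fun p => z' (t, p)) (w t)) (fun t n => mlt_norm _ _ (fun p => (hz'1 (t, p)).le)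
        (fun p k => hg t _) n) fun p hp t => mlt_Flp _ _ p hp (hz'1 (t, p))
  refine le_trans (le_of_eq ?_) hmain
  rw [hΦ]
  show _ = ∑ N ∈ Icc 1 X, wt N * ‖∑ n ∈ Icc 1 (y N), b N n * M x₀ n‖
  refine sum_congr rfl fun N _ => ?_
  congr 2
  refine sum_congr rfl fun n hn => ?_
  congr 1
  rw [hM]
  show _ = ∏ t, mlt (fun p => x₀ (t, p)) (w t) (n + hs t)
  refine prod_congr rfl fun t _ => ?_
  have h2 := (mem_Icc.1 hn).1
  exact mlt_eq (g t) (hm t) (h1 t) (n + hs t) (by omega)

end Pool.Agent.Y842.PG
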