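import Pool.Agent.Y842.PG.Red

/-!
Library Y842.PG (helper842), part 12: logarithmic mean values over the scales, uniformly in the functions.
-/

set_option autoImplicit false

open Finset

namespace Pool.Agent.Y842.PG

open Pool.Agent.Y842.PH
open Pool.Agent.Helper602.MK (ee)
open Pool.Agent.Helper602.MK.N_J1c (c_norm_ee)
open Pool.Agent.TH823.MRS (ExpoSmall)
open Pool.Agent.Y304.U (sE ind ind_nonneg ind_le sE_nonneg)

lemma harm_le (X : ℕ) : ∑ N ∈ Icc 1 X, (1 : ℝ) / N ≤ 1 + Real.log X := by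
  have h1 := harmonic_le_one_add_log X
  rw [harmonic_eq_sum_Icc] at h1
  push_cast at h1
  simpa [one_div] using h1

lemma sq_le (X : ℕ) : ∑ N ∈ Icc 1 X, (1 : ℝ) / (N : ℝ) ^ 2 ≤ 2 := by
  have h1 := sum_Ioo_inv_sq_le (α := ℝ) 0 (X + 1)
  have h2 : Ioo 0 (X + 1) = Icc 1 X := by
    ext n
    rw [mem_Ioo, mem_Icc]
    omega
  rw [h2] at h1
  simpa [one_div] using h1

/-- from `1, …, y` to `0, …, y - 1` -/
lemma sum_shift (F : ℕ → ℂ) (y : ℕ) : ∑ n ∈ Icc 1 y, F n = ∑ n ∈ range y, F n + F y - F 0 := by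
  induction y with
  | zero => simp
  | succ y ih =>
    rw [sum_Icc_succ_top (by omega), ih, sum_range_succ]
    ring

lemma sum_shift_le (F : ℕ → ℂ) (hF : ∀ n, ‖F n‖ ≤ 1) (y : ℕ) :
    ‖∑ n ∈ Icc 1 y, F n‖ ≤ ‖∑ n ∈ range y, F n‖ + 2 := by
  rw [sum_shift]
  have h1 := norm_sub_le (∑ n ∈ range y, F n + F y) (F 0)
  have h2 := norm_add_le (∑ n ∈ range y, F n) (F y)
  have h3 := hF y
  have h4 := hF 0
  linarith

/-- mean values over scales from exceptional sets -/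
lemma l1_of_sE (E : Finset ℕ) (X : ℕ) (hE : E ⊆ Icc 1 X) (a : ℕ → ℝ) (T : Set ℕ) (δ : ℝ) (hδ : 0 ≤ δ)
    (h1 : ∀ N ∈ E, a N ≤ N) (h2 : ∀ N ∈ E, N ∉ T → a N ≤ δ * N + 2) :
    ∑ N ∈ E, a N / (N : ℝ) ^ 2 ≤ δ * (1 + Real.log X) + 4 + sE T X := by
  have h3 : ∀ N ∈ E, a N / (N : ℝ) ^ 2 ≤ δ * (1 / N) + 2 * (1 / (N : ℝ) ^ 2) + ind T N / N := by
    intro N hN
    have hN1 := mem_Icc.1 (hE hN)
    have hN0 : (0 : ℝ) < N := by exact_mod_cast hN1.1
    by_cases hT : N ∈ T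
    · have e1 : ind T N = 1 := by unfold ind; rw [if_pos hT]
      have e2 : a N / (N : ℝ) ^ 2 ≤ N / (N : ℝ) ^ 2 := div_le_div_of_nonneg_right (h1 N hN) (by positivity)
      have e3 : (N : ℝ) / (N : ℝ) ^ 2 = 1 / N := by field_simp
      have e4 : (0 : ℝ) ≤ δ * (1 / N) := by positivity
      have e5 : (0 : ℝ) ≤ 2 * (1 / (N : ℝ) ^ 2) := by positivity
      rw [e1]
      linarith
    · have e2 : a N / (N : ℝ) ^ 2 ≤ (δ * N + 2) / (N : ℝ) ^ 2 :=
        div_le_div_of_nonneg_right (h2 N hN hT) (by positivity)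
      have e3 : (δ * N + 2) / (N : ℝ) ^ 2 = δ * (1 / N) + 2 * (1 / (N : ℝ) ^ 2) := by field_simp
      have e4 : (0 : ℝ) ≤ ind T N / N := div_nonneg (ind_nonneg T N) hN0.le
      linarith
  have h4 : ∑ N ∈ E, (δ * (1 / (N : ℝ)) + 2 * (1 / (N : ℝ) ^ 2) + ind T N / N) ≤
      ∑ N ∈ Icc 1 X, (δ * (1 / (N : ℝ)) + 2 * (1 / (N : ℝ) ^ 2) + ind T N / N) := by
    apply sum_le_sum_of_subset_of_nonneg hE
    intro N _ _
    have e4 : (0 : ℝ) ≤ ind T N / N := div_nonneg (ind_nonneg T N) (Nat.cast_nonneg N)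
    positivity
  refine (sum_le_sum h3).trans (h4.trans ?_)
  rw [sum_add_distrib, sum_add_distrib, ← mul_sum, ← mul_sum]
  have e1 := mul_le_mul_of_nonneg_left (harm_le X) hδ
  have e2 := sq_le X
  have e3 : ∑ N ∈ Icc 1 X, ind T N / (N : ℝ) = sE T X := rfl
  linarith

/-- **pairs**: for a function with small exponential sums and an arbitrary multiplicative function -/
theorem pair_all (f : ℕ → ℂ) (hb : ∀ n, ‖f n‖ ≤ 1) (hE : ExpoSmall f) (hf : ∀ p : ℕ, p.Prime → Flp f p)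
    (a c : ℕ) (hac : a ≠ c) (ε : ℝ) (hε : 0 < ε) :
    ∃ X₀ : ℕ, ∀ X : ℕ, X₀ ≤ X → ∀ g : ℕ → ℂ, (∀ n, ‖g n‖ ≤ 1) →
      (∀ m n : ℕ, Nat.Coprime m n → g (m * n) = g m * g n) → ∀ (α : ℕ → ℝ) (y : ℕ → ℕ), (∀ N, y N ≤ N) →
        ∑ N ∈ Icc 1 X, ‖∑ n ∈ Icc 1 (y N), f (n + a) * g (n + c) * ee (α N * n)‖ / (N : ℝ) ^ 2 ≤
          ε * Real.log X := by
  set δ : ℝ := min 1 (ε / 4) with hδ
  have hδ0 : 0 < δ := lt_min one_pos (by positivity)
  have hδ1 : δ ≤ 1 := min_le_left _ _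
  have hδε : δ ≤ ε / 4 := min_le_right _ _
  obtain ⟨X₁, hX₁⟩ := all_phases f hb hE hf a c hac δ hδ0 hδ1 (ε / 4) (by positivity)
  obtain ⟨X₂, hX₂⟩ := Filter.eventually_atTop.1 ((Filter.tendsto_atTop.1
    (Real.tendsto_log_atTop.comp tendsto_natCast_atTop_atTop)) (20 / ε + 1))
  refine ⟨X₁ + X₂ + 1, fun X hX g hg hm α y hy => ?_⟩
  have hlog : 20 / ε + 1 ≤ Real.log X := hX₂ X (by omega)
  have hlog1 : (1 : ℝ) ≤ Real.log X := by
    have : 0 < 20 / ε := by positivity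
    linarith
  have hlog2 : 4 ≤ ε / 4 * Real.log X := by
    have h1 : ε / 4 * (20 / ε + 1) ≤ ε / 4 * Real.log X := mul_le_mul_of_nonneg_left hlog (by positivity)
    have h2 : ε / 4 * (20 / ε + 1) = 5 + ε / 4 := by
      field_simp
      ring
    linarith
  have key := reduct (r := 1) (fun _ => c) X (X + c) (fun _ => le_refl _) (fun N => 1 / (N : ℝ) ^ 2)
    (fun N => by positivity) y hy (fun N n => f (n + a) * ee (α N * n)) (ε * Real.log X) (by
      intro G hG hGF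
      have h1 := hX₁ X (by omega) (G 0) (hG 0) (fun p hp => hGF p hp 0)
      set T : Set ℕ := {N : ℕ | ∃ α : ℝ, ∃ y ≤ N, δ * N < ‖Cg ![f, G 0] ![a, c] y α‖} with hT
      have h2 := l1_of_sE (Icc 1 X) X (Subset.refl _) (fun N =>
        ‖∑ n ∈ Icc 1 (y N), f (n + a) * ee (α N * n) * ∏ t : Fin 1, G t (n + c)‖) T δ hδ0.le (by
          intro N _
          refine (norm_sum_le _ _).trans ?_
          calc ∑ n ∈ Icc 1 (y N), ‖f (n + a) * ee (α N * n) * ∏ t : Fin 1, G t (n + c)‖ ≤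
              ∑ n ∈ Icc 1 (y N), (1 : ℝ) := by
                refine sum_le_sum fun n _ => ?_
                rw [norm_mul, norm_mul, c_norm_ee, mul_one, norm_prod]
                have e1 := hb (n + a)
                have e2 : ∏ t : Fin 1, ‖G t (n + c)‖ ≤ 1 :=
                  prod_le_one (fun _ _ => norm_nonneg _) (fun t _ => hG t _)
                have e3 : 0 ≤ ∏ t : Fin 1, ‖G t (n + c)‖ := prod_nonneg (fun _ _ => norm_nonneg _)
                exact mul_le_one₀ e1 e3 e2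
            _ = (y N : ℝ) := by simp
            _ ≤ N := by exact_mod_cast hy N) (by
          intro N _ hNT
          have h3 : ‖Cg ![f, G 0] ![a, c] (y N) (α N)‖ ≤ δ * N := by
            by_contra h
            push Not at h
            exact hNT ⟨α N, y N, hy N, h⟩
          have h4 := sum_shift_le (fun n => pr ![f, G 0] ![a, c] 1 n * ee (α N * n)) (fun n => by
            show ‖pr ![f, G 0] ![a, c] 1 n * ee (α N * n)‖ ≤ 1
            rw [norm_mul, c_norm_ee, mul_one]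
            refine pr_le _ (fun t n => ?_) _ _ _
            fin_cases t
            · exact hb n
            · exact hG 0 n) (y N)
          have h5 : ∑ n ∈ Icc 1 (y N), pr ![f, G 0] ![a, c] 1 n * ee (α N * n) =
              ∑ n ∈ Icc 1 (y N), f (n + a) * ee (α N * n) * ∏ t : Fin 1, G t (n + c) := by
            refine sum_congr rfl fun n _ => ?_
            rw [pr_two, Fin.prod_univ_one, one_mul, one_mul]
            ring
          have h6 : ‖∑ n ∈ Icc 1 (y N), pr ![f, G 0] ![a, c] 1 n * ee (α N * n)‖ ≤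
            ‖Cg ![f, G 0] ![a, c] (y N) (α N)‖ + 2 := h4
          rw [h5] at h6
          linarith)
      have h3 : ∑ N ∈ Icc 1 X, 1 / (N : ℝ) ^ 2 * ‖∑ n ∈ Icc 1 (y N), f (n + a) * ee (α N * n) *
          ∏ t : Fin 1, G t (n + c)‖ = ∑ N ∈ Icc 1 X, ‖∑ n ∈ Icc 1 (y N), f (n + a) * ee (α N * n) *
          ∏ t : Fin 1, G t (n + c)‖ / (N : ℝ) ^ 2 := by
        refine sum_congr rfl fun N _ => ?_
        rw [one_div, mul_comm, div_eq_mul_inv]
      refine (le_of_eq h3).trans (h2.trans ?_)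
      have h4 : δ * (1 + Real.log X) ≤ ε / 4 * (2 * Real.log X) := by
        apply mul_le_mul hδε (by linarith) (by linarith) (by positivity)
      linarith) (by positivity) (fun _ => g) (fun _ n => hg n) (fun _ m n h => hm m n h)
  refine le_trans (le_of_eq ?_) key
  refine sum_congr rfl fun N _ => ?_
  rw [one_div, mul_comm (((N : ℝ) ^ 2)⁻¹), ← div_eq_mul_inv]
  congr 2
  refine sum_congr rfl fun n _ => ?_
  show f (n + a) * g (n + c) * ee (α N * n) = f (n + a) * ee (α N * n) * ∏ t : Fin 1, g (n + c)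
  rw [Fin.prod_univ_one]
  ring

/-- minor arcs, all partial sums -/
theorem minor_phases {r : ℕ} (hr : 1 ≤ r) (hs : Fin r → ℕ) (δ : ℝ) (hδ : 0 < δ) (hδ1 : δ ≤ 1) (η : ℝ)
    (hη : 0 < η) : ∃ R X₀ : ℕ, ∀ X : ℕ, X₀ ≤ X → ∀ G : Fin r → ℕ → ℂ, CF G →
      sE {N : ℕ | ∃ α : ℝ, GdM R N α ∧ ∃ y ≤ N, δ * N < ‖Cg G hs y α‖} X ≤ η * Real.log X := by
  set δ₀ : ℝ := δ / 4 with hδ₀
  have hδ₀0 : 0 < δ₀ := by positivity
  have hδ₀1 : δ₀ ≤ 1 := by rw [hδ₀]; linarith
  obtain ⟨R, X₁, hX₁⟩ := minor hr (∑ t, hs t) hs (fun t => single_le_sum (f := fun t => hs t)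
    (fun _ _ => Nat.zero_le _) (mem_univ t)) δ₀ hδ₀0 hδ₀1 (η * δ / 16) (by positivity)
  refine ⟨⌈2 * R / δ⌉₊ + R, X₁ + 2, fun X hX G hCF => ?_⟩
  have hX2 : 2 ≤ X := by omega
  have hlX := log_two_mul X hX2
  have h3 := hX₁ (2 * X) (by omega) G hCF
  have h1 : sE {N : ℕ | ∃ α : ℝ, GdM (⌈2 * R / δ⌉₊ + R) N α ∧ ∃ y ≤ N, δ * N < ‖Cg G hs y α‖} X ≤
      4 / (δ / 2) * sE (Bad G hs GdM R δ₀) (2 * X) := by
    refine (sE_mono ?_ X).trans (thick (Bad G hs GdM R δ₀) (δ / 2) (by positivity) (by linarith) X)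
    rintro N ⟨α, hα, y, hyN, hbig⟩
    have hN0 : 0 < N := by
      rcases Nat.eq_zero_or_pos N with h0 | h0
      · exfalso
        have hy : y = 0 := by omega
        rw [h0, hy, Cg_zero] at hbig
        simp at hbig
      · exact h0
    obtain ⟨h2, h4⟩ := near G hCF.1 hs δ hδ hδ1 α N y hyN hN0 hbig
    refine ⟨y, h2, hyN, fun m hm1 hm2 => ⟨α, fun q hq1 hqR A => ?_, h4 m hm1 hm2⟩⟩
    have h5 := hα q hq1 (by omega) A
    have h6 : δ / 2 * N ≤ (m : ℝ) := h2.trans (by exact_mod_cast hm1)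
    have h7 : |α - A / q| * (δ / 2 * N) ≤ |α - A / q| * m := mul_le_mul_of_nonneg_left h6 (abs_nonneg _)
    refine le_trans ?_ h7
    have h8 : (2 * R / δ : ℝ) ≤ ((⌈2 * R / δ⌉₊ + R : ℕ) : ℝ) := by
      push_cast
      have := Nat.le_ceil (2 * (R : ℝ) / δ)
      have h9 : (0 : ℝ) ≤ R := Nat.cast_nonneg R
      linarith
    have h9 : (2 * R / δ : ℝ) ≤ |α - A / q| * N := h8.trans h5
    calc (R : ℝ) = δ / 2 * (2 * R / δ) := by field_simp
      _ ≤ δ / 2 * (|α - A / q| * N) := mul_le_mul_of_nonneg_left h9 (by positivity)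
      _ = |α - A / q| * (δ / 2 * N) := by ring
  calc _ ≤ 4 / (δ / 2) * sE (Bad G hs GdM R δ₀) (2 * X) := h1
    _ ≤ 4 / (δ / 2) * (η * δ / 8 * Real.log X) := by
        apply mul_le_mul_of_nonneg_left _ (by positivity)
        refine h3.trans ?_
        calc η * δ / 16 * Real.log ((2 * X : ℕ) : ℝ) ≤ η * δ / 16 * (2 * Real.log X) :=
              mul_le_mul_of_nonneg_left hlX (by positivity)
          _ = η * δ / 8 * Real.log X := by ring
    _ = η * Real.log X := by field_simp; ring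

/-- **minor arcs** for products of any number of arbitrary multiplicative functions -/
theorem minor_all {r : ℕ} (hr : 1 ≤ r) (hs : Fin r → ℕ) (ε : ℝ) (hε : 0 < ε) :
    ∃ R X₀ : ℕ, ∀ X : ℕ, X₀ ≤ X → ∀ g : Fin r → ℕ → ℂ, (∀ t n, ‖g t n‖ ≤ 1) →
      (∀ t, ∀ m n : ℕ, Nat.Coprime m n → g t (m * n) = g t m * g t n) → ∀ (α : ℕ → ℝ) (y : ℕ → ℕ),
      (∀ N, y N ≤ N) → ∀ E : Finset ℕ, E ⊆ Icc 1 X →
        (∀ N ∈ E, ∀ q : ℕ, 1 ≤ q → q ≤ R → ∀ A : ℤ, (R : ℝ) ≤ |α N - A / q| * N) →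
        ∑ N ∈ E, ‖∑ n ∈ Icc 1 (y N), (∏ t, g t (n + hs t)) * ee (α N * n)‖ / (N : ℝ) ^ 2 ≤
          ε * Real.log X := by
  classical
  set δ : ℝ := min 1 (ε / 4) with hδ
  have hδ0 : 0 < δ := lt_min one_pos (by positivity)
  have hδ1 : δ ≤ 1 := min_le_left _ _
  have hδε : δ ≤ ε / 4 := min_le_right _ _
  obtain ⟨R, X₁, hX₁⟩ := minor_phases hr hs δ hδ0 hδ1 (ε / 4) (by positivity)
  obtain ⟨X₂, hX₂⟩ := Filter.eventually_atTop.1 ((Filter.tendsto_atTop.1
    (Real.tendsto_log_atTop.comp tendsto_natCast_atTop_atTop)) (20 / ε + 1))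
  refine ⟨R, X₁ + X₂ + 1, fun X hX g hg hm α y hy E hEX hα => ?_⟩
  have hlog : 20 / ε + 1 ≤ Real.log X := hX₂ X (by omega)
  have hlog1 : (1 : ℝ) ≤ Real.log X := by
    have : 0 < 20 / ε := by positivity
    linarith
  have hlog2 : 4 ≤ ε / 4 * Real.log X := by
    have h1 : ε / 4 * (20 / ε + 1) ≤ ε / 4 * Real.log X := mul_le_mul_of_nonneg_left hlog (by positivity)
    have h2 : ε / 4 * (20 / ε + 1) = 5 + ε / 4 := by
      field_simp
      ring
    linarith
  have hEsum : ∀ F : ℕ → ℝ, ∑ N ∈ Icc 1 X, (if N ∈ E then 1 / (N : ℝ) ^ 2 else 0) * F N =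
      ∑ N ∈ E, F N / (N : ℝ) ^ 2 := by
    intro F
    have e1 : ∀ N ∈ Icc 1 X, (if N ∈ E then 1 / (N : ℝ) ^ 2 else 0) * F N = if N ∈ E then F N / (N : ℝ) ^ 2 else 0 := by
      intro N _
      split_ifs
      · rw [one_div, mul_comm, div_eq_mul_inv]
      · rw [zero_mul]
    rw [sum_congr rfl e1, ← sum_filter]
    congr 1
    ext N
    rw [mem_filter]
    exact ⟨fun h => h.2, fun h => ⟨hEX h, h⟩⟩
  have key := reduct hs X (X + ∑ t, hs t) (fun t => Nat.add_le_add_left (single_le_sum (f := fun t => hs t)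
    (fun _ _ => Nat.zero_le _) (mem_univ t)) X) (fun N => if N ∈ E then 1 / (N : ℝ) ^ 2 else 0)
    (fun N => by
      show 0 ≤ if N ∈ E then 1 / (N : ℝ) ^ 2 else 0
      split_ifs <;> positivity) y hy (fun N n => ee (α N * n)) (ε * Real.log X) (by
      intro G hG hGF
      have h1 := hX₁ X (by omega) G ⟨hG, hGF⟩
      set T : Set ℕ := {N : ℕ | ∃ α : ℝ, GdM R N α ∧ ∃ y ≤ N, δ * N < ‖Cg G hs y α‖} with hT
      have h2 := l1_of_sE E X hEX (fun N =>
        ‖∑ n ∈ Icc 1 (y N), ee (α N * n) * ∏ t, G t (n + hs t)‖) T δ hδ0.le (by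
          intro N _
          refine (norm_sum_le _ _).trans ?_
          calc ∑ n ∈ Icc 1 (y N), ‖ee (α N * n) * ∏ t, G t (n + hs t)‖ ≤
              ∑ n ∈ Icc 1 (y N), (1 : ℝ) := by
                refine sum_le_sum fun n _ => ?_
                rw [norm_mul, c_norm_ee, one_mul, norm_prod]
                exact prod_le_one (fun _ _ => norm_nonneg _) (fun t _ => hG t _)
            _ = (y N : ℝ) := by simp
            _ ≤ N := by exact_mod_cast hy N) (by
          intro N hNE hNT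
          have h3 : ‖Cg G hs (y N) (α N)‖ ≤ δ * N := by
            by_contra h
            push Not at h
            exact hNT ⟨α N, hα N hNE, y N, hy N, h⟩
          have h4 := sum_shift_le (fun n => pr G hs 1 n * ee (α N * n)) (fun n => by
            show ‖pr G hs 1 n * ee (α N * n)‖ ≤ 1
            rw [norm_mul, c_norm_ee, mul_one]
            exact pr_le _ hG _ _ _) (y N)
          have h5 : ∑ n ∈ Icc 1 (y N), pr G hs 1 n * ee (α N * n) =
              ∑ n ∈ Icc 1 (y N), ee (α N * n) * ∏ t, G t (n + hs t) := by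
            refine sum_congr rfl fun n _ => ?_
            unfold pr
            rw [mul_comm]
            congr 1
            refine prod_congr rfl fun t _ => ?_
            rw [one_mul]
          have h6 : ‖∑ n ∈ Icc 1 (y N), pr G hs 1 n * ee (α N * n)‖ ≤ ‖Cg G hs (y N) (α N)‖ + 2 := h4
          rw [h5] at h6
          linarith)
      refine (le_of_eq (hEsum _)).trans (h2.trans ?_)
      have h4 : δ * (1 + Real.log X) ≤ ε / 4 * (2 * Real.log X) := by
        apply mul_le_mul hδε (by linarith) (by linarith) (by positivity)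
      linarith) (by positivity) g hg hm
  refine le_trans (le_of_eq ?_) key
  rw [hEsum]
  refine sum_congr rfl fun N _ => ?_
  congr 2
  refine sum_congr rfl fun n _ => ?_
  rw [mul_comm]

end Pool.Agent.Y842.PG
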